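import Pool.Agent.NUAct.Abs

/-!
# The exponent of a transported gas in terms of the centred measure
-/

set_option autoImplicit false

open MeasureTheory Set Filter Topology Complex

namespace NUAct

noncomputable section

namespace Gas

variable {ι : Type*} [Fintype ι] {X : Gas ι}

/-- centred linear statistic of the points `x i` of species `σ i` -/
def nu {I : Type*} [Fintype I] (X : Gas ι) (σ : I → ι) (x : I → ℝ) (f : ι → ℝ → ℝ) : ℝ :=
  ∑ i, f (σ i) (x i) - ∑ a, ∫ t, X.ρ a t * f a t

/-- centred quadratic statistic; `κd` is the kernel `κ` with its values on the diagonal -/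
def nu2 {I : Type*} [Fintype I] (X : Gas ι) (σ : I → ι) (x : I → ℝ) (κd : ι → ι → ℝ → ℝ → ℝ) : ℝ :=
  ∑ i, ∑ j, κd (σ i) (σ j) (x i) (x j) - 2 * ∑ i, ∑ b, X.κρ (σ i) b (x i) +
    ∑ a, ∫ t, X.ρ a t * ∑ b, X.κρ a b t

namespace Ok

variable (h : X.Ok)

include h

lemma int_rho_vh (a : ι) : Integrable fun t => X.ρ a t * (X.vh a t).re := by
  refine (h.j2 a).re.congr (Eventually.of_forall fun t => ?_)
  exact Complex.re_ofReal_mul _ _

lemma int_rho_Fh (a : ι) : Integrable fun t => X.ρ a t * (X.Fh a t).re := by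
  refine (h.j5 a).re.congr (Eventually.of_forall fun t => ?_)
  exact Complex.re_ofReal_mul _ _

lemma int_rho_G (a : ι) : Integrable fun t => X.ρ a t * X.G a t := by
  refine (((h.int_rho_vh a).sub (h.j1 a)).add (h.int_rho_Fh a)).congr
    (Eventually.of_forall fun t => ?_)
  simp only [Pi.add_apply, Pi.sub_apply, Gas.G]
  ring

lemma int_rho_KB (a b : ι) : Integrable fun t => X.ρ a t * (X.KB a b t).re := by
  have q1 : Integrable fun t => (X.ρ a t : ℂ) * X.KB a b t := by
    refine (h.p1 a b).integral_prod_left.congr (Eventually.of_forall fun t => ?_)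
    simp only [Gas.KB]
    rw [← integral_const_mul]
    refine integral_congr_ae (Eventually.of_forall fun t' => ?_)
    simp only
    ring
  refine q1.re.congr (Eventually.of_forall fun t => ?_)
  exact Complex.re_ofReal_mul _ _

lemma int_rho_κρ (a : ι) : Integrable fun t => X.ρ a t * ∑ b, X.κρ a b t := by
  have e : (fun t => X.ρ a t * ∑ b, X.κρ a b t) = fun t => ∑ b, X.ρ a t * (X.KB a b t).re +
      (X.ρ a t * X.v a t - X.ρ a t * (X.vh a t).re) := by
    funext t
    rw [h.sum_κρ, mul_add, Finset.mul_sum]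
    ring
  rw [e]
  exact (integrable_finsetSum _ fun b _ => h.int_rho_KB a b).add ((h.j1 a).sub (h.int_rho_vh a))

lemma int_rho_lin (a : ι) : Integrable fun t => X.ρ a t * X.lin a t := by
  refine ((h.int_rho_κρ a).add (h.int_rho_G a)).congr (Eventually.of_forall fun t => ?_)
  simp only [Pi.add_apply]
  rw [← h.lin_eq a t]
  ring

/-- **the exponent identity** -/
theorem expo {I : Type*} [Fintype I] (σ : I → ι) (x : I → ℝ) (κd : ι → ι → ℝ → ℝ → ℝ) :
    (1 / 2) * ∑ i, ∑ j, κd (σ i) (σ j) (x i) (x j) + ∑ i, X.G (σ i) (x i) =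
      X.S + X.nu σ x X.lin + (1 / 2) * X.nu2 σ x κd := by
  have e1 : ∑ a, (∫ t, X.ρ a t * X.lin a t) =
      ∑ a, (∫ t, X.ρ a t * ∑ b, X.κρ a b t) + ∑ a, ∫ t, X.ρ a t * X.G a t := by
    rw [← Finset.sum_add_distrib]
    refine Finset.sum_congr rfl fun a _ => ?_
    rw [← integral_add (h.int_rho_κρ a) (h.int_rho_G a)]
    refine integral_congr_ae (Eventually.of_forall fun t => ?_)
    simp only
    rw [← h.lin_eq a t]
    ring
  have e2 : ∑ i, X.lin (σ i) (x i) = ∑ i, ∑ b, X.κρ (σ i) b (x i) + ∑ i, X.G (σ i) (x i) := by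
    rw [← Finset.sum_add_distrib]
    exact Finset.sum_congr rfl fun i _ => (h.lin_eq (σ i) (x i)).symm
  have e3 := h.act_eq
  unfold nu nu2
  rw [e1, e2, ← e3]
  ring

end Ok

end Gas

end

end NUAct
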