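import Pool.Agent.NUAct.OCw
import Pool.Agent.NUCUR.Eta
import Pool.Agent.NUR2.Disp

/-!
# Admissible currents and the transported density

`Cur s ε M b e η`: `i η` and its first four derivatives are bounded by the weight `e`, `e ≤ ε`,
`s P e ≤ M`, `e = 0` off `|t| ≤ b`.
-/

set_option autoImplicit false

open MeasureTheory Set Filter Topology Complex

namespace NUAct

open NUMF NUKer

noncomputable section

/-- imaginary parts -/
lemma OC.im {j : ℕ} {a : ℝ} : ∀ {e : ℝ → ℝ} {f : ℝ → ℂ}, OC j e f → (∀ t, e t ≤ a) →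
    NUOC.O j a fun t => (f t).im := by
  induction j with
  | zero =>
    intro e f h ha
    exact ⟨Complex.continuous_im.comp h.1, fun x => (Complex.abs_im_le_norm _).trans
      ((h.2 x).trans (ha x))⟩
  | succ j ih =>
    rintro e f ⟨h1, f', h2, h3⟩ ha
    refine ⟨fun x => (Complex.abs_im_le_norm _).trans ((h1 x).trans (ha x)), _,
      fun x => ?_, ih h3 ha⟩
    exact Complex.imCLM.hasFDerivAt.comp_hasDerivAt x (h2 x)

/-- an admissible imaginary displacement -/
structure Cur (s ε M b : ℝ) (e : ℝ → ℝ) (η : ℝ → ℝ) : Prop where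
  oc : OC 4 e (iD η)
  le : ∀ t, e t ≤ ε
  mass : ∀ t, s * P t * e t ≤ M
  supp : ∀ t, b < |t| → e t = 0

/-- **currents give admissible displacements** -/
theorem exists_cur : ∃ C : ℝ, 1 ≤ C ∧ ∀ s M b : ℝ, 0 < s → 0 ≤ b → ∀ h : ℝ → ℝ,
    ContDiff ℝ 4 h → (∀ k ≤ 4, ∀ t, |iteratedDeriv k h t| ≤ M) → (∀ t, b ≤ |t| → h t = 0) →
    ∃ e : ℝ → ℝ, Cur s (C * M / (s * P b)) (C * M) b e fun t => h t / (s * P t) := by
  obtain ⟨C1, hC1, H1⟩ := NUCUR.inv_P_bound_all 4
  have h7 : 0 < 3 * √3 * Real.pi := mul_pos (mul_pos three_pos sq3_pos) Real.pi_pos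
  have hc1 := NUDp.c1_pos
  obtain ⟨C2, hC2d⟩ : ∃ C2 : ℝ, C2 = 16 * (C1 * (32 / (3 * √3 * Real.pi))) := ⟨_, rfl⟩
  have hC2 : 0 < C2 := by rw [hC2d]; positivity
  refine ⟨1 + C2 + C2 / NUDp.c1, by
    have : 0 < C2 / NUDp.c1 := by positivity
    linarith, fun s M b hs hb h hh hM hsupp => ?_⟩
  have hM0 : 0 ≤ M := (abs_nonneg _).trans (hM 0 (by norm_num) 0)
  -- the inverse density
  have a1 : OC 4 (fun t => C1 * (32 / (3 * √3 * Real.pi)) / P t) fun t => (((P t)⁻¹ : ℝ) : ℂ) := by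
    refine OC_of_iter NUCUR.contDiff_inv_P fun k hk t => (H1 k hk t).trans ?_
    have hp := P_pos t
    rw [le_div_iff₀ hp]
    have h1 := P_le t
    have h2 : Real.exp (8 / 3 * |t|) * Real.exp (-(8 / 3) * |t|) = 1 := by
      rw [← Real.exp_add]
      have : 8 / 3 * |t| + -(8 / 3) * |t| = 0 := by ring
      rw [this, Real.exp_zero]
    calc C1 * Real.exp (8 / 3 * |t|) * P t ≤ C1 * Real.exp (8 / 3 * |t|) *
          (32 / (3 * √3 * Real.pi) * Real.exp (-(8 / 3) * |t|)) := by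
          gcongr
      _ = C1 * (32 / (3 * √3 * Real.pi)) *
          (Real.exp (8 / 3 * |t|) * Real.exp (-(8 / 3) * |t|)) := by ring
      _ = _ := by rw [h2, mul_one]
  -- the current
  have a2 : OC 4 (fun t => if |t| ≤ b then M else 0) fun t => (h t : ℂ) := by
    refine OC_of_iter hh fun k hk t => ?_
    split_ifs with ht
    · exact hM k hk t
    · rw [NUCUR.iter_zero_out hsupp k t (not_le.1 ht), abs_zero]
  have a3 := (a2.mul a1).smul (I * ((s⁻¹ : ℝ) : ℂ))
  refine ⟨fun t => if |t| ≤ b then C2 * M / (s * P t) else 0, ⟨?_, ?_, ?_, ?_⟩⟩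
  · refine (a3.mono fun t => le_of_eq ?_).congr fun t => ?_
    · rw [norm_mul, Complex.norm_I, one_mul, Complex.norm_real, Real.norm_eq_abs,
        abs_of_pos (inv_pos.2 hs), hC2d]
      have hp := (P_pos t).ne'
      have := h7.ne'
      split_ifs
      · field_simp
        ring
      · simp
    · unfold iD
      push_cast
      rw [div_eq_mul_inv, mul_inv]
      ring
  · intro t
    have hpb := P_pos b
    have hp := P_pos t
    split_ifs with ht
    · have h1 := NUDp.P_comp hb (ht.trans (by linarith : b ≤ b + 1))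
      have h2 : 0 ≤ C2 * M := by positivity
      rw [div_le_div_iff₀ (by positivity) (by positivity)]
      have h3 : P b ≤ P t / NUDp.c1 := by
        rw [le_div_iff₀ hc1]
        linarith
      calc C2 * M * (s * P b) ≤ C2 * M * (s * (P t / NUDp.c1)) := by gcongr
        _ = C2 / NUDp.c1 * (M * (s * P t)) := by ring
        _ ≤ (1 + C2 + C2 / NUDp.c1) * (M * (s * P t)) := by
            refine mul_le_mul_of_nonneg_right ?_ (by positivity)
            linarith
        _ = _ := by ring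
    · positivity
  · intro t
    have hp := P_pos t
    have h2 : C2 * M ≤ (1 + C2 + C2 / NUDp.c1) * M := by
      refine mul_le_mul_of_nonneg_right ?_ hM0
      have : 0 < C2 / NUDp.c1 := by positivity
      linarith
    split_ifs with ht
    · rw [mul_div_cancel₀ _ (by positivity : s * P t ≠ 0)]
      exact h2
    · rw [mul_zero]
      exact le_trans (by positivity) h2
  · intro t ht
    rw [if_neg (not_le.2 ht)]

variable {s ε M b : ℝ} {e η η1 : ℝ → ℝ}

namespace Cur

lemma nonneg (h : Cur s ε M b e η) (t : ℝ) : 0 ≤ e t := h.oc.nonneg t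

lemma ε0 (h : Cur s ε M b e η) : 0 ≤ ε := (h.nonneg 0).trans (h.le 0)

lemma M0 (h : Cur s ε M b e η) (hs : 0 ≤ s) : 0 ≤ M :=
  (mul_nonneg (mul_nonneg hs (P_pos 0).le) (h.nonneg 0)).trans (h.mass 0)

lemma O4 (h : Cur s ε M b e η) : NUOC.O 4 ε η := by
  refine (h.oc.im h.le).congr fun t => ?_
  simp [iD]

lemma oc1 (h : Cur s ε M b e η) (h1 : ∀ t, HasDerivAt η (η1 t) t) : OC 3 e (iD η1) := by
  obtain ⟨a0, f', a1, a2⟩ := h.oc
  have e1 : f' = iD η1 := by
    funext t
    have h2 : HasDerivAt (iD η) (iD η1 t) t := (h1 t).ofReal_comp.mul_const I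
    exact (a1 t).unique h2
  rwa [e1] at a2

lemma exists_deriv (h : Cur s ε M b e η) : ∃ η1 : ℝ → ℝ, ∀ t, HasDerivAt η (η1 t) t := by
  obtain ⟨_, f', h1, _⟩ := h.O4
  exact ⟨f', h1⟩

lemma disp (h : Cur s ε M b e η) (h1 : ∀ t, HasDerivAt η (η1 t) t) (R : ℝ) :
    NUKer.Disp R ε (iD η) (iD η1) := NUR2.disp_iD h.O4 h1 R

/-- displacement in the sense of `NUAct` -/
lemma disp' (h : Cur s ε M b e η) (hs : 0 ≤ s) (h1 : ∀ t, HasDerivAt η (η1 t) t) :
    ∃ η2 : ℝ → ℝ, Disp s ε M (b + 1) (iD η) (iD η1) (iD η2) ∧ OC 2 e (iD η2) := by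
  have a1 := h.oc1 h1
  obtain ⟨_, η1', b1, _, η2, b2, _⟩ := h.O4
  obtain rfl : η1' = η1 := funext fun x => (b1 x).unique (h1 x)
  have a2 : OC 2 e (iD η2) := by
    obtain ⟨-, f', c1, c2⟩ := a1
    have e1 : f' = iD η2 := by
      funext t
      have h2 : HasDerivAt (iD η1') (iD η2 t) t := (b2 t).ofReal_comp.mul_const I
      exact (c1 t).unique h2
    rwa [e1] at c2
  have hsp : ∀ {f : ℝ → ℂ} {j : ℕ}, OC j e f → ∀ t, b + 1 ≤ |t| → f t = 0 := by
    intro f j hf t ht
    have := hf.le t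
    rw [h.supp t (by linarith)] at this
    exact norm_le_zero_iff.1 this
  have hms : ∀ {f : ℝ → ℂ} {j : ℕ}, OC j e f → ∀ t, s * P t * ‖f t‖ ≤ M := fun hf t =>
    (mul_le_mul_of_nonneg_left (hf.le t) (mul_nonneg hs (P_pos t).le)).trans (h.mass t)
  refine ⟨η2, ⟨fun t => (h1 t).ofReal_comp.mul_const I, fun t => (b2 t).ofReal_comp.mul_const I,
    a2.cont, fun t => (h.oc.le t).trans (h.le t), fun t => (a1.le t).trans (h.le t),
    fun t => (a2.le t).trans (h.le t), hms h.oc, hms a1, hms a2,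
    fun t ht => ⟨hsp h.oc t ht, hsp a1 t ht, hsp a2 t ht⟩⟩, a2⟩

end Cur

end

end NUAct
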