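import Pool.Agent.NUAct.Cur

/-!
# The transported density of an admissible current

`Bf s (iD η) (iD η1) = i hd + Br`, `hd = (s P η)'`, `Br` second order; the real part is of second
order with three derivatives.
-/

set_option autoImplicit false

open MeasureTheory Set Filter Topology Complex

namespace NUAct

open NUMF NUKer

noncomputable section

variable {s ε M b : ℝ} {e η η1 : ℝ → ℝ}

lemma Pc1_im (t : ℝ) : (iteratedDeriv 1 Pc (t : ℂ)).im = 0 := by
  have h1 : HasDerivAt (fun t : ℝ => ((P t : ℂ)).im) (iteratedDeriv 1 Pc (t : ℂ)).im t :=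
    Complex.imCLM.hasFDerivAt.comp_hasDerivAt t (hasDerivAt_Pt t)
  have h2 : HasDerivAt (fun t : ℝ => ((P t : ℂ)).im) 0 t := by
    simp only [Complex.ofReal_im]
    exact hasDerivAt_const t 0
  exact h1.unique h2

/-- derivative of the current `s P η` -/
def hd (s : ℝ) (η η1 : ℝ → ℝ) (t : ℝ) : ℝ := (af s (iD η) (iD η1) t).im

lemma af_re (s : ℝ) (η η1 : ℝ → ℝ) (t : ℝ) : (af s (iD η) (iD η1) t).re = 0 := by
  unfold af iD
  rw [Pc_ofReal, Complex.re_ofReal_mul]
  have h1 := Pc1_im t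
  have : (iteratedDeriv 1 Pc (t : ℂ) * ((η t : ℂ) * I) + (P t : ℂ) * ((η1 t : ℂ) * I)).re = 0 := by
    rw [Complex.add_re, ← mul_assoc, ← mul_assoc, Complex.mul_I_re, Complex.mul_I_re,
      Complex.im_mul_ofReal, h1, ← Complex.ofReal_mul, Complex.ofReal_im]
    ring
  rw [this, mul_zero]

lemma af_eq (s : ℝ) (η η1 : ℝ → ℝ) (t : ℝ) : af s (iD η) (iD η1) t = (hd s η η1 t : ℂ) * I := by
  apply Complex.ext
  · rw [af_re]
    simp
  · unfold hd
    simp

lemma hasDerivAt_hd (s : ℝ) {η η1 : ℝ → ℝ} (h1 : ∀ t, HasDerivAt η (η1 t) t) (t : ℝ) :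
    HasDerivAt (fun t => s * P t * η t) (hd s η η1 t) t := by
  have h2 : HasDerivAt (fun t : ℝ => (s : ℂ) * ((P t : ℂ) * iD η t)) (af s (iD η) (iD η1) t) t := by
    have h3 : HasDerivAt (iD η) (iD η1 t) t := (h1 t).ofReal_comp.mul_const I
    have h4 := ((hasDerivAt_Pt t).mul h3).const_mul (s : ℂ)
    refine h4.congr_deriv ?_
    unfold af
    rw [Pc_ofReal]
  have h5 : HasDerivAt (fun t : ℝ => ((s : ℂ) * ((P t : ℂ) * iD η t)).im) (hd s η η1 t) t :=
    Complex.imCLM.hasFDerivAt.comp_hasDerivAt t h2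
  refine h5.congr_of_eventuallyEq (Eventually.of_forall fun t => ?_)
  unfold iD
  simp
  ring

lemma B_eq (s : ℝ) (η η1 : ℝ → ℝ) (t : ℝ) :
    Bf s (iD η) (iD η1) t = (hd s η η1 t : ℂ) * I + Br s (iD η) (iD η1) t := by
  rw [Bf_eq, af_eq]

lemma B_re (s : ℝ) (η η1 : ℝ → ℝ) (t : ℝ) :
    (Bf s (iD η) (iD η1) t).re = (Br s (iD η) (iD η1) t).re := by
  rw [B_eq]
  simp

/-- what is used of the transported density -/
structure BB (s μ M b : ℝ) (η η1 : ℝ → ℝ) : Prop where
  cont : Continuous (Bf s (iD η) (iD η1))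
  le : ∀ t, ‖Bf s (iD η) (iD η1) t‖ ≤ M
  supp : ∀ t, b < |t| → Bf s (iD η) (iD η1) t = 0
  re : NUOC.O 3 μ fun t => (Bf s (iD η) (iD η1) t).re
  hc : Continuous (hd s η η1)
  hle : ∀ t, |hd s η η1 t| ≤ M
  hsupp : ∀ t, b < |t| → hd s η η1 t = 0
  rc : Continuous (Br s (iD η) (iD η1))
  rle : ∀ t, ‖Br s (iD η) (iD η1) t‖ ≤ μ
  rsupp : ∀ t, b < |t| → Br s (iD η) (iD η1) t = 0

/-- **the transported density** -/
theorem exists_BB : ∃ C : ℝ, 1 ≤ C ∧ ∀ {s ε M b : ℝ} {e η η1 : ℝ → ℝ}, 0 ≤ s → ε ≤ 1 / 20 →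
    Cur s ε M b e η → (∀ t, HasDerivAt η (η1 t) t) → BB s (C * (M * ε)) (C * M) b η η1 := by
  obtain ⟨C1, h1, H1⟩ := Br_OC 3
  obtain ⟨C2, h2, H2⟩ := af_OC 3
  refine ⟨1 + C1 + C2, by linarith, fun {s ε M b e η η1} hs hε hc hη => ?_⟩
  have o0 := hc.oc.lower
  have o1 := hc.oc1 hη
  have hse : ∀ t, e t ≤ 1 / 20 := fun t => (hc.le t).trans hε
  have i0 : ∀ t, HasDerivAt (iD η) (iD η1 t) t := fun t => (hη t).ofReal_comp.mul_const I
  have b1 := H1 hs i0 o0 o1 hse
  have b2 := H2 hs o0 o1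
  have hM := hc.M0 hs
  have hε0 := hc.ε0
  have m1 : ∀ t, C1 * (s * P t * e t ^ 2) ≤ C1 * (M * ε) := fun t => by
    have q1 := hc.mass t
    have q2 := hc.le t
    have q3 := hc.nonneg t
    calc C1 * (s * P t * e t ^ 2) = C1 * ((s * P t * e t) * e t) := by ring
      _ ≤ C1 * (M * ε) := by gcongr
  have m2 : ∀ t, C2 * (s * P t * e t) ≤ C2 * M := fun t => by
    have q1 := hc.mass t
    gcongr
  have z1 : ∀ t, b < |t| → C1 * (s * P t * e t ^ 2) = 0 := fun t ht => by
    rw [hc.supp t ht]; ring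
  have z2 : ∀ t, b < |t| → C2 * (s * P t * e t) = 0 := fun t ht => by
    rw [hc.supp t ht]; ring
  have hMε : M * ε ≤ M := by nlinarith
  have rle : ∀ t, ‖Br s (iD η) (iD η1) t‖ ≤ C1 * (M * ε) := fun t => (b1.le t).trans (m1 t)
  have ale : ∀ t, ‖af s (iD η) (iD η1) t‖ ≤ C2 * M := fun t => (b2.le t).trans (m2 t)
  have rz : ∀ t, b < |t| → Br s (iD η) (iD η1) t = 0 := fun t ht => by
    have := b1.le t
    rw [z1 t ht] at this
    exact norm_le_zero_iff.1 this
  have az : ∀ t, b < |t| → af s (iD η) (iD η1) t = 0 := fun t ht => by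
    have := b2.le t
    rw [z2 t ht] at this
    exact norm_le_zero_iff.1 this
  have eB : Bf s (iD η) (iD η1) = fun t => af s (iD η) (iD η1) t + Br s (iD η) (iD η1) t := by
    funext t
    exact Bf_eq _ _ _ _
  have hMε0 : 0 ≤ M * ε := mul_nonneg hM hε0
  have t1 : C1 * (M * ε) ≤ (1 + C1 + C2) * (M * ε) :=
    mul_le_mul_of_nonneg_right (by linarith) hMε0
  have t2 : C2 * M ≤ (1 + C1 + C2) * M := mul_le_mul_of_nonneg_right (by linarith) hM
  have t3 : C2 * M + C1 * (M * ε) ≤ (1 + C1 + C2) * M := by nlinarith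
  refine ⟨?_, fun t => ?_, fun t ht => ?_, ?_, ?_, fun t => ?_, fun t ht => ?_, b1.cont,
    fun t => (rle t).trans t1, rz⟩
  · rw [eB]
    exact b2.cont.add b1.cont
  · rw [Bf_eq]
    exact (norm_add_le _ _).trans ((add_le_add (ale t) (rle t)).trans t3)
  · rw [Bf_eq, rz t ht, az t ht, add_zero]
  · refine (b1.re (a := (1 + C1 + C2) * (M * ε)) fun t => (m1 t).trans t1).congr fun t => ?_
    exact (B_re s η η1 t).symm
  · exact Complex.continuous_im.comp b2.cont
  · exact (Complex.abs_im_le_norm _).trans ((ale t).trans t2)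
  · unfold hd
    rw [az t ht]
    simp

/-! ### transport of the density by a diffeomorphism -/

/-- a diffeomorphism `id + ξ` of the line, the identity off `|t| ≤ b` -/
structure Xi (lam b : ℝ) (ξ ξ1 : ℝ → ℝ) : Prop where
  o : NUOC.O 4 lam ξ
  d : ∀ t, HasDerivAt ξ (ξ1 t) t
  lam1 : lam ≤ 1 / 2
  b0 : 0 ≤ b
  zero : ∀ t, b < |t| → ξ t = 0

namespace Xi

variable {lam : ℝ} {ξ ξ1 : ℝ → ℝ}

lemma lam0 (h : Xi lam b ξ ξ1) : 0 ≤ lam := h.o.nonneg

lemma o1 (h : Xi lam b ξ ξ1) : NUOC.O 3 lam ξ1 := by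
  obtain ⟨-, f', h1, h2⟩ := h.o
  obtain rfl : f' = ξ1 := funext fun x => (h1 x).unique (h.d x)
  exact h2

lemma der (h : Xi lam b ξ ξ1) (t : ℝ) : HasDerivAt (fun t => t + ξ t) (1 + ξ1 t) t :=
  (hasDerivAt_id t).add (h.d t)

lemma pos (h : Xi lam b ξ ξ1) (t : ℝ) : 0 < 1 + ξ1 t := by
  have h1 := h.o1.le t
  have h2 := neg_abs_le (ξ1 t)
  linarith [h.lam1]

lemma mono (h : Xi lam b ξ ξ1) : StrictMono fun t => t + ξ t :=
  strictMono_of_deriv_pos fun t => by rw [(h.der t).deriv]; exact h.pos t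

lemma cont (h : Xi lam b ξ ξ1) : Continuous fun t => t + ξ t :=
  continuous_iff_continuousAt.2 fun t => (h.der t).continuousAt

lemma surj (h : Xi lam b ξ ξ1) : Function.Surjective fun t => t + ξ t := by
  refine h.cont.surjective ?_ ?_
  · refine tendsto_atTop_mono (f := fun t => t - lam) (fun t => ?_)
      (tendsto_atTop_add_const_right _ _ tendsto_id)
    have := (abs_le.1 (h.o.le t)).1
    linarith
  · have h1 : ∀ t, t + ξ t ≤ t + lam := fun t => by
      have := (abs_le.1 (h.o.le t)).2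
      linarith
    exact tendsto_atBot_mono h1 (tendsto_atBot_add_const_right _ _ tendsto_id)

/-- points outside stay outside -/
lemma out (h : Xi lam b ξ ξ1) {t : ℝ} (ht : b < |t|) : b < |t + ξ t| := by
  rw [h.zero t ht, add_zero]
  exact ht

/-- points inside stay inside -/
lemma maps (h : Xi lam b ξ ξ1) {t : ℝ} (ht : |t| ≤ b) : |t + ξ t| ≤ b := by
  have key : ∀ u : ℝ, b ≤ |u| → |ξ u| = 0 := by
    intro u hu
    rcases hu.lt_or_eq with h1 | h1
    · rw [h.zero u h1, abs_zero]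
    · -- limit from outside
      have hc : Continuous fun x => |ξ x| := h.o.cont.abs
      rcases le_total 0 u with h2 | h2
      · have h3 : Tendsto (fun n : ℕ => |ξ (u + 1 / ((n : ℝ) + 1))|) atTop (𝓝 (|ξ u|)) := by
          have h4 : Tendsto (fun n : ℕ => u + 1 / ((n : ℝ) + 1)) atTop (𝓝 (u + 0)) :=
            tendsto_const_nhds.add tendsto_one_div_add_atTop_nhds_zero_nat
          rw [add_zero] at h4
          exact (hc.tendsto u).comp h4
        have h5 : ∀ n : ℕ, |ξ (u + 1 / ((n : ℝ) + 1))| = 0 := fun n => by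
          have hn : 0 < 1 / ((n : ℝ) + 1) := by positivity
          rw [h.zero, abs_zero]
          rw [abs_of_nonneg (by linarith)]
          rw [abs_of_nonneg h2] at h1
          linarith
        simp only [h5] at h3
        exact (tendsto_nhds_unique h3 tendsto_const_nhds)
      · have h3 : Tendsto (fun n : ℕ => |ξ (u - 1 / ((n : ℝ) + 1))|) atTop (𝓝 (|ξ u|)) := by
          have h4 : Tendsto (fun n : ℕ => u - 1 / ((n : ℝ) + 1)) atTop (𝓝 (u - 0)) :=
            tendsto_const_nhds.sub tendsto_one_div_add_atTop_nhds_zero_nat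
          rw [sub_zero] at h4
          exact (hc.tendsto u).comp h4
        have h5 : ∀ n : ℕ, |ξ (u - 1 / ((n : ℝ) + 1))| = 0 := fun n => by
          have hn : 0 < 1 / ((n : ℝ) + 1) := by positivity
          rw [h.zero, abs_zero]
          rw [abs_of_nonpos (by linarith)]
          rw [abs_of_nonpos h2] at h1
          linarith
        simp only [h5] at h3
        exact (tendsto_nhds_unique h3 tendsto_const_nhds)
  have hb := h.b0
  have k1 : ξ b = 0 := by
    have := key b (by rw [abs_of_nonneg hb])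
    exact abs_eq_zero.1 this
  have k2 : ξ (-b) = 0 := by
    have := key (-b) (by rw [abs_neg, abs_of_nonneg hb])
    exact abs_eq_zero.1 this
  rw [abs_le] at ht ⊢
  constructor
  · have := h.mono.monotone ht.1
    simp only [k2] at this
    linarith
  · have := h.mono.monotone ht.2
    simp only [k1] at this
    linarith

/-- change of variables -/
lemma subst (h : Xi lam b ξ ξ1) (g : ℝ → ℂ) :
    ∫ y, g y = ∫ y, g (y + ξ y) * ((1 + ξ1 y : ℝ) : ℂ) := by
  have h1 := integral_image_eq_integral_abs_deriv_smul (s := univ) (f := fun t => t + ξ t)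
    (f' := fun t => 1 + ξ1 t) MeasurableSet.univ (fun x _ => (h.der x).hasDerivWithinAt)
    (h.mono.injective.injOn) g
  rw [image_univ, h.surj.range_eq, Measure.restrict_univ] at h1
  rw [h1]
  refine integral_congr_ae (Eventually.of_forall fun y => ?_)
  simp only
  rw [abs_of_pos (h.pos y), Complex.real_smul]
  ring

end Xi

end

end NUAct
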