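import Pool.Agent.NUAct.Cont

/-!
# The field equations on a deformed contour

`Us = - log w` (same species), `Ux = - log g` (cross).  For `z` on the path:
`∫ P(ζ') Us(ζ(t) - ζ') dζ' = vs (ζ t)`, `∫ P(ζ') Ux(z - ζ') dζ' = vx z`.
-/

set_option autoImplicit false

open MeasureTheory Set Filter Topology Complex

namespace NUAct

open NUMF

noncomputable section

/-- same species -/
def Us (z : ℂ) : ℂ := Ly (3 * l) z - Ly (2 * l) z - 2 * Complex.log (Complex.sinh z)

/-- cross species -/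
def Ux (z : ℂ) : ℂ := 2 * Ly l z - Ly 0 z - Real.log 2

lemma Uc_eq (z : ℂ) : Uc z = Us z + Ux z := by
  unfold Uc Us Ux
  ring

/-- field of the own species -/
def vs (z : ℂ) : ℂ := Real.log 2 - Ly (3 * l) z

/-- field of the other species -/
def vx (z : ℂ) : ℂ := Ly 0 z - Real.log 2

lemma vc_eq (z : ℂ) : vc z = vs z + vx z := by
  unfold vc vs vx
  ring

lemma Ly_neg (y : ℝ) (z : ℂ) : Ly y (-z) = Ly y z := by
  unfold Ly
  rw [show -z + y * I = -(z - y * I) by ring, show -z - y * I = -(z + y * I) by ring,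
    Complex.cosh_neg, Complex.cosh_neg]
  ring

lemma Ux_neg (z : ℂ) : Ux (-z) = Ux z := by
  unfold Ux
  rw [Ly_neg, Ly_neg]

lemma diff_Ly {y : ℝ} {z : ℂ} (h : |z.im| + |y| < Real.pi / 2) : DifferentiableAt ℂ (Ly y) z :=
  (hasDerivAt_Ly h).differentiableAt

lemma diff_Us {z : ℂ} (h0 : 0 < z.re) (h : |z.im| < l) : DifferentiableAt ℂ Us z := by
  have hl := l_pos
  have h8 := l8
  refine ((diff_Ly (a3 h)).sub (diff_Ly (a2 h))).sub (DifferentiableAt.const_mul ?_ _)
  exact ((Complex.hasDerivAt_sinh z).clog (sinh_slit h0 (by linarith))).differentiableAt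

lemma diff_Ux {z : ℂ} (h : |z.im| < l) : DifferentiableAt ℂ Ux z :=
  (((diff_Ly (a1 h)).const_mul 2).sub (diff_Ly (a0 h))).sub (differentiableAt_const _)

lemma diff_vs {z : ℂ} (h : |z.im| < l) : DifferentiableAt ℂ vs z :=
  (differentiableAt_const _).sub (diff_Ly (a3 h))

lemma diff_vx {z : ℂ} (h : |z.im| < l) : DifferentiableAt ℂ vx z :=
  (diff_Ly (a0 h)).sub (differentiableAt_const _)

lemma b3 : |3 * l| < Real.pi / 2 := by
  have hl := l_pos
  have h8 := l8
  rw [abs_of_pos (by linarith : 0 < 3 * l)]; linarith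

lemma b2 : |2 * l| < Real.pi / 2 := by
  have hl := l_pos
  have h8 := l8
  rw [abs_of_pos (by linarith : 0 < 2 * l)]; linarith

lemma b1 : |l| < Real.pi / 2 := by
  have hl := l_pos
  have h8 := l8
  rw [abs_of_pos hl]; linarith

lemma b0 : |(0:ℝ)| < Real.pi / 2 := by
  have hl := l_pos
  have h8 := l8
  rw [abs_zero]; linarith

lemma Us_ofReal {t : ℝ} (ht : 0 < t) : Us t = ((-Real.log (w t) : ℝ) : ℂ) := by
  have hs : 0 < Real.sinh t := Real.sinh_pos_iff.2 ht
  unfold Us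
  rw [Ly_ofReal b3, Ly_ofReal b2, log_w ht.ne', show 3 * l + l = 4 * l by ring,
    show 3 * l - l = 2 * l by ring, h4_eq ht, ← Complex.ofReal_sinh, ← Complex.ofReal_log hs.le]
  push_cast
  ring

lemma Ux_ofReal (t : ℝ) : Ux t = ((-Real.log (g t) : ℝ) : ℂ) := by
  unfold Ux
  rw [Ly_ofReal b1, Ly_ofReal b0, log_g, zero_add, zero_sub, h_neg_right]
  push_cast
  ring

lemma vs_ofReal (t : ℝ) : vs t = ((-Real.log ((Real.cosh (2 * t) - r) / 2) : ℝ) : ℂ) := by
  unfold vs
  rw [Ly_ofReal b3, h3, Real.log_div (cm_r t).ne' two_ne_zero]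
  push_cast
  ring

lemma vx_ofReal (t : ℝ) : vx t = ((-Real.log (2 / (Real.cosh (2 * t) + 1)) : ℝ) : ℂ) := by
  have a1 : 0 < Real.cosh (2 * t) + 1 := by
    have := Real.cosh_pos (2 * t)
    linarith
  unfold vx
  rw [Ly_ofReal b0, h0, Real.log_div two_ne_zero a1.ne']
  push_cast
  ring

/-! ### growth -/

lemma Ly_gr {b y : ℝ} (hb : b + |y| < Real.pi / 2) (hb0 : 0 ≤ b) :
    ∃ K : ℝ, 0 ≤ K ∧ ∀ w : ℂ, |w.im| ≤ b → ‖Ly y w‖ ≤ K * (1 + |w.re|) := by
  obtain ⟨K, hK0, hK⟩ := Ly_bound hb hb0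
  refine ⟨K + 2, by positivity, fun w hw => (hK w hw).trans ?_⟩
  have := abs_nonneg w.re
  nlinarith

lemma Ux_gr : ∃ K : ℝ, 0 ≤ K ∧ ∀ w : ℂ, |w.im| ≤ l / 2 → ‖Ux w‖ ≤ K * (1 + |w.re|) := by
  have hl := l_pos
  have h8 := l8
  obtain ⟨K1, h10, h1⟩ := Ly_gr (b := l / 2) (y := l)
    (by rw [abs_of_pos (by linarith)]; linarith) (by linarith)
  obtain ⟨K0, h00, h0⟩ := Ly_gr (b := l / 2) (y := 0)
    (by rw [abs_zero]; linarith) (by linarith)
  have l2 : 0 < Real.log 2 := Real.log_pos (by norm_num)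
  refine ⟨2 * K1 + K0 + Real.log 2, by positivity, fun w hw => ?_⟩
  have n1 := norm_sub_le (2 * Ly l w - Ly 0 w) (Real.log 2 : ℂ)
  have n2 := norm_sub_le (2 * Ly l w) (Ly 0 w)
  rw [norm_mul, Complex.norm_ofNat] at n2
  rw [Complex.norm_real, Real.norm_eq_abs, abs_of_pos l2] at n1
  have := h1 w hw
  have := h0 w hw
  have h5 := abs_nonneg w.re
  unfold Ux
  nlinarith [mul_nonneg l2.le h5]

lemma vs_gr : ∃ K : ℝ, 0 ≤ K ∧ ∀ w : ℂ, |w.im| ≤ l / 2 → ‖vs w‖ ≤ K * (1 + |w.re|) := by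
  have hl := l_pos
  have h8 := l8
  obtain ⟨K1, h10, h1⟩ := Ly_gr (b := l / 2) (y := 3 * l)
    (by rw [abs_of_pos (by linarith)]; linarith) (by linarith)
  have l2 : 0 < Real.log 2 := Real.log_pos (by norm_num)
  refine ⟨K1 + Real.log 2, by positivity, fun w hw => ?_⟩
  have n1 := norm_sub_le (Real.log 2 : ℂ) (Ly (3 * l) w)
  rw [Complex.norm_real, Real.norm_eq_abs, abs_of_pos l2] at n1
  have := h1 w hw
  have h5 := abs_nonneg w.re
  unfold vs
  nlinarith [mul_nonneg l2.le h5]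

lemma vx_gr : ∃ K : ℝ, 0 ≤ K ∧ ∀ w : ℂ, |w.im| ≤ l / 2 → ‖vx w‖ ≤ K * (1 + |w.re|) := by
  have hl := l_pos
  have h8 := l8
  obtain ⟨K1, h10, h1⟩ := Ly_gr (b := l / 2) (y := 0)
    (by rw [abs_zero]; linarith) (by linarith)
  have l2 : 0 < Real.log 2 := Real.log_pos (by norm_num)
  refine ⟨K1 + Real.log 2, by positivity, fun w hw => ?_⟩
  have n1 := norm_sub_le (Ly 0 w) (Real.log 2 : ℂ)
  rw [Complex.norm_real, Real.norm_eq_abs, abs_of_pos l2] at n1
  have := h1 w hw
  have h5 := abs_nonneg w.re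
  unfold vx
  nlinarith [mul_nonneg l2.le h5]

lemma Us_kern : ∃ K : ℝ, Kern (l / 2) K Us := by
  have hl := l_pos
  obtain ⟨K1, h10, h1⟩ := Uc_bound
  obtain ⟨K2, h20, h2⟩ := Ux_gr
  refine ⟨K1 + K2, ⟨fun z h0 h => diff_Us h0 (by linarith), fun z h0 h => ?_, by positivity⟩⟩
  have e : Us z = Uc z - Ux z := by rw [Uc_eq]; ring
  rw [e]
  refine (norm_sub_le _ _).trans ?_
  have a1 := h1 z h0 h
  have a2 := h2 z h
  rw [abs_of_pos h0] at a2
  unfold gr
  have := abs_nonneg (Real.log z.re)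
  nlinarith

/-! ### the field equations on the real line, in convolution form -/

lemma w_neg (t : ℝ) : w (-t) = w t := by
  unfold w
  rw [Real.sinh_neg, mul_neg, Real.cosh_neg]
  ring

lemma g_neg (t : ℝ) : g (-t) = g t := by
  unfold g
  rw [mul_neg, Real.cosh_neg, Real.cosh_neg]

/-- `-log w` as a complex function on the line -/
def ks (u : ℝ) : ℂ := ((-Real.log (w u) : ℝ) : ℂ)

/-- `-log g` as a complex function on the line -/
def kx (u : ℝ) : ℂ := ((-Real.log (g u) : ℝ) : ℂ)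

lemma ks_abs {u : ℝ} (hu : u ≠ 0) : ks u = Us (|u| : ℝ) := by
  rw [Us_ofReal (abs_pos.2 hu)]
  unfold ks
  rcases abs_choice u with h | h
  · rw [h]
  · rw [h, w_neg]

lemma ks_meas : AEStronglyMeasurable ks := by
  have : Measurable ks := by
    unfold ks w
    fun_prop
  exact this.aestronglyMeasurable

lemma kx_cont : Continuous kx := by
  unfold kx
  refine Complex.continuous_ofReal.comp (Continuous.neg ?_)
  refine Continuous.log ?_ fun u => (g_pos u).ne'
  unfold g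
  refine Continuous.div (by fun_prop) (by fun_prop) fun u => ?_
  have := cp_r u
  positivity

lemma real_s (x : ℝ) : ∫ u : ℝ, (P (x - u) : ℂ) * ks u = vs x := by
  have h1 := (conv_w x).2
  have h2 : ∫ u : ℝ, P (x - u) * Real.log (w u) = ∫ s, P s * Real.log (w (x - s)) := by
    have := integral_sub_left_eq_self (fun s => P s * Real.log (w (x - s))) volume x
    rw [← this]
    refine integral_congr_ae (Eventually.of_forall fun u => ?_)
    simp only
    rw [show x - (x - u) = u by ring]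
  have e : (fun u : ℝ => (P (x - u) : ℂ) * ks u) = fun u => ((-(P (x - u) * Real.log (w u)) : ℝ) : ℂ) := by
    funext u
    unfold ks
    push_cast
    ring
  rw [e, integral_complex_ofReal, integral_neg, h2, h1, vs_ofReal]

lemma real_x (x : ℝ) : ∫ u : ℝ, (P (x - u) : ℂ) * kx u = vx x := by
  have h1 := (conv_g x).2
  have h2 : ∫ u : ℝ, P (x - u) * Real.log (g u) = ∫ s, P s * Real.log (g (x - s)) := by
    have := integral_sub_left_eq_self (fun s => P s * Real.log (g (x - s))) volume x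
    rw [← this]
    refine integral_congr_ae (Eventually.of_forall fun u => ?_)
    simp only
    rw [show x - (x - u) = u by ring]
  have e : (fun u : ℝ => (P (x - u) : ℂ) * kx u) = fun u => ((-(P (x - u) * Real.log (g u)) : ℝ) : ℂ) := by
    funext u
    unfold kx
    push_cast
    ring
  rw [e, integral_complex_ofReal, integral_neg, h2, h1, vx_ofReal]

lemma ks_bd : ∃ K : ℝ, ∀ u : ℝ, u ≠ 0 → ‖ks u‖ ≤ K * gr |u| := by
  obtain ⟨K, hK⟩ := Us_kern
  refine ⟨K, fun u hu => ?_⟩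
  rw [ks_abs hu]
  have hl := l_pos
  have := hK.bd (|u| : ℝ) (by simpa using hu) (by simp; linarith)
  simpa using this

lemma kx_bd : ∃ K : ℝ, ∀ u : ℝ, u ≠ 0 → ‖kx u‖ ≤ K * gr |u| := by
  obtain ⟨K, hK0, hK⟩ := Ux_gr
  refine ⟨K, fun u hu => ?_⟩
  have hl := l_pos
  have h1 := hK (u : ℂ) (by simp; linarith)
  rw [Ux_ofReal] at h1
  simp only [Complex.ofReal_re] at h1
  refine h1.trans (mul_le_mul_of_nonneg_left ?_ hK0)
  unfold gr
  have := abs_nonneg (Real.log |u|)
  linarith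

lemma horiz_s {z : ℂ} (hz : |z.im| < l) : ∫ u : ℝ, Pc (z - u) * ks u = vs z := by
  obtain ⟨K, hK⟩ := ks_bd
  exact cont_of_real ks_meas hK (fun w hw => diff_vs hw) real_s hz

lemma horiz_x {z : ℂ} (hz : |z.im| < l) : ∫ u : ℝ, Pc (z - u) * kx u = vx z := by
  obtain ⟨K, hK⟩ := kx_bd
  exact cont_of_real kx_cont.aestronglyMeasurable hK (fun w hw => diff_vx hw) real_x hz

/-! ### on a path -/

variable {b c B : ℝ} {ζ ζ' : ℝ → ℂ}

lemma Pc_dec {b : ℝ} (hb0 : 0 ≤ b) (hb : b < l) : ∃ C : ℝ, 0 ≤ C ∧ Dec b C (8 / 3) Pc := by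
  obtain ⟨C, hC0, hC⟩ := Pc_deriv_exp hb0 hb 0
  exact ⟨C, hC0, fun z hz => Pc_diff (lt_of_le_of_lt hz hb), fun z hz => by simpa using hC z hz⟩

/-- **the field equation, same species** -/
theorem fe_s (hb : b ≤ l / 4) (P' : Path b c B ζ ζ') (t : ℝ) :
    Integrable (fun t' => Up Us ζ t t' * (Pc (ζ t') * ζ' t')) ∧
      ∫ t', Up Us ζ t t' * (Pc (ζ t') * ζ' t') = vs (ζ t) := by
  have hl := l_pos
  have hb0 := P'.b0
  obtain ⟨K, hK⟩ := Us_kern
  obtain ⟨C, hC0, hC1, hC⟩ := Pc_dec (b := 3 * b) (by linarith) (by linarith)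
  have hK' : Kern (2 * b) K Us := ⟨fun z h0 h => hK.diff z h0 (by linarith),
    fun z h0 h => hK.bd z h0 (by linarith), hK.K0⟩
  obtain ⟨i1, i2, i3, e⟩ := sing_shift (κ := 8 / 3) (by norm_num) hC0 hC1 hC hK' P' t
  have hcomm : (fun t' => Up Us ζ t t' * (Pc (ζ t') * ζ' t')) =
      fun t' => Pc (ζ t') * ζ' t' * Up Us ζ t t' := by
    funext t'
    ring
  rw [hcomm]
  refine ⟨i1, ?_⟩
  rw [e]
  have hz : |(ζ t).im| < l := lt_of_le_of_lt (P'.im_le t) (by linarith)
  rw [← horiz_s hz]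
  -- split the line
  obtain ⟨K2, hK2⟩ := ks_bd
  have hi := J_int ks_meas hK2 hz
  rw [← intervalIntegral.integral_Iic_add_Ioi hi.integrableOn hi.integrableOn (b := 0)]
  have e1 : ∫ u in Iic (0:ℝ), Pc (ζ t - u) * ks u = ∫ u in Ioi (0:ℝ), Pc (ζ t + u) * Us u := by
    have h1 := integral_comp_neg_Ioi (0:ℝ) (fun u : ℝ => Pc (ζ t - u) * ks u)
    rw [neg_zero] at h1
    rw [← h1]
    refine setIntegral_congr_fun measurableSet_Ioi fun u hu => ?_
    have hu' : (0:ℝ) < u := hu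
    have h2 : ks (-u) = Us u := by
      rw [ks_abs (neg_ne_zero.2 hu'.ne'), abs_neg, abs_of_pos hu']
    rw [h2, Complex.ofReal_neg, sub_neg_eq_add]
  have e2 : ∫ u in Ioi (0:ℝ), Pc (ζ t - u) * ks u = ∫ u in Ioi (0:ℝ), Pc (ζ t - u) * Us u := by
    refine setIntegral_congr_fun measurableSet_Ioi fun u hu => ?_
    have hu' : (0:ℝ) < u := hu
    have h2 : ks u = Us u := by
      rw [ks_abs hu'.ne', abs_of_pos hu']
    rw [h2]
  rw [e1, e2]

/-- **the field equation, other species** -/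
theorem fe_x (hb : b ≤ l / 4) (P' : Path b c B ζ ζ') {z : ℂ} (hz : |z.im| ≤ b) :
    Integrable (fun t' => Ux (z - ζ t') * (Pc (ζ t') * ζ' t')) ∧
      ∫ t', Ux (z - ζ t') * (Pc (ζ t') * ζ' t') = vx z := by
  have hl := l_pos
  have hb0 := P'.b0
  obtain ⟨K, hK0, hK⟩ := Ux_gr
  obtain ⟨C, hC0, hC1, hC⟩ := Pc_dec (b := b) hb0 (by linarith)
  -- the integrand as a function of the second point
  have D : Dec b (C * (K * (2 + |z.re|))) (5 / 3) (fun w' => Pc w' * Ux (z - w')) := by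
    refine ⟨fun w' hw => ?_, fun w' hw => ?_⟩
    · refine (hC1 w' hw).mul ?_
      have h1 : |(z - w').im| < l := by
        rw [Complex.sub_im]
        exact lt_of_le_of_lt ((abs_sub _ _).trans (by linarith : _ ≤ 2 * b)) (by linarith)
      exact (diff_Ux h1).comp w' ((differentiableAt_const _).sub differentiableAt_id)
    · rw [norm_mul]
      have h1 : |(z - w').im| ≤ l / 2 := by
        rw [Complex.sub_im]
        exact (abs_sub _ _).trans (by linarith)
      have h2 := hK _ h1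
      have h3 : |(z - w').re| ≤ |z.re| + |w'.re| := by
        rw [Complex.sub_re]
        exact abs_sub _ _
      have h4 : 1 + |(z - w').re| ≤ (2 + |z.re|) * Real.exp |w'.re| := by
        have h5 := Real.add_one_le_exp |w'.re|
        have h6 := abs_nonneg z.re
        have h7 := abs_nonneg w'.re
        nlinarith
      have h8 : Real.exp (-(5 / 3) * |w'.re|) = Real.exp (-(8 / 3) * |w'.re|) * Real.exp |w'.re| := by
        rw [← Real.exp_add]; congr 1; ring
      calc ‖Pc w'‖ * ‖Ux (z - w')‖ ≤ (C * Real.exp (-(8 / 3) * |w'.re|)) *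
            (K * ((2 + |z.re|) * Real.exp |w'.re|)) :=
            mul_le_mul (hC w' hw) (h2.trans (mul_le_mul_of_nonneg_left h4 hK0)) (norm_nonneg _)
              (by positivity)
        _ = _ := by rw [h8]; ring
  obtain ⟨i1, i2, e⟩ := path_shift (by norm_num) D P'
  have hcomm : (fun t' => Ux (z - ζ t') * (Pc (ζ t') * ζ' t')) =
      fun t' => Pc (ζ t') * Ux (z - ζ t') * ζ' t' := by
    funext t'
    ring
  rw [hcomm]
  refine ⟨i1, ?_⟩
  rw [e]
  -- the horizontal path through `z`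
  have Q : Path b 1 (1 + b) (fun t : ℝ => (t : ℂ) + z.im * I) (fun _ => 1) :=
    { der := fun t => (Complex.ofRealCLM.hasDerivAt (x := t)).add_const _
      cont := continuous_const
      im_le := fun t => by simpa using hz
      dle := fun t => by rw [norm_one]; linarith
      c_pos := one_pos
      c_le := le_rfl
      mono := fun s t _ => by simp
      near := fun t => by
        rw [add_sub_cancel_left, norm_mul, Complex.norm_I, mul_one, Complex.norm_real,
          Real.norm_eq_abs]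
        linarith }
  obtain ⟨_, _, e'⟩ := path_shift (by norm_num) D Q
  have hz' : |z.im| < l := lt_of_le_of_lt hz (by linarith)
  rw [← e', ← horiz_x hz']
  have h1 := integral_sub_left_eq_self (fun u : ℝ => Pc (z - u) * kx u) volume z.re
  rw [← h1]
  refine integral_congr_ae (Eventually.of_forall fun u => ?_)
  simp only
  have h2 : z - ((z.re - u : ℝ) : ℂ) = (u : ℂ) + z.im * I := by
    apply Complex.ext <;> simp
  have h3 : z - ((u : ℂ) + z.im * I) = ((z.re - u : ℝ) : ℂ) := by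
    apply Complex.ext <;> simp
  rw [h2, h3, mul_one]
  unfold kx
  rw [Ux_ofReal]

end

end NUAct
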