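import Pool.Agent.NUAct.U

/-!
# Bounds for the complex pair potential and its derivative
-/

set_option autoImplicit false

open MeasureTheory Set Filter Topology Complex

namespace NUAct

open NUMF

noncomputable section

lemma logcosh_bound {b : ℝ} (hb : b < Real.pi / 2) (hb0 : 0 ≤ b) :
    ∃ K : ℝ, 0 ≤ K ∧ ∀ w : ℂ, |w.im| ≤ b → ‖Complex.log (Complex.cosh w)‖ ≤ K + |w.re| := by
  refine ⟨2 * |Real.log (Real.cos b)| + 2 * Real.pi + 2, by have := Real.pi_pos; positivity,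
    fun w hw => ?_⟩
  have h1 := F_bound hb hw
  have h2 : Complex.log (Complex.cosh w) = (F w - Real.log 2) / 2 := by
    unfold F
    ring
  have l2 : 0 < Real.log 2 := Real.log_pos (by norm_num)
  have l2' : Real.log 2 ≤ 1 := by
    have := Real.log_two_lt_d9
    linarith
  have h3 : ‖F w - Real.log 2‖ ≤ ‖F w‖ + Real.log 2 := by
    refine (norm_sub_le _ _).trans ?_
    rw [Complex.norm_real, Real.norm_eq_abs, abs_of_pos l2]
  rw [h2, norm_div, Complex.norm_ofNat]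
  have := Real.pi_pos
  have := abs_nonneg (Real.log (Real.cos b))
  have := abs_nonneg w.re
  linarith

lemma norm_sinh_ge {z : ℂ} (h0 : 0 < z.re) {b : ℝ} (hb : b < Real.pi / 2) (hz : |z.im| ≤ b) :
    z.re * Real.cos b ≤ ‖Complex.sinh z‖ := by
  have e := Complex.abs_re_le_norm (Complex.sinh z)
  have hb0 : 0 ≤ b := (abs_nonneg _).trans hz
  have hcb : 0 < Real.cos b := Real.cos_pos_of_mem_Ioo ⟨by linarith, hb⟩
  have hc : Real.cos b ≤ Real.cos z.im := by
    rw [← Real.cos_abs z.im]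
    exact Real.cos_le_cos_of_nonneg_of_le_pi (abs_nonneg _) (by linarith [Real.pi_pos]) hz
  have hs : z.re ≤ Real.sinh z.re := Real.self_le_sinh_iff.2 h0.le
  rw [re_sinh, abs_of_pos (mul_pos (Real.sinh_pos_iff.2 h0) (by linarith))] at e
  exact (mul_le_mul hs hc hcb.le (h0.le.trans hs)).trans e

lemma norm_sinh_le' (z : ℂ) : ‖Complex.sinh z‖ ≤ Real.exp |z.re| := by
  rw [Complex.sinh, norm_div, Complex.norm_ofNat]
  have h1 : ‖Complex.exp z‖ ≤ Real.exp |z.re| := by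
    rw [Complex.norm_exp]; exact Real.exp_le_exp.2 (le_abs_self _)
  have h2 : ‖Complex.exp (-z)‖ ≤ Real.exp |z.re| := by
    rw [Complex.norm_exp, Complex.neg_re]; exact Real.exp_le_exp.2 (neg_le_abs _)
  have h3 := norm_sub_le (Complex.exp z) (Complex.exp (-z))
  linarith

lemma norm_cosh_le' (z : ℂ) : ‖Complex.cosh z‖ ≤ Real.exp |z.re| := by
  rw [Complex.cosh, norm_div, Complex.norm_ofNat]
  have h1 : ‖Complex.exp z‖ ≤ Real.exp |z.re| := by
    rw [Complex.norm_exp]; exact Real.exp_le_exp.2 (le_abs_self _)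
  have h2 : ‖Complex.exp (-z)‖ ≤ Real.exp |z.re| := by
    rw [Complex.norm_exp, Complex.neg_re]; exact Real.exp_le_exp.2 (neg_le_abs _)
  have h3 := norm_add_le (Complex.exp z) (Complex.exp (-z))
  linarith

lemma logsinh_bound {b : ℝ} (hb : b < Real.pi / 2) (hb0 : 0 ≤ b) :
    ∃ K : ℝ, 0 ≤ K ∧ ∀ w : ℂ, 0 < w.re → |w.im| ≤ b →
      ‖Complex.log (Complex.sinh w)‖ ≤ K + w.re + |Real.log w.re| := by
  have hcb : 0 < Real.cos b := Real.cos_pos_of_mem_Ioo ⟨by linarith, hb⟩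
  refine ⟨|Real.log (Real.cos b)| + Real.pi, by have := Real.pi_pos; positivity,
    fun w h0 hw => ?_⟩
  have h1 := norm_sinh_ge h0 hb hw
  have h2 := norm_sinh_le' w
  rw [abs_of_pos h0] at h2
  have hp : 0 < w.re * Real.cos b := by positivity
  have hp2 : 0 < ‖Complex.sinh w‖ := lt_of_lt_of_le hp h1
  have h3 : |Real.log ‖Complex.sinh w‖| ≤ w.re + |Real.log w.re| + |Real.log (Real.cos b)| := by
    have a1 := Real.log_le_log hp h1
    have a2 := Real.log_le_log hp2 h2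
    rw [Real.log_exp] at a2
    rw [Real.log_mul h0.ne' hcb.ne'] at a1
    rw [abs_le]
    have a3 := neg_abs_le (Real.log (Real.cos b))
    have a4 := abs_nonneg (Real.log (Real.cos b))
    have a5 := neg_abs_le (Real.log w.re)
    have a6 := abs_nonneg (Real.log w.re)
    constructor <;> linarith
  have e := Complex.norm_le_abs_re_add_abs_im (Complex.log (Complex.sinh w))
  rw [Complex.log_re, Complex.log_im] at e
  have := Complex.abs_arg_le_pi (Complex.sinh w)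
  linarith

lemma Ly_bound {b y : ℝ} (hb : b + |y| < Real.pi / 2) (hb0 : 0 ≤ b) :
    ∃ K : ℝ, 0 ≤ K ∧ ∀ w : ℂ, |w.im| ≤ b → ‖Ly y w‖ ≤ K + 2 * |w.re| := by
  obtain ⟨K, hK0, hK⟩ := logcosh_bound hb (by positivity)
  have l2 : 0 < Real.log 2 := Real.log_pos (by norm_num)
  refine ⟨2 * K + Real.log 2, by positivity, fun w hw => ?_⟩
  have h1 := hK (w + y * I) (by rw [im_add]; exact (abs_add_le _ _).trans (by linarith))
  have h2 := hK (w - y * I) (by rw [im_sub]; exact (abs_sub _ _).trans (by linarith))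
  have r1 : (w + y * I).re = w.re := by simp
  have r2 : (w - y * I).re = w.re := by simp
  rw [r1] at h1
  rw [r2] at h2
  unfold Ly
  refine (norm_add_le _ _).trans ?_
  rw [Complex.norm_real, Real.norm_eq_abs, abs_of_pos l2]
  have h3 := norm_add_le (Complex.log (Complex.cosh (w + y * I))) (Complex.log (Complex.cosh (w - y * I)))
  linarith

/-- **size of the pair potential** -/
theorem Uc_bound : ∃ K : ℝ, 0 < K ∧ ∀ z : ℂ, 0 < z.re → |z.im| ≤ l / 2 →
    ‖Uc z‖ ≤ K * (1 + z.re + |Real.log z.re|) := by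
  have hl := l_pos
  have h8 := l8
  obtain ⟨K3, h30, h3⟩ := Ly_bound (b := l / 2) (y := 3 * l)
    (by rw [abs_of_pos (by linarith)]; linarith) (by linarith)
  obtain ⟨K2, h20, h2⟩ := Ly_bound (b := l / 2) (y := 2 * l)
    (by rw [abs_of_pos (by linarith)]; linarith) (by linarith)
  obtain ⟨K1, h10, h1⟩ := Ly_bound (b := l / 2) (y := l)
    (by rw [abs_of_pos (by linarith)]; linarith) (by linarith)
  obtain ⟨K0, h00, h0⟩ := Ly_bound (b := l / 2) (y := 0)
    (by rw [abs_zero]; linarith) (by linarith)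
  obtain ⟨Ks, hs0, hs⟩ := logsinh_bound (b := l / 2) (by linarith) (by linarith)
  have l2 : 0 < Real.log 2 := Real.log_pos (by norm_num)
  refine ⟨K3 + K2 + 2 * K1 + K0 + 2 * Ks + Real.log 2 + 12, by positivity, fun z hz hz' => ?_⟩
  have b3 := h3 z hz'
  have b2 := h2 z hz'
  have b1 := h1 z hz'
  have b0 := h0 z hz'
  have bs := hs z hz hz'
  rw [abs_of_pos hz] at b3 b2 b1 b0
  have e : ‖Uc z‖ ≤ ‖Ly (3 * l) z‖ + ‖Ly (2 * l) z‖ + 2 * ‖Ly l z‖ + ‖Ly 0 z‖ +
      2 * ‖Complex.log (Complex.sinh z)‖ + Real.log 2 := by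
    unfold Uc
    have n1 := norm_sub_le (Ly (3 * l) z - Ly (2 * l) z + 2 * Ly l z - Ly 0 z -
      2 * Complex.log (Complex.sinh z)) (Real.log 2 : ℂ)
    have n2 := norm_sub_le (Ly (3 * l) z - Ly (2 * l) z + 2 * Ly l z - Ly 0 z)
      (2 * Complex.log (Complex.sinh z))
    have n3 := norm_sub_le (Ly (3 * l) z - Ly (2 * l) z + 2 * Ly l z) (Ly 0 z)
    have n4 := norm_add_le (Ly (3 * l) z - Ly (2 * l) z) (2 * Ly l z)
    have n5 := norm_sub_le (Ly (3 * l) z) (Ly (2 * l) z)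
    rw [Complex.norm_real, Real.norm_eq_abs, abs_of_pos l2] at n1
    rw [norm_mul, Complex.norm_ofNat] at n2 n4
    linarith
  have hL := abs_nonneg (Real.log z.re)
  nlinarith [mul_nonneg h30 hz.le, mul_nonneg h20 hz.le, mul_nonneg h10 hz.le, mul_nonneg h00 hz.le,
    mul_nonneg hs0 hz.le, mul_nonneg h30 hL, mul_nonneg h20 hL, mul_nonneg h10 hL, mul_nonneg h00 hL,
    mul_nonneg hs0 hL, mul_nonneg l2.le hz.le, mul_nonneg l2.le hL]

/-! ### the derivative -/

lemma norm_cosh_sq' (w : ℂ) : ‖Complex.cosh w‖ ^ 2 = Real.sinh w.re ^ 2 + Real.cos w.im ^ 2 := by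
  have h1 := two_norm_cosh_sq w
  rw [cosh_two, Real.cos_two_mul] at h1
  linarith

lemma norm_sinh_sq' (w : ℂ) : ‖Complex.sinh w‖ ^ 2 = Real.sinh w.re ^ 2 + Real.sin w.im ^ 2 := by
  have h1 : Complex.sinh w = ((Real.sinh w.re * Real.cos w.im : ℝ) : ℂ) +
      ((Real.cosh w.re * Real.sin w.im : ℝ) : ℂ) * I := by
    conv_lhs => rw [← Complex.re_add_im w]
    rw [Complex.sinh_add, Complex.cosh_mul_I, Complex.sinh_mul_I]
    push_cast
    ring
  rw [h1, ← Complex.normSq_eq_norm_sq, Complex.normSq_add_mul_I]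
  have e1 := Real.cosh_sq w.re
  have e2 := Real.sin_sq_add_cos_sq w.im
  linear_combination Real.sinh w.re ^ 2 * e2 + Real.sin w.im ^ 2 * e1

lemma tanh_bound {b : ℝ} (hb : b < Real.pi / 2) {w : ℂ} (hw : |w.im| ≤ b) :
    ‖Complex.sinh w / Complex.cosh w‖ ≤ 1 / Real.cos b := by
  have hb0 : 0 ≤ b := (abs_nonneg _).trans hw
  have hcb : 0 < Real.cos b := Real.cos_pos_of_mem_Ioo ⟨by linarith, hb⟩
  have hc : Real.cos b ≤ Real.cos w.im := by
    rw [← Real.cos_abs w.im]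
    exact Real.cos_le_cos_of_nonneg_of_le_pi (abs_nonneg _) (by linarith [Real.pi_pos]) hw
  have hn : 0 < ‖Complex.cosh w‖ := norm_pos_iff.2 (cosh_ne (lt_of_le_of_lt hw hb))
  rw [norm_div, div_le_div_iff₀ hn hcb, one_mul]
  refine le_of_sq_le_sq ?_ hn.le
  rw [mul_pow, norm_sinh_sq', norm_cosh_sq']
  have e2 := Real.sin_sq_add_cos_sq w.im
  have h1 : Real.cos b ^ 2 ≤ Real.cos w.im ^ 2 := pow_le_pow_left₀ hcb.le hc 2
  have h2 : Real.cos b ^ 2 ≤ 1 := Real.cos_sq_le_one b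
  have h3 := sq_nonneg (Real.sinh w.re)
  have h4 := sq_nonneg (Real.sin w.im)
  nlinarith [mul_nonneg h3 (sub_nonneg.2 h2), mul_nonneg h4 (sub_nonneg.2 h2)]

lemma coth_bound {b : ℝ} (hb : b < Real.pi / 2) {w : ℂ} (h0 : 0 < w.re) (hw : |w.im| ≤ b) :
    ‖Complex.cosh w / Complex.sinh w‖ ≤ 1 + 1 / (w.re * Real.cos b) := by
  have hb0 : 0 ≤ b := (abs_nonneg _).trans hw
  have hcb : 0 < Real.cos b := Real.cos_pos_of_mem_Ioo ⟨by linarith, hb⟩
  have h1 := norm_sinh_ge h0 hb hw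
  have hp : 0 < w.re * Real.cos b := by positivity
  have hp2 : 0 < ‖Complex.sinh w‖ := lt_of_lt_of_le hp h1
  have h2 : ‖Complex.cosh w‖ ≤ ‖Complex.sinh w‖ + 1 := by
    refine le_of_sq_le_sq ?_ (by positivity)
    have e2 := Real.sin_sq_add_cos_sq w.im
    have e3 := norm_sinh_sq' w
    have e4 := norm_cosh_sq' w
    nlinarith [sq_nonneg (Real.sin w.im)]
  rw [norm_div, div_le_iff₀ hp2]
  have h3 : ‖Complex.sinh w‖ / (w.re * Real.cos b) ≥ 1 := (one_le_div hp).2 h1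
  calc ‖Complex.cosh w‖ ≤ ‖Complex.sinh w‖ + 1 := h2
    _ ≤ ‖Complex.sinh w‖ + ‖Complex.sinh w‖ / (w.re * Real.cos b) := by linarith
    _ = _ := by field_simp

lemma Ty_bound {b y : ℝ} (hb : b + |y| < Real.pi / 2) {w : ℂ} (hw : |w.im| ≤ b) :
    ‖Ty y w‖ ≤ 2 / Real.cos (b + |y|) := by
  have h1 := tanh_bound hb (w := w + y * I)
    (by rw [im_add]; exact (abs_add_le _ _).trans (by linarith))
  have h2 := tanh_bound hb (w := w - y * I)
    (by rw [im_sub]; exact (abs_sub _ _).trans (by linarith))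
  unfold Ty
  refine (norm_add_le _ _).trans ?_
  calc _ ≤ 1 / Real.cos (b + |y|) + 1 / Real.cos (b + |y|) := add_le_add h1 h2
    _ = _ := by ring

/-- **size of the derivative of the pair potential** -/
theorem Ud_bound : ∃ K : ℝ, 0 < K ∧ ∀ z : ℂ, 0 < z.re → |z.im| ≤ l / 2 →
    ‖Ud z‖ ≤ K * (1 + 1 / z.re) := by
  have hl := l_pos
  have h8 := l8
  have q3 : l / 2 + |3 * l| < Real.pi / 2 := by rw [abs_of_pos (by linarith)]; linarith
  have q2 : l / 2 + |2 * l| < Real.pi / 2 := by rw [abs_of_pos (by linarith)]; linarith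
  have q1 : l / 2 + |l| < Real.pi / 2 := by rw [abs_of_pos (by linarith)]; linarith
  have q0 : l / 2 + |(0:ℝ)| < Real.pi / 2 := by rw [abs_zero]; linarith
  have c3 : 0 < Real.cos (l / 2 + |3 * l|) := Real.cos_pos_of_mem_Ioo ⟨by have := abs_nonneg (3 * l); linarith, q3⟩
  have c2 : 0 < Real.cos (l / 2 + |2 * l|) := Real.cos_pos_of_mem_Ioo ⟨by have := abs_nonneg (2 * l); linarith, q2⟩
  have c1 : 0 < Real.cos (l / 2 + |l|) := Real.cos_pos_of_mem_Ioo ⟨by have := abs_nonneg l; linarith, q1⟩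
  have c0 : 0 < Real.cos (l / 2 + |(0:ℝ)|) := Real.cos_pos_of_mem_Ioo ⟨by have := abs_nonneg (0:ℝ); linarith, q0⟩
  have cs : 0 < Real.cos (l / 2) := Real.cos_pos_of_mem_Ioo ⟨by linarith, by linarith⟩
  set K3 := 2 / Real.cos (l / 2 + |3 * l|) with hK3
  set K2 := 2 / Real.cos (l / 2 + |2 * l|) with hK2
  set K1 := 2 / Real.cos (l / 2 + |l|) with hK1
  set K0 := 2 / Real.cos (l / 2 + |(0:ℝ)|) with hK0
  have p3 : 0 < K3 := by positivity
  have p2 : 0 < K2 := by positivity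
  have p1 : 0 < K1 := by positivity
  have p0 : 0 < K0 := by positivity
  refine ⟨K3 + K2 + 2 * K1 + K0 + 2 + 2 / Real.cos (l / 2), by positivity, fun z hz hz' => ?_⟩
  have b3 := Ty_bound q3 hz'
  have b2 := Ty_bound q2 hz'
  have b1 := Ty_bound q1 hz'
  have b0 := Ty_bound q0 hz'
  have bs := coth_bound (b := l / 2) (by linarith) hz hz'
  have e : ‖Ud z‖ ≤ ‖Ty (3 * l) z‖ + ‖Ty (2 * l) z‖ + 2 * ‖Ty l z‖ + ‖Ty 0 z‖ +
      2 * ‖Complex.cosh z / Complex.sinh z‖ := by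
    unfold Ud
    have n2 := norm_sub_le (Ty (3 * l) z - Ty (2 * l) z + 2 * Ty l z - Ty 0 z)
      (2 * (Complex.cosh z / Complex.sinh z))
    have n3 := norm_sub_le (Ty (3 * l) z - Ty (2 * l) z + 2 * Ty l z) (Ty 0 z)
    have n4 := norm_add_le (Ty (3 * l) z - Ty (2 * l) z) (2 * Ty l z)
    have n5 := norm_sub_le (Ty (3 * l) z) (Ty (2 * l) z)
    rw [norm_mul, Complex.norm_ofNat] at n2 n4
    linarith
  have hx : 0 < 1 / z.re := by positivity
  have e2 : 1 / (z.re * Real.cos (l / 2)) = 1 / Real.cos (l / 2) * (1 / z.re) := by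
    field_simp
  rw [e2] at bs
  have hc : 0 < 1 / Real.cos (l / 2) := by positivity
  have e3 : 2 / Real.cos (l / 2) = 2 * (1 / Real.cos (l / 2)) := by ring
  rw [e3]
  nlinarith [mul_pos p3 hx, mul_pos p2 hx, mul_pos p1 hx, mul_pos p0 hx, mul_pos hc hx]

/-- increments on a vertical segment -/
theorem Uc_sub : ∃ K : ℝ, 0 < K ∧ ∀ z z' : ℂ, 0 < z.re → z.re = z'.re → |z.im| ≤ l / 2 →
    |z'.im| ≤ l / 2 → ‖Uc z - Uc z'‖ ≤ K * (1 + 1 / z.re) * |z.im - z'.im| := by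
  obtain ⟨K, hK, hU⟩ := Ud_bound
  have hl := l_pos
  refine ⟨K, hK, fun z z' h0 hr hz hz' => ?_⟩
  set S : Set ℂ := {w | w.re = z.re ∧ |w.im| ≤ l / 2} with hS
  have cS : Convex ℝ S := by
    have : S = Complex.reLm ⁻¹' {z.re} ∩ Complex.imLm ⁻¹' (Icc (-(l / 2)) (l / 2)) := by
      ext z
      simp [hS, abs_le]
    rw [this]
    exact ((convex_singleton _).linear_preimage _).inter ((convex_Icc _ _).linear_preimage _)
  have h1 := Convex.norm_image_sub_le_of_norm_hasDerivWithin_le (f := Uc) (f' := Ud)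
    (C := K * (1 + 1 / z.re)) (s := S) (x := z') (y := z)
    (fun w hw => (hasDerivAt_Uc (by rw [hw.1]; exact h0)
      (lt_of_le_of_lt hw.2 (by linarith))).hasDerivWithinAt)
    (fun w hw => by
      have := hU w (by rw [hw.1]; exact h0) hw.2
      rwa [hw.1] at this) cS ⟨hr.symm, hz'⟩ ⟨rfl, hz⟩
  have h2 : ‖z - z'‖ = |z.im - z'.im| := by
    have h3 : z - z' = ((z.im - z'.im : ℝ) : ℂ) * I := by
      apply Complex.ext
      · simp [hr]
      · simp
    rw [h3, norm_mul, Complex.norm_I, mul_one, Complex.norm_real, Real.norm_eq_abs]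
  rwa [h2] at h1

end

end NUAct
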