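import Pool.Agent.NUAct.Disp
import Pool.Agent.NUKer.Pair

/-!
# The complex kernels of displaced paths as elements of the class `KC`

`Us (ζ t - ζ t') = - log w (t - t') - Lw`, `Ux (ζ t - ζ' t') = - log g (t - t') - Lg`.
-/

set_option autoImplicit false

open MeasureTheory Set Filter Topology Complex

namespace NUAct

open NUMF NUKer

noncomputable section

/-- complex relative kernel of `w` -/
def Lw (D D1 : ℝ → ℂ) (t t' : ℝ) : ℂ :=
  2 * Complex.log (1 + Y0 D D1 t t') + Complex.log (1 + Yc 0 D D t t') -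
    Complex.log (1 + Yc NUMF.r D D t t')

/-- complex relative kernel of `g` -/
def Lg (D D' : ℝ → ℂ) (t t' : ℝ) : ℂ :=
  Complex.log (1 + Yc (-1) D D' t t') - 2 * Complex.log (1 + Yc (-NUMF.r) D D' t t')

lemma Lw_re (D D1 : ℝ → ℂ) (t t' : ℝ) : (Lw D D1 t t').re = kw D D1 t t' := by
  unfold Lw kw k0 kc
  simp

lemma Lg_re (D D' : ℝ → ℂ) (t t' : ℝ) : (Lg D D' t t').re = kg D D' t t' := by
  unfold Lg kg kc
  simp

/-! ### derivatives of `Us`, `Ux` -/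

/-- derivative of `Us` -/
def Usd (z : ℂ) : ℂ := Ty (3 * l) z - Ty (2 * l) z - 2 * (Complex.cosh z / Complex.sinh z)

/-- derivative of `Ux` -/
def Uxd (z : ℂ) : ℂ := 2 * Ty l z - Ty 0 z

lemma hasDerivAt_Us {z : ℂ} (h0 : 0 < z.re) (h : |z.im| < l) : HasDerivAt Us (Usd z) z := by
  have hl := l_pos
  have h8 := l8
  have ds : HasDerivAt (fun z => 2 * Complex.log (Complex.sinh z)) (2 * (Complex.cosh z / Complex.sinh z)) z :=
    ((Complex.hasDerivAt_sinh z).clog (sinh_slit h0 (by linarith))).const_mul 2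
  exact ((hasDerivAt_Ly (a3 h)).sub (hasDerivAt_Ly (a2 h))).sub ds

lemma hasDerivAt_Ux {z : ℂ} (h : |z.im| < l) : HasDerivAt Ux (Uxd z) z :=
  (((hasDerivAt_Ly (a1 h)).const_mul 2).sub (hasDerivAt_Ly (a0 h))).sub_const _

lemma Ty_bd {y : ℝ} (hy : 0 ≤ y) (hy3 : y ≤ 3 * l) : ∃ K : ℝ, 0 < K ∧ ∀ w : ℂ, |w.im| ≤ l / 2 → ‖Ty y w‖ ≤ K := by
  have hl := l_pos
  have h8 := l8
  have q : l / 2 + |y| < Real.pi / 2 := by rw [abs_of_nonneg hy]; linarith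
  have c : 0 < Real.cos (l / 2 + |y|) := Real.cos_pos_of_mem_Ioo ⟨by have := abs_nonneg y; linarith, q⟩
  exact ⟨2 / Real.cos (l / 2 + |y|), by positivity, fun w hw => Ty_bound q hw⟩

theorem Usd_bound : ∃ K : ℝ, 0 < K ∧ ∀ z : ℂ, 0 < z.re → |z.im| ≤ l / 2 →
    ‖Usd z‖ ≤ K * (1 + 1 / z.re) := by
  have hl := l_pos
  have h8 := l8
  obtain ⟨K3, p3, b3⟩ := Ty_bd (y := 3 * l) (by linarith) le_rfl
  obtain ⟨K2, p2, b2⟩ := Ty_bd (y := 2 * l) (by linarith) (by linarith)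
  have cs : 0 < Real.cos (l / 2) := Real.cos_pos_of_mem_Ioo ⟨by linarith, by linarith⟩
  refine ⟨K3 + K2 + 2 + 2 / Real.cos (l / 2), by positivity, fun z hz hz' => ?_⟩
  have b3 := b3 z hz'
  have b2 := b2 z hz'
  have bs := coth_bound (b := l / 2) (by linarith) hz hz'
  have e : ‖Usd z‖ ≤ ‖Ty (3 * l) z‖ + ‖Ty (2 * l) z‖ + 2 * ‖Complex.cosh z / Complex.sinh z‖ := by
    unfold Usd
    have n2 := norm_sub_le (Ty (3 * l) z - Ty (2 * l) z) (2 * (Complex.cosh z / Complex.sinh z))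
    have n5 := norm_sub_le (Ty (3 * l) z) (Ty (2 * l) z)
    rw [norm_mul, Complex.norm_ofNat] at n2
    linarith
  have hx : 0 < 1 / z.re := by positivity
  have e2 : 1 / (z.re * Real.cos (l / 2)) = 1 / Real.cos (l / 2) * (1 / z.re) := by
    field_simp
  rw [e2] at bs
  have hc : 0 < 1 / Real.cos (l / 2) := by positivity
  have e3 : 2 / Real.cos (l / 2) = 2 * (1 / Real.cos (l / 2)) := by ring
  rw [e3]
  nlinarith [mul_pos p3 hx, mul_pos p2 hx, mul_pos hc hx]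

theorem Uxd_bound : ∃ K : ℝ, 0 < K ∧ ∀ z : ℂ, |z.im| ≤ l / 2 → ‖Uxd z‖ ≤ K := by
  have hl := l_pos
  obtain ⟨K1, p1, b1⟩ := Ty_bd (y := l) (by linarith) (by linarith)
  obtain ⟨K0, p0, b0⟩ := Ty_bd (y := 0) le_rfl (by linarith)
  refine ⟨2 * K1 + K0, by positivity, fun z hz => ?_⟩
  have n1 := norm_sub_le (2 * Ty l z) (Ty 0 z)
  rw [norm_mul, Complex.norm_ofNat] at n1
  have := b1 z hz
  have := b0 z hz
  unfold Uxd
  linarith

lemma Us_incr : ∃ K : ℝ, 0 < K ∧ ∀ (m : ℝ) (z z' : ℂ), 0 < m → m ≤ z.re → m ≤ z'.re →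
    |z.im| ≤ l / 2 → |z'.im| ≤ l / 2 → ‖Us z - Us z'‖ ≤ K * (1 + 1 / m) * ‖z - z'‖ := by
  obtain ⟨K, hK, hU⟩ := Usd_bound
  have hl := l_pos
  refine ⟨K, hK, fun m z z' hm h1 h2 h3 h4 => ?_⟩
  exact Convex.norm_image_sub_le_of_norm_hasDerivWithin_le (f := Us) (f' := Usd)
    (C := K * (1 + 1 / m)) (s := {w : ℂ | m ≤ w.re ∧ |w.im| ≤ l / 2}) (x := z') (y := z)
    (fun w hw => (hasDerivAt_Us (lt_of_lt_of_le hm hw.1)
      (lt_of_le_of_lt hw.2 (by linarith))).hasDerivWithinAt)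
    (fun w hw => by
      have h5 := hU w (lt_of_lt_of_le hm hw.1) hw.2
      have h6 : 1 / w.re ≤ 1 / m := one_div_le_one_div_of_le hm hw.1
      exact h5.trans (mul_le_mul_of_nonneg_left (by linarith) hK.le))
    (convex_HSt' (l / 2) m) ⟨h2, h4⟩ ⟨h1, h3⟩

lemma Ux_incr : ∃ K : ℝ, 0 < K ∧ ∀ (z z' : ℂ), |z.im| ≤ l / 2 → |z'.im| ≤ l / 2 →
    ‖Ux z - Ux z'‖ ≤ K * ‖z - z'‖ := by
  obtain ⟨K, hK, hU⟩ := Uxd_bound
  have hl := l_pos
  refine ⟨K, hK, fun z z' h3 h4 => ?_⟩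
  exact Convex.norm_image_sub_le_of_norm_hasDerivWithin_le (f := Ux) (f' := Uxd)
    (C := K) (s := {w : ℂ | |w.im| ≤ l / 2}) (x := z') (y := z)
    (fun w hw => (hasDerivAt_Ux (lt_of_le_of_lt hw (by linarith))).hasDerivWithinAt)
    (fun w hw => hU w hw) (convex_strip (l / 2)) h4 h3

/-! ### exponentials -/

lemma cos_vals : Real.cos (2 * 0) = 1 ∧ Real.cos (2 * l) = r ∧ Real.cos (2 * (2 * l)) = 0 ∧
    Real.cos (2 * (3 * l)) = -r := by
  refine ⟨by simp, ?_, ?_, ?_⟩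
  · unfold l; rw [show 2 * (Real.pi / 8) = Real.pi / 4 by ring, r_eq]
  · unfold l; rw [show 2 * (2 * (Real.pi / 8)) = Real.pi / 2 by ring, Real.cos_pi_div_two]
  · unfold l
    rw [show 2 * (3 * (Real.pi / 8)) = Real.pi - Real.pi / 4 by ring, Real.cos_pi_sub, r_eq]

lemma exp_Us {z : ℂ} (h0 : 0 < z.re) (h : |z.im| < l) : Complex.exp (-Us z) = wcx z := by
  have hl := l_pos
  have h8 := l8
  obtain ⟨c0, c1, c2, c3⟩ := cos_vals
  have hs : Complex.sinh z ≠ 0 := Complex.slitPlane_ne_zero (sinh_slit h0 (by linarith))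
  have e2 := exp_Ly (a2 h)
  have e3 := exp_Ly (a3 h)
  rw [c2] at e2
  rw [c3] at e3
  have n3 : Complex.exp (Ly (3 * l) z) ≠ 0 := Complex.exp_ne_zero _
  have key : Complex.exp (-Us z) = Complex.exp (Ly (2 * l) z) *
      Complex.exp (Complex.log (Complex.sinh z)) ^ 2 / Complex.exp (Ly (3 * l) z) := by
    rw [eq_div_iff n3, ← Complex.exp_nat_mul, ← Complex.exp_add, ← Complex.exp_add]
    congr 1
    unfold Us
    push_cast
    ring
  rw [key, Complex.exp_log hs, e2, e3]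
  unfold wcx
  push_cast
  ring

lemma exp_Ux {z : ℂ} (h : |z.im| < l) : Complex.exp (-Ux z) = gcx z := by
  have hl := l_pos
  have h8 := l8
  obtain ⟨c0, c1, c2, c3⟩ := cos_vals
  have e0 := exp_Ly (a0 h)
  have e1 := exp_Ly (a1 h)
  rw [c0] at e0
  rw [c1] at e1
  have n1 : Complex.exp (Ly l z) ≠ 0 := Complex.exp_ne_zero _
  have key : Complex.exp (-Ux z) = Complex.exp (Ly 0 z) * Complex.exp (Real.log 2) /
      Complex.exp (Ly l z) ^ 2 := by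
    rw [eq_div_iff (pow_ne_zero 2 n1), ← Complex.exp_nat_mul, ← Complex.exp_add, ← Complex.exp_add]
    congr 1
    unfold Ux
    push_cast
    ring
  have g0 : 2 * Complex.cosh z ^ 2 = Complex.exp (Ly 0 z) := by
    rw [e0, Complex.cosh_two_mul]
    have := Complex.cosh_sq z
    push_cast
    linear_combination this
  have hr : (NUMF.r : ℂ) = ((r : ℝ) : ℂ) := rfl
  rw [key, ← Complex.ofReal_exp, Real.exp_log two_pos, ← g0, e1]
  unfold gcx
  push_cast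
  ring

lemma eq_of_exp {a b : ℂ} (h : Complex.exp a = Complex.exp b) (hn : ‖a - b‖ < 6) : a = b := by
  obtain ⟨n, hn'⟩ := Complex.exp_eq_exp_iff_exists_int.1 h
  have e : a - b = n * (2 * Real.pi * I) := by rw [hn']; ring
  rw [e, norm_mul, norm_mul, norm_mul, Complex.norm_I, Complex.norm_ofNat, Complex.norm_real,
    Real.norm_eq_abs, abs_of_pos Real.pi_pos, Complex.norm_intCast] at hn
  have hpi := Real.pi_gt_three
  have h0 : n = 0 := by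
    by_contra hne
    have h1 : (1:ℝ) ≤ |(n:ℝ)| := by exact_mod_cast Int.one_le_abs hne
    nlinarith
  rw [h0] at hn'
  simpa using hn'

/-- complex version of `exists_kc` -/
theorem exists_kcC {c : ℝ} (hc : c < 1) : ∃ K : ℝ, 1 ≤ K ∧ ∀ R : ℝ, 1 ≤ R → ∀ lam : ℝ,
    ∀ D D' : ℝ → ℂ, KC1 R lam D → KC1 R lam D' → K * R ^ 3 * lam ≤ 1 →
    KC R (K * R ^ 3 * lam) (fun t t' => Complex.log (1 + Yc c D D' t t')) := by
  obtain ⟨K, hK0, hK⟩ := exists_CS hc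
  refine ⟨104000 * (K + 1), by nlinarith, fun R hR lam D D' hD hD' hsm => ?_⟩
  have hl := hD.nonneg
  have hR3 : 1 ≤ R ^ 3 := one_le_pow₀ hR
  have hl1 : lam ≤ 1 := by
    have h1 : lam ≤ 104000 * (K + 1) * R ^ 3 * lam :=
      le_mul_of_one_le_left hl (by nlinarith)
    linarith
  obtain ⟨hC, hS⟩ := hK (2 * R) (by linarith)
  have hC2 := hC.diff
  have hS2 := hS.diff
  have hz : KC R (4 * lam) (fun t t' => 2 * (D t - D' t')) := by
    have h1 := (hD.left.sub hD'.right).smul 2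
    refine h1.mono (le_of_eq ?_)
    rw [show ‖(2 : ℂ)‖ = 2 by simp]
    ring
  have h2 := (hz.cosh_sub_one.mul hC2).add (hz.sinh.mul hS2)
  have he : Real.exp (4 * lam) ≤ 81 := (Real.exp_le_exp.2 (by linarith)).trans exp_four_le
  obtain ⟨M, hM⟩ : ∃ M : ℝ, M = (4 * lam) ^ 2 * Real.exp (4 * lam) * (2 * (K * (2 * R) ^ 3)) +
      4 * lam * Real.exp (4 * lam) * (2 * (K * (2 * R) ^ 3)) := ⟨_, rfl⟩
  have hMb : M ≤ 25920 * (K * R ^ 3 * lam) := by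
    have h3 : (4 * lam) ^ 2 ≤ 16 * lam := by nlinarith
    have hE := Real.exp_pos (4 * lam)
    calc M = ((4 * lam) ^ 2 + 4 * lam) * Real.exp (4 * lam) * (16 * (K * R ^ 3)) := by
          rw [hM]; ring
      _ ≤ (20 * lam) * 81 * (16 * (K * R ^ 3)) := by
          have h4 : (4 * lam) ^ 2 + 4 * lam ≤ 20 * lam := by linarith
          have h5 : ((4 * lam) ^ 2 + 4 * lam) * Real.exp (4 * lam) ≤ (20 * lam) * 81 := by
            apply mul_le_mul h4 he hE.le (by positivity)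
          gcongr
      _ ≤ _ := by nlinarith [mul_nonneg (mul_nonneg hK0.le (by positivity : (0 : ℝ) ≤ R ^ 3)) hl]
  have hM4 : M ≤ 1 / 4 := by
    have h6 : K * R ^ 3 * lam ≤ 1 / 104000 := by
      rw [le_div_iff₀ (by norm_num)]
      have : K * R ^ 3 * lam * 104000 ≤ 104000 * (K + 1) * R ^ 3 * lam := by
        nlinarith [mul_nonneg (by positivity : (0 : ℝ) ≤ R ^ 3) hl]
      linarith
    linarith
  have h2' : KC R M (Yc c D D') := (h2.mono (le_of_eq hM.symm)).congr fun t t' _ _ => rfl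
  have h7 := h2'.log (by linarith)
  refine h7.mono ?_
  have : 0 ≤ R ^ 3 * lam := by positivity
  nlinarith

theorem exists_k0C : ∃ K : ℝ, 1 ≤ K ∧ ∀ R : ℝ, 1 ≤ R → ∀ lam : ℝ,
    ∀ D D1 : ℝ → ℂ, KC1 R lam D → KC1 R lam D1 → K * R ^ 4 * lam ≤ 1 →
    KC R (K * R ^ 4 * lam) (fun t t' => Complex.log (1 + Y0 D D1 t t')) := by
  obtain ⟨K, hK0, hK⟩ := exists_xcoth
  refine ⟨1000 * (K + 1), by nlinarith, fun R hR lam D D1 hD hD1 hsm => ?_⟩
  have hl := hD.nonneg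
  have hR4 : 1 ≤ R ^ 4 := one_le_pow₀ hR
  have hl1 : lam ≤ 1 / 1000 := by
    have h1 : 1000 * lam ≤ 1000 * (K + 1) * R ^ 4 * lam := by
      have h2 : 1 ≤ (K + 1) * R ^ 4 := by nlinarith
      nlinarith
    linarith
  have hz : KC R (2 * lam) (fun t t' => D t - D t') := by
    have h1 := (hD.left.sub hD.right)
    exact h1.mono (le_of_eq (by ring))
  have hq := hD1.qd (by linarith : 0 ≤ R)
  have h2 := hz.cosh_sub_one.add (((hK R hR).mul hq).mul hz.shc)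
  have he : Real.exp (2 * lam) ≤ 3 := (Real.exp_le_exp.2 (by linarith)).trans exp_one_le
  obtain ⟨M, hM⟩ : ∃ M : ℝ, M = (2 * lam) ^ 2 * Real.exp (2 * lam) +
      K * R ^ 4 * lam * Real.exp (2 * lam) := ⟨_, rfl⟩
  have hMb : M ≤ 3 * (K + 1) * R ^ 4 * lam := by
    have h3 : (2 * lam) ^ 2 ≤ lam := by nlinarith
    have hE := Real.exp_pos (2 * lam)
    have h8 : 0 ≤ K * R ^ 4 * lam := by positivity
    calc M = ((2 * lam) ^ 2 + K * R ^ 4 * lam) * Real.exp (2 * lam) := by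
          rw [hM]; ring
      _ ≤ (lam + K * R ^ 4 * lam) * 3 := by
          apply mul_le_mul (by linarith) he hE.le (by positivity)
      _ ≤ _ := by nlinarith
  have hM4 : M ≤ 1 / 4 := by nlinarith
  have h2' : KC R M (Y0 D D1) := (h2.mono (le_of_eq hM.symm)).congr fun t t' _ _ => rfl
  have h7 := h2'.log (by linarith)
  refine h7.mono ?_
  have : 0 ≤ (K + 1) * R ^ 4 * lam := by positivity
  nlinarith

/-- **own complex kernel** -/
theorem exists_Lw : ∃ K : ℝ, 1 ≤ K ∧ ∀ R : ℝ, 1 ≤ R → ∀ (lam : ℝ) (D D1 : ℝ → ℂ),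
    NUKer.Disp R lam D D1 → K * R ^ 7 * lam ≤ 1 →
    Sm R D D1 ∧ KC R (K * R ^ 7 * lam) (Lw D D1) := by
  obtain ⟨K0, hK0, H0⟩ := exists_kw
  obtain ⟨K1, hK1, H1⟩ := exists_disp
  obtain ⟨K2, hK2, H2⟩ := exists_k0C
  obtain ⟨K3, hK3, H3⟩ := exists_kcC (c := 0) (by norm_num)
  obtain ⟨K4, hK4, H4⟩ := exists_kcC (c := NUMF.r) r_lt
  have hp2 : 0 < K1 := by linarith
  refine ⟨K0 + 4 * K1 * (K2 + K3 + K4), by nlinarith, fun R hR lam D D1 h hsm => ?_⟩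
  obtain ⟨hl, hD, hD1⟩ := H1 R hR lam D D1 h
  have hR7' : 0 ≤ R ^ 7 * lam := by positivity
  have hsm0 : K0 * R ^ 7 * lam ≤ 1 := by
    refine le_trans ?_ hsm
    have : 0 ≤ 4 * K1 * (K2 + K3 + K4) * (R ^ 7 * lam) := by positivity
    nlinarith
  have hsm1 : 4 * K1 * (K2 + K3 + K4) * R ^ 7 * lam ≤ 1 := by
    refine le_trans ?_ hsm
    have : 0 ≤ K0 * (R ^ 7 * lam) := by positivity
    nlinarith
  have hR7 : R ^ 4 * R ^ 3 = R ^ 7 := by ring
  have hR6 : R ^ 3 * R ^ 3 ≤ R ^ 7 := by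
    rw [← pow_add]
    exact pow_le_pow_right₀ hR (by norm_num)
  have hX : 0 ≤ K1 * (R ^ 7 * lam) := by positivity
  have e2 : K2 * R ^ 4 * (K1 * R ^ 3 * lam) = K2 * (K1 * (R ^ 7 * lam)) := by ring
  have e3 : ∀ K : ℝ, 0 ≤ K → K * R ^ 3 * (K1 * R ^ 3 * lam) ≤ K * (K1 * (R ^ 7 * lam)) := by
    intro K hK
    calc K * R ^ 3 * (K1 * R ^ 3 * lam) = K * (K1 * ((R ^ 3 * R ^ 3) * lam)) := by ring
      _ ≤ _ := by gcongr
  have hsm' : 4 * (K2 + K3 + K4) * (K1 * (R ^ 7 * lam)) ≤ 1 := by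
    refine le_trans (le_of_eq ?_) hsm1
    ring
  have b2 : K2 * (K1 * (R ^ 7 * lam)) ≤ 1 := by nlinarith
  have b3 : K3 * (K1 * (R ^ 7 * lam)) ≤ 1 := by nlinarith
  have b4 : K4 * (K1 * (R ^ 7 * lam)) ≤ 1 := by nlinarith
  have k1 := H2 R hR _ D D1 hD hD1 (by rw [e2]; exact b2)
  have k2 := H3 R hR _ D D hD hD ((e3 K3 (by linarith)).trans b3)
  have k3 := H4 R hR _ D D hD hD ((e3 K4 (by linarith)).trans b4)
  refine ⟨(H0 R hR lam D D1 h hsm0).1, ?_⟩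
  have hk := ((k1.smul 2).add k2).sub k3
  refine (hk.mono ?_).congr fun t t' _ _ => ?_
  · have q3 := e3 K3 (by linarith)
    have q4 := e3 K4 (by linarith)
    rw [e2, show ‖(2 : ℂ)‖ = 2 by simp]
    have hK0' : 0 ≤ K0 * (R ^ 7 * lam) := by positivity
    calc 2 * (K2 * (K1 * (R ^ 7 * lam))) + K3 * R ^ 3 * (K1 * R ^ 3 * lam) +
        K4 * R ^ 3 * (K1 * R ^ 3 * lam) ≤ 2 * (K2 * (K1 * (R ^ 7 * lam))) +
        K3 * (K1 * (R ^ 7 * lam)) + K4 * (K1 * (R ^ 7 * lam)) := by gcongr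
      _ ≤ _ := by nlinarith
  · unfold Lw
    ring

/-- **cross complex kernel** -/
theorem exists_Lg : ∃ K : ℝ, 1 ≤ K ∧ ∀ R : ℝ, 1 ≤ R → ∀ (lam : ℝ) (D D1 D' D1' : ℝ → ℂ),
    NUKer.Disp R lam D D1 → NUKer.Disp R lam D' D1' → K * R ^ 6 * lam ≤ 1 →
    Sm2 R D D' ∧ KC R (K * R ^ 6 * lam) (Lg D D') := by
  obtain ⟨K0, hK0, H0⟩ := exists_kg
  obtain ⟨K1, hK1, H1⟩ := exists_disp
  obtain ⟨K3, hK3, H3⟩ := exists_kcC (c := -1) (by norm_num)
  obtain ⟨K4, hK4, H4⟩ := exists_kcC (c := -NUMF.r) (by linarith [NUKer.r_pos])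
  have hp2 : 0 < K1 := by linarith
  refine ⟨K0 + 4 * K1 * (K3 + K4), by nlinarith, fun R hR lam D D1 D' D1' h h' hsm => ?_⟩
  obtain ⟨hl, hD, -⟩ := H1 R hR lam D D1 h
  obtain ⟨-, hD', -⟩ := H1 R hR lam D' D1' h'
  have hX : 0 ≤ K1 * (R ^ 6 * lam) := by positivity
  have hX' : 0 ≤ R ^ 6 * lam := by positivity
  have hsm0 : K0 * R ^ 6 * lam ≤ 1 := by
    refine le_trans ?_ hsm
    have : 0 ≤ 4 * K1 * (K3 + K4) * (R ^ 6 * lam) := by positivity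
    nlinarith
  have hsm1 : 4 * K1 * (K3 + K4) * R ^ 6 * lam ≤ 1 := by
    refine le_trans ?_ hsm
    have : 0 ≤ K0 * (R ^ 6 * lam) := by positivity
    nlinarith
  have e3 : ∀ K : ℝ, K * R ^ 3 * (K1 * R ^ 3 * lam) = K * (K1 * (R ^ 6 * lam)) := by
    intro K
    ring
  have hsm' : 4 * (K3 + K4) * (K1 * (R ^ 6 * lam)) ≤ 1 := by
    refine le_trans (le_of_eq ?_) hsm1
    ring
  have b3 : K3 * (K1 * (R ^ 6 * lam)) ≤ 1 := by nlinarith
  have b4 : K4 * (K1 * (R ^ 6 * lam)) ≤ 1 := by nlinarith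
  have k2 := H3 R hR _ D D' hD hD' ((e3 K3).le.trans b3)
  have k3 := H4 R hR _ D D' hD hD' ((e3 K4).le.trans b4)
  refine ⟨(H0 R hR lam D D1 D' D1' h h' hsm0).1, ?_⟩
  have hk := k2.sub (k3.smul 2)
  refine (hk.mono ?_).congr fun t t' _ _ => ?_
  · rw [e3, e3, show ‖(2 : ℂ)‖ = 2 by simp]
    have : 0 ≤ K0 * (R ^ 6 * lam) := by positivity
    nlinarith
  · unfold Lg
    ring

end

end NUAct
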