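import Pool.Agent.NUAct.CK

/-!
# The kernels on the paths: `Up Us = - log w - Lw`, `Ux = - log g - Lg`
-/

set_option autoImplicit false

open MeasureTheory Set Filter Topology Complex

namespace NUAct

open NUMF NUKer

noncomputable section

lemma Disp_b {R lam : ℝ} {D D1 : ℝ → ℂ} (h : NUKer.Disp R lam D D1) :
    (∀ x, |x| ≤ 2 * R → ‖D x‖ ≤ lam) ∧ (∀ x, |x| ≤ 2 * R → ‖D1 x‖ ≤ lam) := by
  obtain ⟨D2, D3, D4, h1, h2, h3, h4, hc, b0, b1, b2, b3, b4⟩ := h.ex
  exact ⟨b0, b1⟩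

lemma Disp_lip {R lam : ℝ} {D D1 : ℝ → ℂ} (h : NUKer.Disp R lam D D1) {t t' : ℝ}
    (ht : |t| ≤ 2 * R) (ht' : |t'| ≤ 2 * R) : ‖D t - D t'‖ ≤ lam * |t - t'| := by
  have h1 := Convex.norm_image_sub_le_of_norm_hasDerivWithin_le (f := D) (f' := D1) (C := lam)
    (s := Icc (-(2 * R)) (2 * R)) (x := t') (y := t) (fun x _ => (h.deriv x).hasDerivWithinAt)
    (fun x hx => (Disp_b h).2 x (abs_le.2 hx)) (convex_Icc _ _) (abs_le.1 ht') (abs_le.1 ht)
  rwa [Real.norm_eq_abs] at h1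

lemma wcx_neg (z : ℂ) : wcx (-z) = wcx z := by
  unfold wcx
  rw [Complex.sinh_neg, mul_neg, Complex.cosh_neg]
  ring

lemma exp_logY {Y : ℂ} (h : ‖Y‖ ≤ 1 / 2) : Complex.exp (Complex.log (1 + Y)) = 1 + Y :=
  Complex.exp_log (one_add_ne h)

lemma exp_Lw {R : ℝ} {D D1 : ℝ → ℂ} (h : Sm R D D1) {t t' : ℝ} (ht : |t| ≤ R) (ht' : |t'| ≤ R) :
    wcx ((t + D t) - (t' + D t')) = (NUMF.w (t - t') : ℂ) * Complex.exp (Lw D D1 t t') := by
  have h1 := sinh_mul h.hD h.hc t t'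
  have h2 := den_mul (c := 0) (by norm_num) D D t t'
  have h3 := den_mul r_lt D D t t'
  rw [Complex.ofReal_zero, sub_zero, sub_zero] at h2
  have n3 : (1 + Yc NUMF.r D D t t') ≠ 0 := one_add_ne (h.yr t t' ht ht')
  have hpos : 0 < Real.cosh (2 * (t - t')) - NUMF.r := by
    have := den_ge (c := NUMF.r) (t - t')
    linarith [r_lt]
  have hpos' : ((Real.cosh (2 * (t - t')) - NUMF.r : ℝ) : ℂ) ≠ 0 := by exact_mod_cast hpos.ne'
  have e : Complex.exp (Lw D D1 t t') = (1 + Y0 D D1 t t') ^ 2 * (1 + Yc 0 D D t t') /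
      (1 + Yc NUMF.r D D t t') := by
    rw [eq_div_iff n3]
    nth_rewrite 1 [← exp_logY (h.yr t t' ht ht')]
    rw [← Complex.exp_add]
    have e1 : Lw D D1 t t' + Complex.log (1 + Yc NUMF.r D D t t') =
        (Complex.log (1 + Y0 D D1 t t') + Complex.log (1 + Y0 D D1 t t')) +
          Complex.log (1 + Yc 0 D D t t') := by
      unfold Lw
      ring
    rw [e1, Complex.exp_add, Complex.exp_add, exp_logY (h.y0 t t' ht ht'),
      exp_logY (h.yz t t' ht ht')]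
    ring
  rw [e]
  unfold wcx NUMF.w
  rw [h3, h2, h1]
  push_cast
  push_cast at hpos'
  field_simp

lemma exp_Lg {R : ℝ} {D D' : ℝ → ℂ} (h : Sm2 R D D') {t t' : ℝ} (ht : |t| ≤ R) (ht' : |t'| ≤ R) :
    gcx ((t + D t) - (t' + D' t')) = (NUMF.g (t - t') : ℂ) * Complex.exp (Lg D D' t t') := by
  have h2 := den_mul (c := -1) (by norm_num) D D' t t'
  have h3 := den_mul (c := -NUMF.r) (by linarith [NUKer.r_pos]) D D' t t'
  have n3 : (1 + Yc (-NUMF.r) D D' t t') ≠ 0 := one_add_ne (h.y2 t t' ht ht')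
  have hpos : 0 < Real.cosh (2 * (t - t')) - -NUMF.r := by
    have := den_ge (c := -NUMF.r) (t - t')
    linarith [NUKer.r_pos]
  have hpos' : ((Real.cosh (2 * (t - t')) - -NUMF.r : ℝ) : ℂ) ≠ 0 := by exact_mod_cast hpos.ne'
  have e : Complex.exp (Lg D D' t t') = (1 + Yc (-1) D D' t t') /
      (1 + Yc (-NUMF.r) D D' t t') ^ 2 := by
    rw [eq_div_iff (pow_ne_zero 2 n3)]
    nth_rewrite 1 [← exp_logY (h.y2 t t' ht ht')]
    rw [← Complex.exp_nat_mul, ← Complex.exp_add]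
    have e1 : Lg D D' t t' + ((2:ℕ):ℂ) * Complex.log (1 + Yc (-NUMF.r) D D' t t') =
          Complex.log (1 + Yc (-1) D D' t t') := by
      unfold Lg
      push_cast
      ring
    rw [e1, exp_logY (h.y1 t t' ht ht')]
  have e1 : gcx ((t + D t) - (t' + D' t')) =
      2 * (Complex.cosh (2 * ((t + D t) - (t' + D' t'))) - ((-1 : ℝ) : ℂ)) /
      (Complex.cosh (2 * ((t + D t) - (t' + D' t'))) - ((-NUMF.r : ℝ) : ℂ)) ^ 2 := by
    unfold gcx
    rw [← cosh_sq_two]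
    push_cast
    ring
  have e2 : NUMF.g (t - t') = 2 * (Real.cosh (2 * (t - t')) - -1) /
      (Real.cosh (2 * (t - t')) - -NUMF.r) ^ 2 := by
    unfold NUMF.g
    have : Real.cosh (2 * (t - t')) = 2 * Real.cosh (t - t') ^ 2 - 1 := by
      rw [Real.cosh_two_mul]
      have := Real.cosh_sq_sub_sinh_sq (t - t')
      linarith
    rw [show 4 * Real.cosh (t - t') ^ 2 = 2 * (Real.cosh (2 * (t - t')) - -1) by rw [this]; ring]
    congr 1
    ring
  rw [e, e1, e2, h2, h3]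
  push_cast
  push_cast at hpos'
  field_simp

/-- **the own kernel on the path** -/
theorem exists_own : ∃ K : ℝ, 1 ≤ K ∧ ∀ R : ℝ, 1 ≤ R → ∀ (lam : ℝ) (D D1 : ℝ → ℂ),
    NUKer.Disp R lam D D1 → K * R ^ 7 * lam ≤ 1 →
    Sm R D D1 ∧ KC R (K * R ^ 7 * lam) (Lw D D1) ∧
    ∀ t t', |t| ≤ R → |t'| ≤ R → t ≠ t' →
      Up Us (zt D) t t' = ((-Real.log (NUMF.w (t - t')) : ℝ) : ℂ) - Lw D D1 t t' := by
  obtain ⟨K0, hK0, H0⟩ := exists_Lw
  obtain ⟨K1, hK1, H1⟩ := Us_incr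
  have hl := l_pos
  have hl4 := l4
  refine ⟨K0 + 20 + 4 * K1, by linarith, fun R hR lam D D1 h hsm => ?_⟩
  have hR7 : 1 ≤ R ^ 7 := one_le_pow₀ hR
  have hlam : 0 ≤ lam := (norm_nonneg _).trans ((Disp_b h).1 0 (by simp; linarith))
  have hX : 0 ≤ R ^ 7 * lam := by positivity
  have hXl : lam ≤ R ^ 7 * lam := le_mul_of_one_le_left hlam hR7
  have hsm' : (K0 + 20 + 4 * K1) * (R ^ 7 * lam) ≤ 1 := by
    refine le_trans (le_of_eq ?_) hsm
    ring
  have s0 : K0 * (R ^ 7 * lam) ≤ 1 := by nlinarith [mul_nonneg hK1.le hX]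
  have s1 : 20 * (R ^ 7 * lam) ≤ 1 := by nlinarith [mul_nonneg hK1.le hX]
  have s2 : 4 * K1 * (R ^ 7 * lam) ≤ 1 := by nlinarith
  have s1' : lam ≤ 1 / 20 := by linarith
  obtain ⟨hS, hKC⟩ := H0 R hR lam D D1 h (by linarith)
  refine ⟨hS, hKC.mono (by nlinarith [mul_nonneg hK1.le hX]), ?_⟩
  have hbd : ∀ t t', |t| ≤ R → |t'| ≤ R → ‖Lw D D1 t t'‖ ≤ 1 := fun t t' ht ht' =>
    (hKC.bound ht ht').trans (by linarith)
  have hsymm : ∀ t t', |t| ≤ R → |t'| ≤ R → t ≠ t' → Lw D D1 t t' = Lw D D1 t' t := by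
    intro t t' ht ht' hne
    refine eq_of_exp ?_ ?_
    · have e1 := exp_Lw hS ht ht'
      have e2 := exp_Lw hS ht' ht
      have e3 : wcx ((t + D t) - (t' + D t')) = wcx ((t' + D t') - (t + D t)) := by
        rw [← wcx_neg]
        congr 1
        ring
      have e4 : NUMF.w (t' - t) = NUMF.w (t - t') := by rw [← w_neg, neg_sub]
      rw [e3, e2, e4] at e1
      have hw : (NUMF.w (t - t') : ℂ) ≠ 0 := by
        exact_mod_cast (w_pos (sub_ne_zero.2 hne)).ne'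
      exact (mul_left_cancel₀ hw e1).symm
    · refine (norm_sub_le _ _).trans_lt ?_
      linarith [hbd t t' ht ht', hbd t' t ht' ht]
  have key : ∀ t t', |t| ≤ R → |t'| ≤ R → t' < t →
      Us (zt D t - zt D t') = ((-Real.log (NUMF.w (t - t')) : ℝ) : ℂ) - Lw D D1 t t' := by
    intro t t' ht ht' hlt
    have hx : 0 < t - t' := by linarith
    have hbt := (Disp_b h).1 t (by linarith)
    have hbt' := (Disp_b h).1 t' (by linarith)
    have hlip := Disp_lip h (t := t) (t' := t') (by linarith) (by linarith)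
    rw [abs_of_pos hx] at hlip
    have ez : zt D t - zt D t' = ((t - t' : ℝ) : ℂ) + (D t - D t') := by
      unfold zt
      push_cast
      ring
    have hre : (zt D t - zt D t').re = (t - t') + (D t - D t').re := by
      rw [ez]
      simp
    have him : (zt D t - zt D t').im = (D t - D t').im := by
      rw [ez]
      simp
    have h1 := Complex.abs_re_le_norm (D t - D t')
    have h2 := Complex.abs_im_le_norm (D t - D t')
    have h3 := neg_abs_le (D t - D t').re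
    have h4 : ‖D t - D t'‖ ≤ 1 / 20 * (t - t') := hlip.trans (by nlinarith)
    have h5 : ‖D t - D t'‖ ≤ 1 / 10 := (norm_sub_le _ _).trans (by linarith)
    have hre' : (t - t') / 2 ≤ (zt D t - zt D t').re := by rw [hre]; linarith
    have him' : |(zt D t - zt D t').im| ≤ l / 2 := by rw [him]; linarith
    have h0 : 0 < (zt D t - zt D t').re := by linarith
    have hUs := H1 ((t - t') / 2) (zt D t - zt D t') ((t - t' : ℝ) : ℂ) (by linarith) hre'
      (by simp; linarith) him' (by simp; linarith)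
    have ed : zt D t - zt D t' - ((t - t' : ℝ) : ℂ) = D t - D t' := by rw [ez]; ring
    rw [ed] at hUs
    have hUs' : ‖Us (zt D t - zt D t') - Us ((t - t' : ℝ) : ℂ)‖ ≤ 1 := by
      refine hUs.trans ?_
      have e1 : K1 * (1 + 1 / ((t - t') / 2)) * ‖D t - D t'‖ =
          K1 * (‖D t - D t'‖ + 2 / (t - t') * ‖D t - D t'‖) := by
        field_simp
      rw [e1]
      have e2 : 2 / (t - t') * ‖D t - D t'‖ ≤ 2 * lam := by
        calc 2 / (t - t') * ‖D t - D t'‖ ≤ 2 / (t - t') * (lam * (t - t')) := by gcongr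
          _ = 2 * lam := by field_simp
      have e3 : ‖D t - D t'‖ ≤ 2 * lam := (norm_sub_le _ _).trans (by linarith)
      calc K1 * (‖D t - D t'‖ + 2 / (t - t') * ‖D t - D t'‖) ≤ K1 * (2 * lam + 2 * lam) := by
            gcongr
        _ = 4 * K1 * lam := by ring
        _ ≤ 4 * K1 * (R ^ 7 * lam) := by gcongr
        _ ≤ 1 := s2
    have e0 : Us ((t - t' : ℝ) : ℂ) = ((-Real.log (NUMF.w (t - t')) : ℝ) : ℂ) := Us_ofReal hx
    rw [e0] at hUs'
    have hexp : Complex.exp (-Us (zt D t - zt D t')) =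
        Complex.exp ((Real.log (NUMF.w (t - t')) : ℝ) + Lw D D1 t t') := by
      rw [exp_Us h0 (lt_of_le_of_lt him' (by linarith)), Complex.exp_add, ← Complex.ofReal_exp,
        Real.exp_log (w_pos hx.ne')]
      exact exp_Lw hS ht ht'
    have := eq_of_exp hexp (by
      have e5 : -Us (zt D t - zt D t') - ((Real.log (NUMF.w (t - t')) : ℝ) + Lw D D1 t t') =
          -(Us (zt D t - zt D t') - ((-Real.log (NUMF.w (t - t')) : ℝ) : ℂ)) - Lw D D1 t t' := by
        push_cast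
        ring
      rw [e5]
      refine (norm_sub_le _ _).trans_lt ?_
      rw [norm_neg]
      linarith [hbd t t' ht ht'])
    push_cast
    linear_combination -this
  intro t t' ht ht' hne
  rcases lt_or_gt_of_ne hne with hlt | hlt
  · rw [Up_of_le hlt.le, key t' t ht' ht hlt, hsymm t t' ht ht' hne]
    have e4 : NUMF.w (t' - t) = NUMF.w (t - t') := by rw [← w_neg, neg_sub]
    rw [e4]
  · rw [Up_of_lt hlt, key t t' ht ht' hlt]

/-- **the cross kernel on the paths** -/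
theorem exists_cross : ∃ K : ℝ, 1 ≤ K ∧ ∀ R : ℝ, 1 ≤ R → ∀ (lam : ℝ) (D D1 D' D1' : ℝ → ℂ),
    NUKer.Disp R lam D D1 → NUKer.Disp R lam D' D1' → K * R ^ 6 * lam ≤ 1 →
    Sm2 R D D' ∧ KC R (K * R ^ 6 * lam) (Lg D D') ∧
    ∀ t t', |t| ≤ R → |t'| ≤ R →
      Ux (zt D t - zt D' t') = ((-Real.log (NUMF.g (t - t')) : ℝ) : ℂ) - Lg D D' t t' := by
  obtain ⟨K0, hK0, H0⟩ := exists_Lg
  obtain ⟨K1, hK1, H1⟩ := Ux_incr
  have hl := l_pos
  have hl4 := l4
  refine ⟨K0 + 20 + 2 * K1, by linarith, fun R hR lam D D1 D' D1' h h' hsm => ?_⟩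
  have hR6 : 1 ≤ R ^ 6 := one_le_pow₀ hR
  have hlam : 0 ≤ lam := (norm_nonneg _).trans ((Disp_b h).1 0 (by simp; linarith))
  have hX : 0 ≤ R ^ 6 * lam := by positivity
  have hXl : lam ≤ R ^ 6 * lam := le_mul_of_one_le_left hlam hR6
  have hsm' : (K0 + 20 + 2 * K1) * (R ^ 6 * lam) ≤ 1 := by
    refine le_trans (le_of_eq ?_) hsm
    ring
  have s0 : K0 * (R ^ 6 * lam) ≤ 1 := by nlinarith [mul_nonneg hK1.le hX]
  have s1 : 20 * (R ^ 6 * lam) ≤ 1 := by nlinarith [mul_nonneg hK1.le hX]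
  have s2 : 2 * K1 * (R ^ 6 * lam) ≤ 1 := by nlinarith
  have s1' : lam ≤ 1 / 20 := by linarith
  obtain ⟨hS, hKC⟩ := H0 R hR lam D D1 D' D1' h h' (by linarith)
  refine ⟨hS, hKC.mono (by nlinarith [mul_nonneg hK1.le hX]), ?_⟩
  intro t t' ht ht'
  have hbd : ‖Lg D D' t t'‖ ≤ 1 := (hKC.bound ht ht').trans (by linarith)
  have hbt := (Disp_b h).1 t (by linarith)
  have hbt' := (Disp_b h').1 t' (by linarith)
  have ez : zt D t - zt D' t' = ((t - t' : ℝ) : ℂ) + (D t - D' t') := by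
    unfold zt
    push_cast
    ring
  have him : (zt D t - zt D' t').im = (D t - D' t').im := by
    rw [ez]
    simp
  have h2 := Complex.abs_im_le_norm (D t - D' t')
  have h5 : ‖D t - D' t'‖ ≤ 2 * lam := (norm_sub_le _ _).trans (by linarith)
  have him' : |(zt D t - zt D' t').im| ≤ l / 2 := by rw [him]; linarith
  have hUx := H1 (zt D t - zt D' t') ((t - t' : ℝ) : ℂ) him' (by simp; linarith)
  have ed : zt D t - zt D' t' - ((t - t' : ℝ) : ℂ) = D t - D' t' := by rw [ez]; ring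
  rw [ed, Ux_ofReal] at hUx
  have hUx' : ‖Ux (zt D t - zt D' t') - ((-Real.log (NUMF.g (t - t')) : ℝ) : ℂ)‖ ≤ 1 := by
    refine hUx.trans ?_
    calc K1 * ‖D t - D' t'‖ ≤ K1 * (2 * lam) := by gcongr
      _ ≤ K1 * (2 * (R ^ 6 * lam)) := by gcongr
      _ = 2 * K1 * (R ^ 6 * lam) := by ring
      _ ≤ 1 := s2
  have hexp : Complex.exp (-Ux (zt D t - zt D' t')) =
      Complex.exp ((Real.log (NUMF.g (t - t')) : ℝ) + Lg D D' t t') := by
    rw [exp_Ux (lt_of_le_of_lt him' (by linarith)), Complex.exp_add, ← Complex.ofReal_exp,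
      Real.exp_log (g_pos _)]
    exact exp_Lg hS ht ht'
  have := eq_of_exp hexp (by
    have e5 : -Ux (zt D t - zt D' t') - ((Real.log (NUMF.g (t - t')) : ℝ) + Lg D D' t t') =
        -(Ux (zt D t - zt D' t') - ((-Real.log (NUMF.g (t - t')) : ℝ) : ℂ)) - Lg D D' t t' := by
      push_cast
      ring
    rw [e5]
    refine (norm_sub_le _ _).trans_lt ?_
    rw [norm_neg]
    linarith)
  push_cast
  linear_combination -this

end

end NUAct
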