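import Pool.Agent.NUAct.Sfin

/-!
# Exponential decay of the derivative of the pair potential
-/

set_option autoImplicit false

open MeasureTheory Set Filter Topology Complex

namespace NUAct

open NUMF

noncomputable section

lemma tanh_one {b : ℝ} (hb : b < Real.pi / 2) {w : ℂ} (hw : |w.im| ≤ b) :
    ‖Complex.sinh w / Complex.cosh w - 1‖ ≤ 2 / Real.cos b * Real.exp (-2 * w.re) := by
  have hb0 : 0 ≤ b := (abs_nonneg _).trans hw
  have hcb : 0 < Real.cos b := Real.cos_pos_of_mem_Ioo ⟨by linarith, hb⟩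
  have hc : Real.cos b ≤ Real.cos w.im := by
    rw [← Real.cos_abs w.im]
    exact Real.cos_le_cos_of_nonneg_of_le_pi (abs_nonneg _) (by linarith [Real.pi_pos]) hw
  have hne := cosh_ne (lt_of_le_of_lt hw hb)
  have hn : 0 < ‖Complex.cosh w‖ := norm_pos_iff.2 hne
  have h1 := norm_cosh_sq' w
  have h2 : Real.cos b * Real.cosh w.re ≤ ‖Complex.cosh w‖ := by
    refine abs_le_of_sq_le_sq' ?_ hn.le |>.2
    rw [h1, mul_pow, Real.cosh_sq]
    have h3 : Real.cos b ^ 2 ≤ Real.cos w.im ^ 2 := by gcongr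
    have h4 : Real.cos w.im ^ 2 ≤ 1 := Real.cos_sq_le_one _
    have h5 := sq_nonneg (Real.sinh w.re)
    nlinarith
  have h3 : Real.exp w.re / 2 ≤ Real.cosh w.re := by
    rw [Real.cosh_eq]
    have := Real.exp_pos (-w.re)
    linarith
  have h4 : 0 < Real.cos b * (Real.exp w.re / 2) := by positivity
  have h5 : Real.cos b * (Real.exp w.re / 2) ≤ ‖Complex.cosh w‖ :=
    (mul_le_mul_of_nonneg_left h3 hcb.le).trans h2
  have e : Complex.sinh w / Complex.cosh w - 1 = -Complex.exp (-w) / Complex.cosh w := by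
    rw [div_sub_one hne, Complex.sinh_sub_cosh]
  rw [e, norm_div, norm_neg, Complex.norm_exp, Complex.neg_re]
  calc Real.exp (-w.re) / ‖Complex.cosh w‖ ≤ Real.exp (-w.re) / (Real.cos b * (Real.exp w.re / 2)) := by
        gcongr
    _ = 2 / Real.cos b * Real.exp (-2 * w.re) := by
        have e2 : Real.exp (-2 * w.re) = Real.exp (-w.re) * (Real.exp w.re)⁻¹ := by
          rw [← Real.exp_neg, ← Real.exp_add]
          congr 1
          ring
        rw [e2]
        have := Real.exp_pos w.re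
        field_simp

lemma coth_one {w : ℂ} (h0 : 0 < w.re) :
    ‖Complex.cosh w / Complex.sinh w - 1‖ ≤ (2 + 1 / w.re) * Real.exp (-2 * w.re) := by
  have hs : 0 < Real.sinh w.re := Real.sinh_pos_iff.2 h0
  have h1 := norm_sinh_sq' w
  have h2 : Real.sinh w.re ≤ ‖Complex.sinh w‖ := by
    refine abs_le_of_sq_le_sq' ?_ (norm_nonneg _) |>.2
    rw [h1]
    have := sq_nonneg (Real.sin w.im)
    linarith
  have hn : 0 < ‖Complex.sinh w‖ := lt_of_lt_of_le hs h2
  have hne : Complex.sinh w ≠ 0 := norm_pos_iff.1 hn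
  have e : Complex.cosh w / Complex.sinh w - 1 = Complex.exp (-w) / Complex.sinh w := by
    rw [div_sub_one hne, Complex.cosh_sub_sinh]
  rw [e, norm_div, Complex.norm_exp, Complex.neg_re]
  have hx := w.re
  obtain ⟨x, hxd⟩ : ∃ x, x = w.re := ⟨_, rfl⟩
  rw [← hxd] at h0 hs h2 ⊢
  have h3 : Real.exp (-x) / ‖Complex.sinh w‖ ≤ Real.exp (-x) / Real.sinh x := by gcongr
  refine h3.trans ?_
  rw [div_le_iff₀ hs]
  -- `e^{-x} ≤ (2 + 1/x) e^{-2x} sinh x`, i.e. `2 ≤ (2 + 1/x)(1 - e^{-2x})`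
  have h4 : 1 + 2 * x ≤ Real.exp (2 * x) := by
    have := Real.add_one_le_exp (2 * x)
    linarith
  have e3 : Real.exp (2 * x) = Real.exp x * Real.exp x := by rw [← Real.exp_add]; congr 1; ring
  have e4 : Real.exp (-2 * x) = Real.exp (-x) * Real.exp (-x) := by
    rw [← Real.exp_add]; congr 1; ring
  have e5 : Real.exp x * Real.exp (-x) = 1 := by rw [← Real.exp_add]; simp
  have hp := Real.exp_pos (-x)
  have key : 2 ≤ (2 + 1 / x) * (1 - Real.exp (-x) * Real.exp (-x)) := by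
    have h6 : Real.exp (-x) * Real.exp (-x) ≤ 1 / (1 + 2 * x) := by
      rw [le_div_iff₀ (by linarith)]
      calc Real.exp (-x) * Real.exp (-x) * (1 + 2 * x) ≤
            Real.exp (-x) * Real.exp (-x) * Real.exp (2 * x) := by gcongr
        _ = (Real.exp x * Real.exp (-x)) * (Real.exp x * Real.exp (-x)) := by rw [e3]; ring
        _ = 1 := by rw [e5]; norm_num
    have h7 : (2 + 1 / x) * (1 - 1 / (1 + 2 * x)) = 2 := by
      field_simp
      ring
    have h8 : 0 ≤ 2 + 1 / x := by positivity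
    nlinarith
  calc Real.exp (-x) = Real.exp (-x) * 1 := by ring
    _ ≤ Real.exp (-x) * ((2 + 1 / x) * (1 - Real.exp (-x) * Real.exp (-x)) / 2) := by
        gcongr
        linarith
    _ = (2 + 1 / x) * Real.exp (-2 * x) * Real.sinh x := by
        rw [Real.sinh_eq, e4]
        linear_combination (-(2 + 1 / x) / 2 * Real.exp (-x)) * e5

/-- **decay of the derivative of the pair potential** -/
theorem Ud_dec : ∃ K : ℝ, 0 < K ∧ ∀ z : ℂ, 0 < z.re → |z.im| ≤ l / 2 →
    ‖Ud z‖ ≤ K * (1 + 1 / z.re) * Real.exp (-2 * z.re) := by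
  have hl := l_pos
  have h8 := l8
  have q : ∀ y : ℝ, 0 ≤ y → y ≤ 3 * l → ∃ K : ℝ, 0 < K ∧ ∀ w : ℂ, |w.im| ≤ l / 2 →
      ‖Ty y w - 2‖ ≤ K * Real.exp (-2 * w.re) := by
    intro y hy hy3
    have q1 : l / 2 + y < Real.pi / 2 := by linarith
    have c : 0 < Real.cos (l / 2 + y) := Real.cos_pos_of_mem_Ioo ⟨by linarith, q1⟩
    refine ⟨4 / Real.cos (l / 2 + y), by positivity, fun w hw => ?_⟩
    have h1 := tanh_one q1 (w := w + y * I) (by
      rw [im_add]
      exact (abs_add_le _ _).trans (by rw [abs_of_nonneg hy]; linarith))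
    have h2 := tanh_one q1 (w := w - y * I) (by
      rw [im_sub]
      exact (abs_sub _ _).trans (by rw [abs_of_nonneg hy]; linarith))
    have r1 : (w + y * I).re = w.re := by simp
    have r2 : (w - y * I).re = w.re := by simp
    rw [r1] at h1
    rw [r2] at h2
    unfold Ty
    have e : Complex.sinh (w + y * I) / Complex.cosh (w + y * I) +
        Complex.sinh (w - y * I) / Complex.cosh (w - y * I) - 2 =
        (Complex.sinh (w + y * I) / Complex.cosh (w + y * I) - 1) +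
        (Complex.sinh (w - y * I) / Complex.cosh (w - y * I) - 1) := by ring
    rw [e]
    refine (norm_add_le _ _).trans ?_
    calc _ ≤ 2 / Real.cos (l / 2 + y) * Real.exp (-2 * w.re) +
          2 / Real.cos (l / 2 + y) * Real.exp (-2 * w.re) := add_le_add h1 h2
      _ = _ := by ring
  obtain ⟨K3, k3, b3⟩ := q (3 * l) (by linarith) le_rfl
  obtain ⟨K2, k2, b2⟩ := q (2 * l) (by linarith) (by linarith)
  obtain ⟨K1, k1, b1⟩ := q l (by linarith) (by linarith)
  obtain ⟨K0, k0, b0⟩ := q 0 le_rfl (by linarith)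
  refine ⟨K3 + K2 + 2 * K1 + K0 + 4, by positivity, fun z hz hz' => ?_⟩
  have c3 := b3 z hz'
  have c2 := b2 z hz'
  have c1 := b1 z hz'
  have c0 := b0 z hz'
  have cs := coth_one hz
  have e : Ud z = (Ty (3 * l) z - 2) - (Ty (2 * l) z - 2) + 2 * (Ty l z - 2) - (Ty 0 z - 2) -
      2 * (Complex.cosh z / Complex.sinh z - 1) := by
    unfold Ud
    ring
  rw [e]
  have n1 := norm_sub_le ((Ty (3 * l) z - 2) - (Ty (2 * l) z - 2) + 2 * (Ty l z - 2) -
    (Ty 0 z - 2)) (2 * (Complex.cosh z / Complex.sinh z - 1))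
  have n2 := norm_sub_le ((Ty (3 * l) z - 2) - (Ty (2 * l) z - 2) + 2 * (Ty l z - 2)) (Ty 0 z - 2)
  have n3 := norm_add_le ((Ty (3 * l) z - 2) - (Ty (2 * l) z - 2)) (2 * (Ty l z - 2))
  have n4 := norm_sub_le (Ty (3 * l) z - 2) (Ty (2 * l) z - 2)
  rw [norm_mul, Complex.norm_ofNat] at n1 n3
  have hE := Real.exp_pos (-2 * z.re)
  have hx : 0 < 1 / z.re := by positivity
  obtain ⟨E, hEd⟩ : ∃ E, E = Real.exp (-2 * z.re) := ⟨_, rfl⟩
  rw [← hEd] at c3 c2 c1 c0 cs hE ⊢
  have hxE : 0 < 1 / z.re * E := by positivity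
  have g3 : 0 < K3 * (1 / z.re * E) := by positivity
  have g2 : 0 < K2 * (1 / z.re * E) := by positivity
  have g1 : 0 < K1 * (1 / z.re * E) := by positivity
  have g0 : 0 < K0 * (1 / z.re * E) := by positivity
  have e2 : (K3 + K2 + 2 * K1 + K0 + 4) * (1 + 1 / z.re) * E = K3 * E + K2 * E + 2 * (K1 * E) +
      K0 * E + 4 * E + K3 * (1 / z.re * E) + K2 * (1 / z.re * E) + 2 * (K1 * (1 / z.re * E)) +
      K0 * (1 / z.re * E) + 4 * (1 / z.re * E) := by ring
  rw [e2]
  have e3 : (2 + 1 / z.re) * E = 2 * E + 1 / z.re * E := by ring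
  rw [e3] at cs
  linarith

/-- increments -/
theorem Uc_incr : ∃ K : ℝ, 0 < K ∧ ∀ (x : ℝ) (Δ : ℂ), 0 < x → ‖Δ‖ ≤ x / 2 → ‖Δ‖ ≤ 1 / 10 →
    ‖Uc (x + Δ) - Uc x‖ ≤ K * (1 + 1 / x) * Real.exp (-x) * ‖Δ‖ ∧
    ‖Ud (x + Δ)‖ ≤ K * (1 + 1 / x) * Real.exp (-x) := by
  obtain ⟨K, hK, H⟩ := Ud_dec
  have hl := l_pos
  have hl4 := l4
  refine ⟨2 * K, by positivity, fun x Δ hx h1 h2 => ?_⟩
  have hbd : ∀ w : ℂ, x / 2 ≤ w.re → |w.im| ≤ l / 2 →
      ‖Ud w‖ ≤ 2 * K * (1 + 1 / x) * Real.exp (-x) := by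
    intro w hw hw'
    have hw0 : 0 < w.re := by linarith
    have h3 := H w hw0 hw'
    have h4 : 1 / w.re ≤ 2 / x := by
      rw [div_le_div_iff₀ hw0 hx]
      linarith
    have h5 : Real.exp (-2 * w.re) ≤ Real.exp (-x) := Real.exp_le_exp.2 (by linarith)
    have hxx : 0 < 1 / x := by positivity
    calc ‖Ud w‖ ≤ K * (1 + 1 / w.re) * Real.exp (-2 * w.re) := h3
      _ ≤ K * (1 + 2 / x) * Real.exp (-x) := by gcongr
      _ ≤ K * (2 * (1 + 1 / x)) * Real.exp (-x) := by
          have : 1 + 2 / x ≤ 2 * (1 + 1 / x) := by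
            have : 2 / x = 2 * (1 / x) := by ring
            linarith
          gcongr
      _ = _ := by ring
  have hre : ∀ w : ℂ, ‖w‖ ≤ ‖Δ‖ → x / 2 ≤ ((x : ℂ) + w).re ∧ |((x : ℂ) + w).im| ≤ l / 2 := by
    intro w hw
    have a1 := Complex.abs_re_le_norm w
    have a2 := Complex.abs_im_le_norm w
    have a3 := neg_abs_le w.re
    constructor
    · simp only [Complex.add_re, Complex.ofReal_re]
      linarith
    · simp only [Complex.add_im, Complex.ofReal_im, zero_add]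
      linarith
  constructor
  · have h := Convex.norm_image_sub_le_of_norm_hasDerivWithin_le (f := Uc) (f' := Ud)
      (C := 2 * K * (1 + 1 / x) * Real.exp (-x)) (s := {w : ℂ | x / 2 ≤ w.re ∧ |w.im| ≤ l / 2})
      (x := (x : ℂ)) (y := x + Δ)
      (fun w hw => (hasDerivAt_Uc (by linarith [hw.1]) (lt_of_le_of_lt hw.2 (by linarith))).hasDerivWithinAt)
      (fun w hw => hbd w hw.1 hw.2)
      (convex_HSt' (l / 2) (x / 2))
      (by
        have := hre 0 (by simp)
        simpa using this)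
      (hre Δ le_rfl)
    rwa [add_sub_cancel_left] at h
  · exact hbd _ (hre Δ le_rfl).1 (hre Δ le_rfl).2

end

end NUAct
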