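import Pool.Agent.NUAct.Two

/-!
# Small displacements: Taylor bounds for the density
-/

set_option autoImplicit false

open MeasureTheory Set Filter Topology Complex

namespace NUAct

open NUMF

noncomputable section

/-- a displacement of the line -/
structure Disp (s ε M R : ℝ) (δ δ1 δ2 : ℝ → ℂ) : Prop where
  d0 : ∀ t, HasDerivAt δ (δ1 t) t
  d1 : ∀ t, HasDerivAt δ1 (δ2 t) t
  c2 : Continuous δ2
  e0 : ∀ t, ‖δ t‖ ≤ ε
  e1 : ∀ t, ‖δ1 t‖ ≤ ε
  e2 : ∀ t, ‖δ2 t‖ ≤ ε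
  m0 : ∀ t, s * P t * ‖δ t‖ ≤ M
  m1 : ∀ t, s * P t * ‖δ1 t‖ ≤ M
  m2 : ∀ t, s * P t * ‖δ2 t‖ ≤ M
  supp : ∀ t, R ≤ |t| → δ t = 0 ∧ δ1 t = 0 ∧ δ2 t = 0

variable {s ε M R : ℝ} {δ δ1 δ2 : ℝ → ℂ}

/-- the contour -/
def zt (δ : ℝ → ℂ) (t : ℝ) : ℂ := t + δ t

/-- its derivative -/
def zd (δ1 : ℝ → ℂ) (t : ℝ) : ℂ := 1 + δ1 t

lemma l4 : (1 : ℝ) / 20 ≤ l / 4 := by
  unfold l
  have := Real.pi_gt_three
  linarith

lemma Disp.c1 (D : Disp s ε M R δ δ1 δ2) : Continuous δ1 :=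
  continuous_iff_continuousAt.2 fun t => (D.d1 t).continuousAt

lemma Disp.c0 (D : Disp s ε M R δ δ1 δ2) : Continuous δ :=
  continuous_iff_continuousAt.2 fun t => (D.d0 t).continuousAt

lemma Disp.ε0 (D : Disp s ε M R δ δ1 δ2) : 0 ≤ ε := (norm_nonneg _).trans (D.e0 0)

lemma Disp.path (D : Disp s ε M R δ δ1 δ2) (hε : ε ≤ 1 / 20) :
    Path (l / 4) (1 / 2) 2 (zt δ) (zd δ1) where
  der t := (Complex.ofRealCLM.hasDerivAt (x := t)).add (D.d0 t)
  cont := continuous_const.add D.c1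
  im_le t := by
    have h1 := Complex.abs_im_le_norm (δ t)
    have h2 := D.e0 t
    have h3 := l4
    have e : (zt δ t).im = (δ t).im := by simp [zt]
    rw [e]
    linarith
  dle t := by
    unfold zd
    refine (norm_add_le _ _).trans ?_
    rw [norm_one]
    linarith [D.e1 t]
  c_pos := by norm_num
  c_le := by norm_num
  mono u t hut := by
    have h1 := Convex.norm_image_sub_le_of_norm_hasDerivWithin_le (f := δ) (f' := δ1) (C := ε)
      (s := univ) (x := u) (y := t) (fun x _ => (D.d0 x).hasDerivWithinAt) (fun x _ => D.e1 x)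
      convex_univ (mem_univ _) (mem_univ _)
    rw [Real.norm_eq_abs, abs_of_nonneg (by linarith)] at h1
    have h2 := Complex.abs_re_le_norm (δ t - δ u)
    have h3 := neg_abs_le (δ t - δ u).re
    have e : (zt δ t - zt δ u).re = (t - u) + (δ t - δ u).re := by
      simp only [zt, Complex.sub_re, Complex.add_re, Complex.ofReal_re]
      ring
    rw [e]
    nlinarith
  near t := by
    have e : zt δ t - t = δ t := by unfold zt; ring
    rw [e]
    linarith [D.e0 t]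

lemma Disp.diff (D : Disp s ε M R δ δ1 δ2) (t u : ℝ) : ‖δ t - δ u‖ ≤ ε * |t - u| := by
  have h1 := Convex.norm_image_sub_le_of_norm_hasDerivWithin_le (f := δ) (f' := δ1) (C := ε)
    (s := univ) (x := u) (y := t) (fun x _ => (D.d0 x).hasDerivWithinAt) (fun x _ => D.e1 x)
    convex_univ (mem_univ _) (mem_univ _)
  rwa [Real.norm_eq_abs] at h1

lemma Disp.diff1 (D : Disp s ε M R δ δ1 δ2) (t u : ℝ) : ‖δ1 t - δ1 u‖ ≤ ε * |t - u| := by
  have h1 := Convex.norm_image_sub_le_of_norm_hasDerivWithin_le (f := δ1) (f' := δ2) (C := ε)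
    (s := univ) (x := u) (y := t) (fun x _ => (D.d1 x).hasDerivWithinAt) (fun x _ => D.e2 x)
    convex_univ (mem_univ _) (mem_univ _)
  rwa [Real.norm_eq_abs] at h1

/-! ### Taylor -/

lemma P_near : ∃ C : ℝ, 0 < C ∧ ∀ t x : ℝ, |x - t| ≤ 1 → P x ≤ C * P t := by
  have hsp : 0 < √3 * Real.pi := mul_pos sq3_pos Real.pi_pos
  have h7 : 0 < 3 * √3 * Real.pi := mul_pos (mul_pos three_pos sq3_pos) Real.pi_pos
  refine ⟨32 / (3 * √3 * Real.pi) * Real.exp (8 / 3) * (√3 * Real.pi / 4), by positivity,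
    fun t x hx => ?_⟩
  have h1 := P_le x
  have h2 := le_P t
  have h3 : Real.exp (-(8 / 3) * |x|) ≤ Real.exp (8 / 3) * Real.exp (-(8 / 3) * |t|) := by
    rw [← Real.exp_add]
    refine Real.exp_le_exp.2 ?_
    have h4 : |t| ≤ |x| + |x - t| := by
      have := abs_sub x (x - t)
      have e : x - (x - t) = t := by ring
      rwa [e] at this
    linarith
  have h5 : Real.exp (-(8 / 3) * |t|) ≤ √3 * Real.pi / 4 * P t := by
    calc Real.exp (-(8 / 3) * |t|) =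
          √3 * Real.pi / 4 * (4 / (√3 * Real.pi) * Real.exp (-(8 / 3) * |t|)) := by
          have := hsp.ne'
          have := sq3_pos.ne'
          have := Real.pi_ne_zero
          field_simp
      _ ≤ _ := by gcongr
  calc P x ≤ 32 / (3 * √3 * Real.pi) * Real.exp (-(8 / 3) * |x|) := h1
    _ ≤ 32 / (3 * √3 * Real.pi) * (Real.exp (8 / 3) * (√3 * Real.pi / 4 * P t)) := by
        gcongr
        exact h3.trans (by gcongr)
    _ = _ := by ring

/-- all derivatives up to the third are `O(P t)` near `t` -/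
lemma Pn_bd (n : ℕ) : ∃ C : ℝ, 0 < C ∧ ∀ (t : ℝ) (z : ℂ), ‖z‖ ≤ 1 / 20 →
    ‖iteratedDeriv n Pc (t + z)‖ ≤ C * P t := by
  have hl := l_pos
  obtain ⟨C, hC0, hC⟩ := Pc_deriv_P (b := l / 4) (by linarith) (by linarith) n
  obtain ⟨C', hC'0, hC'⟩ := P_near
  refine ⟨(C + 1) * C', by positivity, fun t z hz => ?_⟩
  have h1 := Complex.abs_im_le_norm z
  have h2 := Complex.abs_re_le_norm z
  have h3 := l4
  have h4 := hC (t + z) (by
    have e : ((t : ℂ) + z).im = z.im := by simp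
    rw [e]; linarith)
  have h5 := hC' t ((t : ℂ) + z).re (by
    have e : ((t : ℂ) + z).re - t = z.re := by simp
    rw [e]; linarith)
  have hp := (P_pos ((t : ℂ) + z).re).le
  have hp' := (P_pos t).le
  calc _ ≤ C * P ((t : ℂ) + z).re := h4
    _ ≤ (C + 1) * (C' * P t) := by
        refine mul_le_mul (by linarith) h5 hp (by linarith)
    _ = _ := by ring

lemma ball_strip {t : ℝ} {w : ℂ} (hw : ‖w - t‖ ≤ 1 / 20) : |w.im| < l := by
  have h1 := Complex.abs_im_le_norm (w - t)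
  have e : (w - (t : ℂ)).im = w.im := by simp
  rw [e] at h1
  have h3 := l4
  have hl := l_pos
  linarith

lemma an_iter (n : ℕ) : ∀ w : ℂ, |w.im| < l → AnalyticAt ℂ (iteratedDeriv n Pc) w := by
  induction n with
  | zero =>
    intro w hw
    rw [iteratedDeriv_zero]
    exact Pc_analyticAt hw
  | succ n ih =>
    intro w hw
    rw [iteratedDeriv_succ]
    exact AnalyticAt.deriv (ih w hw)

lemma hasDerivAt_iter (n : ℕ) {w : ℂ} (hw : |w.im| < l) :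
    HasDerivAt (iteratedDeriv n Pc) (iteratedDeriv (n + 1) Pc w) w := by
  have h1 : AnalyticAt ℂ (iteratedDeriv n Pc) w := an_iter n w hw
  have h2 := h1.differentiableAt.hasDerivAt
  rwa [← iteratedDeriv_succ] at h2

/-- first order -/
lemma tay1 (n : ℕ) : ∃ C : ℝ, 0 < C ∧ ∀ (t : ℝ) (z : ℂ), ‖z‖ ≤ 1 / 20 →
    ‖iteratedDeriv n Pc (t + z) - iteratedDeriv n Pc t‖ ≤ C * P t * ‖z‖ := by
  obtain ⟨C, hC0, hC⟩ := Pn_bd (n + 1)
  refine ⟨C, hC0, fun t z hz => ?_⟩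
  have h1 := Convex.norm_image_sub_le_of_norm_hasDerivWithin_le (f := iteratedDeriv n Pc)
    (f' := iteratedDeriv (n + 1) Pc) (C := C * P t) (s := Metric.closedBall (t : ℂ) (1 / 20))
    (x := (t : ℂ)) (y := t + z)
    (fun w hw => (hasDerivAt_iter n (ball_strip (by simpa [dist_eq_norm] using hw))).hasDerivWithinAt)
    (fun w hw => by
      have := hC t (w - t) (by simpa [dist_eq_norm] using hw)
      rwa [add_sub_cancel] at this)
    (convex_closedBall _ _) (by simp) (by simpa using hz)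
  rwa [add_sub_cancel_left] at h1

/-- second order -/
lemma tay2 (n : ℕ) : ∃ C : ℝ, 0 < C ∧ ∀ (t : ℝ) (z : ℂ), ‖z‖ ≤ 1 / 20 →
    ‖iteratedDeriv n Pc (t + z) - iteratedDeriv n Pc t - iteratedDeriv (n + 1) Pc t * z‖ ≤
      C * P t * ‖z‖ ^ 2 := by
  obtain ⟨C, hC0, hC⟩ := tay1 (n + 1)
  refine ⟨C, hC0, fun t z hz => ?_⟩
  have hp := (P_pos t).le
  have h1 := Convex.norm_image_sub_le_of_norm_hasDerivWithin_le
    (f := fun w => iteratedDeriv n Pc w - iteratedDeriv (n + 1) Pc t * w)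
    (f' := fun w => iteratedDeriv (n + 1) Pc w - iteratedDeriv (n + 1) Pc t)
    (C := C * P t * ‖z‖) (s := Metric.closedBall (t : ℂ) ‖z‖)
    (x := (t : ℂ)) (y := t + z)
    (fun w hw => by
      have hw' : ‖w - t‖ ≤ ‖z‖ := by simpa [dist_eq_norm] using hw
      have h2 := (hasDerivAt_iter n (ball_strip (hw'.trans hz)))
      have h3 := (hasDerivAt_id w).const_mul (iteratedDeriv (n + 1) Pc t)
      rw [mul_one] at h3
      exact (h2.sub h3).hasDerivWithinAt)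
    (fun w hw => by
      have hw' : ‖w - t‖ ≤ ‖z‖ := by simpa [dist_eq_norm] using hw
      have := hC t (w - t) (hw'.trans hz)
      rw [add_sub_cancel] at this
      exact this.trans (mul_le_mul_of_nonneg_left hw' (by positivity)))
    (convex_closedBall _ _) (by simp) (by simp)
  have e : iteratedDeriv n Pc (t + z) - iteratedDeriv (n + 1) Pc t * (t + z) -
      (iteratedDeriv n Pc t - iteratedDeriv (n + 1) Pc t * t) =
      iteratedDeriv n Pc (t + z) - iteratedDeriv n Pc t - iteratedDeriv (n + 1) Pc t * z := by ring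
  rw [e, add_sub_cancel_left] at h1
  calc _ ≤ C * P t * ‖z‖ * ‖z‖ := h1
    _ = _ := by ring

/-! ### the change of the density -/

/-- `s (Pc(ζ) ζ' - P)` -/
def Bf (s : ℝ) (δ δ1 : ℝ → ℂ) (t : ℝ) : ℂ := (s : ℂ) * (Pc (zt δ t) * zd δ1 t) - ((s * P t : ℝ) : ℂ)

/-- `(s P δ)'` -/
def af (s : ℝ) (δ δ1 : ℝ → ℂ) (t : ℝ) : ℂ :=
  (s : ℂ) * (iteratedDeriv 1 Pc t * δ t + Pc t * δ1 t)

/-- derivative of `Bf` -/
def Bf1 (s : ℝ) (δ δ1 δ2 : ℝ → ℂ) (t : ℝ) : ℂ :=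
  (s : ℂ) * (iteratedDeriv 1 Pc (zt δ t) * zd δ1 t * zd δ1 t + Pc (zt δ t) * δ2 t) -
    (s : ℂ) * iteratedDeriv 1 Pc t

/-- derivative of `af` -/
def af1 (s : ℝ) (δ δ1 δ2 : ℝ → ℂ) (t : ℝ) : ℂ :=
  (s : ℂ) * ((iteratedDeriv 2 Pc t * δ t + iteratedDeriv 1 Pc t * δ1 t) +
    (iteratedDeriv 1 Pc t * δ1 t + Pc t * δ2 t))

lemma hasDerivAt_real (n : ℕ) (t : ℝ) : HasDerivAt (fun t : ℝ => iteratedDeriv n Pc (t : ℂ))
    (iteratedDeriv (n + 1) Pc (t : ℂ)) t := by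
  have h1 := (hasDerivAt_iter n (w := (t : ℂ)) (by simpa using l_pos)).comp_ofReal
  exact h1

lemma hasDerivAt_Pt (t : ℝ) : HasDerivAt (fun t : ℝ => (P t : ℂ)) (iteratedDeriv 1 Pc (t : ℂ)) t := by
  have h1 := hasDerivAt_real 0 t
  simp only [iteratedDeriv_zero, zero_add] at h1
  have e : (fun t : ℝ => Pc (t : ℂ)) = fun t : ℝ => (P t : ℂ) := by
    funext x
    exact Pc_ofReal x
  rwa [e] at h1

lemma Disp.im_lt (D : Disp s ε M R δ δ1 δ2) (hε : ε ≤ 1 / 20) (t : ℝ) : |(zt δ t).im| < l := by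
  have := (D.path hε).im_le t
  have := l_pos
  linarith

lemma hasDerivAt_Bf (D : Disp s ε M R δ δ1 δ2) (hε : ε ≤ 1 / 20) (t : ℝ) :
    HasDerivAt (Bf s δ δ1) (Bf1 s δ δ1 δ2 t) t := by
  have hP := D.path hε
  have h0 : HasDerivAt (fun t => Pc (zt δ t)) (iteratedDeriv 1 Pc (zt δ t) * zd δ1 t) t := by
    have h1 := hasDerivAt_iter 0 (D.im_lt hε t)
    simp only [iteratedDeriv_zero, zero_add] at h1
    have h2 := h1.scomp t (hP.der t)
    rw [smul_eq_mul, mul_comm] at h2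
    exact h2
  have h3 : HasDerivAt (zd δ1) (δ2 t) t := (D.d1 t).const_add 1
  have h4 := (h0.mul h3).const_mul (s : ℂ)
  have h5 : HasDerivAt (fun t : ℝ => ((s * P t : ℝ) : ℂ)) ((s : ℂ) * iteratedDeriv 1 Pc t) t := by
    have := (hasDerivAt_Pt t).const_mul (s : ℂ)
    refine this.congr_of_eventuallyEq (Eventually.of_forall fun x => ?_)
    push_cast
    ring
  exact h4.sub h5

lemma hasDerivAt_af (D : Disp s ε M R δ δ1 δ2) (t : ℝ) :
    HasDerivAt (af s δ δ1) (af1 s δ δ1 δ2 t) t := by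
  have h1 := (hasDerivAt_real 1 t).mul (D.d0 t)
  have h2 := (hasDerivAt_real 0 t).mul (D.d1 t)
  simp only [iteratedDeriv_zero, zero_add] at h2
  exact (h1.add h2).const_mul (s : ℂ)

/-- **sizes** -/
theorem dens_bd : ∃ C : ℝ, 0 < C ∧ ∀ (s ε M R : ℝ) (δ δ1 δ2 : ℝ → ℂ), 0 ≤ s → 0 ≤ M →
    Disp s ε M R δ δ1 δ2 → ε ≤ 1 / 20 → ∀ t,
    ‖af s δ δ1 t‖ ≤ C * M ∧ ‖af1 s δ δ1 δ2 t‖ ≤ C * M ∧
    ‖Bf s δ δ1 t - af s δ δ1 t‖ ≤ C * M * ε ∧
    ‖Bf1 s δ δ1 δ2 t - af1 s δ δ1 δ2 t‖ ≤ C * M * ε ∧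
    (R ≤ |t| → af s δ δ1 t = 0 ∧ af1 s δ δ1 δ2 t = 0 ∧ Bf s δ δ1 t = 0 ∧ Bf1 s δ δ1 δ2 t = 0) := by
  obtain ⟨C0, h0, H0⟩ := Pn_bd 0
  obtain ⟨C1, h1, H1⟩ := Pn_bd 1
  obtain ⟨C2, h2, H2⟩ := Pn_bd 2
  obtain ⟨D0, k0, T0⟩ := tay1 0
  obtain ⟨D1, k1, T1⟩ := tay1 1
  obtain ⟨E0, q0, S0⟩ := tay2 0
  obtain ⟨E1, q1, S1⟩ := tay2 1
  simp only [iteratedDeriv_zero, zero_add] at H0 T0 S0
  refine ⟨1 + 3 * (C0 + C1 + C2) + 4 * (D0 + D1 + E0 + E1), by positivity,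
    fun s ε M R δ δ1 δ2 hs hM D hε t => ?_⟩
  have hp := (P_pos t).le
  have hsp : 0 ≤ s * P t := mul_nonneg hs hp
  have hε0 := D.ε0
  have e0 := D.e0 t
  have e1 := D.e1 t
  have e2 := D.e2 t
  have m0 := D.m0 t
  have m1 := D.m1 t
  have m2 := D.m2 t
  have n0 := norm_nonneg (δ t)
  have n1 := norm_nonneg (δ1 t)
  have n2 := norm_nonneg (δ2 t)
  have z0 : ‖(0:ℂ)‖ ≤ 1 / 20 := by simp
  have b0 := H0 t 0 z0
  have b1 := H1 t 0 z0
  have b2 := H2 t 0 z0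
  rw [add_zero] at b0 b1 b2
  have hns : ‖(s : ℂ)‖ = s := by rw [Complex.norm_real, Real.norm_eq_abs, abs_of_nonneg hs]
  -- products
  have pm0 : s * (C0 * P t * ‖δ t‖) ≤ C0 * M := by
    calc s * (C0 * P t * ‖δ t‖) = C0 * (s * P t * ‖δ t‖) := by ring
      _ ≤ _ := by gcongr
  have g0 : ∀ C : ℝ, 0 < C → s * (C * P t * ‖δ t‖) ≤ C * M := fun C hC => by
    calc s * (C * P t * ‖δ t‖) = C * (s * P t * ‖δ t‖) := by ring
      _ ≤ _ := by gcongr
  have g1 : ∀ C : ℝ, 0 < C → s * (C * P t * ‖δ1 t‖) ≤ C * M := fun C hC => by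
    calc s * (C * P t * ‖δ1 t‖) = C * (s * P t * ‖δ1 t‖) := by ring
      _ ≤ _ := by gcongr
  have g2 : ∀ C : ℝ, 0 < C → s * (C * P t * ‖δ2 t‖) ≤ C * M := fun C hC => by
    calc s * (C * P t * ‖δ2 t‖) = C * (s * P t * ‖δ2 t‖) := by ring
      _ ≤ _ := by gcongr
  -- products of two displacements
  have w : ∀ C x y : ℝ, 0 < C → 0 ≤ x → 0 ≤ y → s * P t * x ≤ M → y ≤ ε →
      s * (C * P t * x * y) ≤ C * M * ε := fun C x y hC hx hy hxM hyε => by
    calc s * (C * P t * x * y) = C * ((s * P t * x) * y) := by ring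
      _ ≤ C * (M * ε) := by
          refine mul_le_mul_of_nonneg_left ?_ hC.le
          exact mul_le_mul hxM hyε hy hM
      _ = _ := by ring
  refine ⟨?_, ?_, ?_, ?_, ?_⟩
  · -- `af`
    unfold af
    rw [norm_mul, hns]
    have a1 : ‖iteratedDeriv 1 Pc t * δ t + Pc t * δ1 t‖ ≤ C1 * P t * ‖δ t‖ + C0 * P t * ‖δ1 t‖ := by
      refine (norm_add_le _ _).trans ?_
      rw [norm_mul, norm_mul]
      gcongr
    calc s * ‖iteratedDeriv 1 Pc t * δ t + Pc t * δ1 t‖ ≤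
          s * (C1 * P t * ‖δ t‖ + C0 * P t * ‖δ1 t‖) := by gcongr
      _ = s * (C1 * P t * ‖δ t‖) + s * (C0 * P t * ‖δ1 t‖) := by ring
      _ ≤ C1 * M + C0 * M := add_le_add (g0 C1 h1) (g1 C0 h0)
      _ ≤ _ := by nlinarith
  · unfold af1
    rw [norm_mul, hns]
    have a1 : ‖(iteratedDeriv 2 Pc t * δ t + iteratedDeriv 1 Pc t * δ1 t) +
        (iteratedDeriv 1 Pc t * δ1 t + Pc t * δ2 t)‖ ≤
        (C2 * P t * ‖δ t‖ + C1 * P t * ‖δ1 t‖) + (C1 * P t * ‖δ1 t‖ + C0 * P t * ‖δ2 t‖) := by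
      refine (norm_add_le _ _).trans (add_le_add ?_ ?_)
      · refine (norm_add_le _ _).trans ?_
        rw [norm_mul, norm_mul]
        gcongr
      · refine (norm_add_le _ _).trans ?_
        rw [norm_mul, norm_mul]
        gcongr
    calc _ ≤ s * ((C2 * P t * ‖δ t‖ + C1 * P t * ‖δ1 t‖) +
          (C1 * P t * ‖δ1 t‖ + C0 * P t * ‖δ2 t‖)) := by gcongr
      _ = s * (C2 * P t * ‖δ t‖) + s * (C1 * P t * ‖δ1 t‖) + s * (C1 * P t * ‖δ1 t‖) +
          s * (C0 * P t * ‖δ2 t‖) := by ring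
      _ ≤ C2 * M + C1 * M + C1 * M + C0 * M := by
          have := g0 C2 h2
          have := g1 C1 h1
          have := g2 C0 h0
          linarith
      _ ≤ _ := by nlinarith
  · -- `Bf - af`
    have a1 := S0 t (δ t) (e0.trans hε)
    have a2 := T0 t (δ t) (e0.trans hε)
    have e : Bf s δ δ1 t - af s δ δ1 t = (s : ℂ) * ((Pc (t + δ t) - Pc t - iteratedDeriv 1 Pc t * δ t) +
        (Pc (t + δ t) - Pc t) * δ1 t) := by
      unfold Bf af zt zd
      rw [Complex.ofReal_mul, ← Pc_ofReal]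
      ring
    rw [e, norm_mul, hns]
    have a3 : ‖(Pc (t + δ t) - Pc t - iteratedDeriv 1 Pc t * δ t) + (Pc (t + δ t) - Pc t) * δ1 t‖ ≤
        E0 * P t * ‖δ t‖ ^ 2 + D0 * P t * ‖δ t‖ * ‖δ1 t‖ := by
      refine (norm_add_le _ _).trans (add_le_add a1 ?_)
      rw [norm_mul]
      gcongr
    calc _ ≤ s * (E0 * P t * ‖δ t‖ ^ 2 + D0 * P t * ‖δ t‖ * ‖δ1 t‖) := by gcongr
      _ = s * (E0 * P t * ‖δ t‖ * ‖δ t‖) + s * (D0 * P t * ‖δ t‖ * ‖δ1 t‖) := by ring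
      _ ≤ E0 * M * ε + D0 * M * ε :=
          add_le_add (w E0 _ _ q0 n0 n0 m0 e0) (w D0 _ _ k0 n0 n1 m0 e1)
      _ ≤ _ := by
          have : 0 ≤ M * ε := mul_nonneg hM hε0
          nlinarith
  · have a1 := S1 t (δ t) (e0.trans hε)
    have a2 := T1 t (δ t) (e0.trans hε)
    have a3 := H1 t (δ t) (e0.trans hε)
    have a4 := T0 t (δ t) (e0.trans hε)
    have e : Bf1 s δ δ1 δ2 t - af1 s δ δ1 δ2 t = (s : ℂ) *
        ((((iteratedDeriv 1 Pc (t + δ t) - iteratedDeriv 1 Pc t - iteratedDeriv 2 Pc t * δ t) +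
        2 * ((iteratedDeriv 1 Pc (t + δ t) - iteratedDeriv 1 Pc t) * δ1 t)) +
        iteratedDeriv 1 Pc (t + δ t) * (δ1 t * δ1 t)) + (Pc (t + δ t) - Pc t) * δ2 t) := by
      unfold Bf1 af1 zt zd
      ring
    rw [e, norm_mul, hns]
    have a5 : ‖((((iteratedDeriv 1 Pc (t + δ t) - iteratedDeriv 1 Pc t - iteratedDeriv 2 Pc t * δ t) +
        2 * ((iteratedDeriv 1 Pc (t + δ t) - iteratedDeriv 1 Pc t) * δ1 t)) +
        iteratedDeriv 1 Pc (t + δ t) * (δ1 t * δ1 t)) + (Pc (t + δ t) - Pc t) * δ2 t)‖ ≤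
        E1 * P t * ‖δ t‖ ^ 2 + 2 * (D1 * P t * ‖δ t‖ * ‖δ1 t‖) + C1 * P t * (‖δ1 t‖ * ‖δ1 t‖) +
          D0 * P t * ‖δ t‖ * ‖δ2 t‖ := by
      refine (norm_add_le _ _).trans (add_le_add ((norm_add_le _ _).trans (add_le_add
        ((norm_add_le _ _).trans (add_le_add a1 ?_)) ?_)) ?_)
      · rw [norm_mul, Complex.norm_ofNat, norm_mul]
        gcongr
      · rw [norm_mul, norm_mul]
        gcongr
      · rw [norm_mul]
        gcongr
    calc _ ≤ s * (E1 * P t * ‖δ t‖ ^ 2 + 2 * (D1 * P t * ‖δ t‖ * ‖δ1 t‖) +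
          C1 * P t * (‖δ1 t‖ * ‖δ1 t‖) + D0 * P t * ‖δ t‖ * ‖δ2 t‖) := by gcongr
      _ = s * (E1 * P t * ‖δ t‖ * ‖δ t‖) + 2 * (s * (D1 * P t * ‖δ t‖ * ‖δ1 t‖)) +
          s * (C1 * P t * ‖δ1 t‖ * ‖δ1 t‖) + s * (D0 * P t * ‖δ t‖ * ‖δ2 t‖) := by ring
      _ ≤ E1 * M * ε + 2 * (D1 * M * ε) + C1 * M * ε + D0 * M * ε := by
          have := w E1 _ _ q1 n0 n0 m0 e0
          have := w D1 _ _ k1 n0 n1 m0 e1
          have := w C1 _ _ h1 n1 n1 m1 e1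
          have := w D0 _ _ k0 n0 n2 m0 e2
          linarith
      _ ≤ _ := by
          have : 0 ≤ M * ε := mul_nonneg hM hε0
          nlinarith
  · intro hR
    obtain ⟨f0, f1, f2⟩ := D.supp t hR
    unfold af af1 Bf Bf1 zt zd
    rw [f0, f1, f2]
    simp only [add_zero]
    refine ⟨by ring, by ring, ?_, by ring⟩
    rw [Pc_ofReal]
    push_cast
    ring

end

end NUAct
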