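import Mathlib

/-!
# Deformation of a half line in a half strip

`∫_0^∞ φ(γ(u)) γ'(u) du = ∫_0^∞ φ(u) du` for a path `γ` with `γ(0) = 0`, `Re γ(u) ≥ c u`,
`|Im γ| ≤ b`, `γ(u) - u` bounded, and `φ` analytic in the half strip with an integrable
singularity at `0`.
-/

set_option autoImplicit false

open MeasureTheory Set Filter Topology Complex

namespace NUAct

/-- the half strip -/
def HSt (b : ℝ) : Set ℂ := {z | 0 < z.re ∧ |z.im| ≤ b}

lemma convex_HSt (b : ℝ) : Convex ℝ (HSt b) := by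
  have : HSt b = Complex.reLm ⁻¹' (Ioi 0) ∩ Complex.imLm ⁻¹' (Icc (-b) b) := by
    ext z
    simp [HSt, abs_le]
  rw [this]
  exact ((convex_Ioi _).linear_preimage _).inter ((convex_Icc _ _).linear_preimage _)

lemma convex_HSt' (b a : ℝ) : Convex ℝ {z : ℂ | a ≤ z.re ∧ |z.im| ≤ b} := by
  have : {z : ℂ | a ≤ z.re ∧ |z.im| ≤ b} =
      Complex.reLm ⁻¹' (Ici a) ∩ Complex.imLm ⁻¹' (Icc (-b) b) := by
    ext z
    simp [abs_le]
  rw [this]
  exact ((convex_Ici _).linear_preimage _).inter ((convex_Icc _ _).linear_preimage _)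

/-- a path issued from `0` -/
structure HPath (b B c : ℝ) (γ γ' : ℝ → ℂ) : Prop where
  der : ∀ u, HasDerivAt γ (γ' u) u
  cont : Continuous γ'
  zero : γ 0 = 0
  im_le : ∀ u, |(γ u).im| ≤ b
  dle : ∀ u, ‖γ' u‖ ≤ B
  c_pos : 0 < c
  c_le : c ≤ 1
  re_ge : ∀ u, 0 ≤ u → c * u ≤ (γ u).re
  near : ∀ u, ‖γ u - u‖ ≤ B

variable {b B c : ℝ} {γ γ' : ℝ → ℂ}

lemma HPath.lin (P : HPath b B c γ γ') {u : ℝ} (hu : 0 ≤ u) : ‖γ u - u‖ ≤ (B + 1) * u := by
  have h1 := Convex.norm_image_sub_le_of_norm_hasDerivWithin_le (f := γ) (f' := γ') (C := B)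
    (s := univ) (x := 0) (y := u) (fun x _ => (P.der x).hasDerivWithinAt) (fun x _ => P.dle x)
    convex_univ (mem_univ _) (mem_univ _)
  rw [P.zero, sub_zero, sub_zero, Real.norm_eq_abs, abs_of_nonneg hu] at h1
  have h2 := norm_sub_le (γ u) (u : ℂ)
  rw [Complex.norm_real, Real.norm_eq_abs, abs_of_nonneg hu] at h2
  linarith

lemma HPath.mem (P : HPath b B c γ γ') {u : ℝ} (hu : 0 < u) : γ u ∈ HSt b :=
  ⟨lt_of_lt_of_le (mul_pos P.c_pos hu) (P.re_ge u hu.le), P.im_le u⟩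

theorem half_shift {φ : ℂ → ℂ} {M : ℝ → ℝ} (hb0 : 0 ≤ b)
    (hd : ∀ z, 0 < z.re → |z.im| ≤ b → DifferentiableAt ℂ φ z)
    (hb : ∀ z, 0 < z.re → |z.im| ≤ b → ‖φ z‖ ≤ M z.re) (hMa : AntitoneOn M (Ioi 0))
    (hM : IntegrableOn M (Ioi 0))
    (hM0 : Tendsto (fun u => M u * u) (𝓝[>] 0) (𝓝 0)) (hM1 : Tendsto M atTop (𝓝 0))
    (P : HPath b B c γ γ') :
    IntegrableOn (fun u : ℝ => φ (γ u) * γ' u) (Ioi 0) ∧
    IntegrableOn (fun u : ℝ => φ (u : ℂ)) (Ioi 0) ∧
    ∫ u in Ioi (0:ℝ), φ (γ u) * γ' u = ∫ u in Ioi (0:ℝ), φ (u : ℂ) := by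
  have hB0 : 0 ≤ B := (norm_nonneg _).trans (P.dle 0)
  have hdo : DifferentiableOn ℂ φ (HSt b) := fun z hz => (hd z hz.1 hz.2).differentiableWithinAt
  have cφ : ContinuousOn φ (HSt b) := hdo.continuousOn
  have hr : ∀ u : ℝ, 0 < u → (u : ℂ) ∈ HSt b := fun u hu => ⟨by simpa using hu, by simpa using hb0⟩
  have chp : Continuous γ := continuous_iff_continuousAt.2 fun t => (P.der t).continuousAt
  have hM' : ∀ u : ℝ, 0 < u → 0 ≤ M u := fun u hu =>
    (norm_nonneg _).trans (by simpa using hb (u : ℂ) (by simpa using hu) (by simpa using hb0))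
  have hMc : IntegrableOn (fun u => M (c * u)) (Ioi 0) := by
    have := (integrableOn_Ioi_comp_mul_left_iff M 0 P.c_pos).2 (by rwa [mul_zero])
    exact this
  have c1 : ContinuousOn (fun u : ℝ => φ (γ u) * γ' u) (Ioi 0) := by
    refine ContinuousOn.mul (cφ.comp chp.continuousOn fun u hu => P.mem hu) P.cont.continuousOn
  have c2 : ContinuousOn (fun u : ℝ => φ (u : ℂ)) (Ioi 0) :=
    cφ.comp Complex.continuous_ofReal.continuousOn fun u hu => hr u hu
  have i1 : IntegrableOn (fun u : ℝ => φ (γ u) * γ' u) (Ioi 0) := by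
    refine Integrable.mono' (hMc.mul_const B) (c1.aestronglyMeasurable measurableSet_Ioi) ?_
    filter_upwards [ae_restrict_mem measurableSet_Ioi] with u hu
    rw [norm_mul]
    have hm := P.mem hu
    have e1 := hb (γ u) hm.1 hm.2
    have hcu : 0 < c * u := mul_pos P.c_pos hu
    have e2 : M (γ u).re ≤ M (c * u) := hMa hcu hm.1 (P.re_ge u (le_of_lt hu))
    exact mul_le_mul (e1.trans e2) (P.dle u) (norm_nonneg _) (hM' _ hcu)
  have i2 : IntegrableOn (fun u : ℝ => φ (u : ℂ)) (Ioi 0) := by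
    refine Integrable.mono' hM (c2.aestronglyMeasurable measurableSet_Ioi) ?_
    filter_upwards [ae_restrict_mem measurableSet_Ioi] with u hu
    have e1 := hb (u : ℂ) (by simpa using hu) (by simpa using hb0)
    simpa using e1
  refine ⟨i1, i2, ?_⟩
  obtain ⟨g, hg⟩ := (convex_HSt b).exists_forall_hasDerivWithinAt hdo
  set G : ℝ → ℂ := fun u => g (γ u) - g (u : ℂ) with hG
  have hG0 : G 0 = 0 := by simp [hG, P.zero]
  have dG : ∀ u ∈ Ioi (0:ℝ), HasDerivAt G (φ (γ u) * γ' u - φ (u : ℂ)) u := by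
    intro u hu
    have h1 : HasDerivWithinAt (g ∘ γ) (γ' u • φ (γ u)) (Ioi 0) u :=
      (hg (γ u) (P.mem hu)).scomp u (P.der u).hasDerivWithinAt fun x hx => P.mem hx
    have h2 : HasDerivWithinAt (g ∘ fun u : ℝ => (u : ℂ)) ((1:ℂ) • φ (u : ℂ)) (Ioi 0) u := by
      have h3 : HasDerivAt (fun t : ℝ => (t : ℂ)) 1 u := Complex.ofRealCLM.hasDerivAt
      exact (hg (u : ℂ) (hr u hu)).scomp u h3.hasDerivWithinAt fun x hx => hr x hx
    have h4 := (h1.sub h2).hasDerivAt (Ioi_mem_nhds hu)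
    rw [smul_eq_mul, smul_eq_mul, one_mul, mul_comm] at h4
    exact h4
  have bG : ∀ u : ℝ, 0 < u → ‖G u‖ ≤ M (c * u) * ‖γ u - u‖ := by
    intro u hu
    have hcu : 0 < c * u := mul_pos P.c_pos hu
    have hcu' : c * u ≤ u := by nlinarith [P.c_le]
    set K : Set ℂ := {z | c * u ≤ z.re ∧ |z.im| ≤ b} with hK
    have hKs : K ⊆ HSt b := fun z hz => ⟨lt_of_lt_of_le hcu hz.1, hz.2⟩
    have h1 := Convex.norm_image_sub_le_of_norm_hasDerivWithin_le (f := g) (f' := φ) (C := M (c * u))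
      (s := K) (x := (u : ℂ)) (y := γ u) (fun x hx => (hg x (hKs hx)).mono hKs)
      (fun x hx => by
        have e1 := hb x (hKs hx).1 (hKs hx).2
        exact e1.trans (hMa hcu (hKs hx).1 hx.1)) (convex_HSt' b (c * u))
      ⟨by simpa using hcu', by simpa using hb0⟩ ⟨P.re_ge u hu.le, P.im_le u⟩
    exact h1
  have t0 : ContinuousWithinAt G (Ici 0) 0 := by
    have h1 : Tendsto G (𝓝[>] 0) (𝓝 0) := by
      have h2 : Tendsto (fun u => (B + 1) / c * (M (c * u) * (c * u))) (𝓝[>] 0) (𝓝 0) := by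
        have h3 : Tendsto (fun u : ℝ => c * u) (𝓝[>] 0) (𝓝[>] 0) := by
          refine tendsto_nhdsWithin_iff.2 ⟨?_, ?_⟩
          · have : Tendsto (fun u : ℝ => c * u) (𝓝 0) (𝓝 (c * 0)) :=
              (continuous_const.mul continuous_id).tendsto 0
            rw [mul_zero] at this
            exact this.mono_left nhdsWithin_le_nhds
          · filter_upwards [self_mem_nhdsWithin] with u hu
            exact mul_pos P.c_pos hu
        simpa using (hM0.comp h3).const_mul ((B + 1) / c)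
      refine squeeze_zero_norm' ?_ h2
      filter_upwards [self_mem_nhdsWithin] with u hu
      have h3 := bG u hu
      have h4 := P.lin (le_of_lt hu)
      have hcu : 0 < c * u := mul_pos P.c_pos hu
      have hc := P.c_pos.ne'
      calc ‖G u‖ ≤ M (c * u) * ‖γ u - u‖ := h3
        _ ≤ M (c * u) * ((B + 1) * u) := mul_le_mul_of_nonneg_left h4 (hM' _ hcu)
        _ = _ := by field_simp
    have h5 : ContinuousWithinAt G (Ioi 0) 0 := by
      show Tendsto G (𝓝[>] 0) (𝓝 (G 0))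
      rw [hG0]
      exact h1
    exact continuousWithinAt_Ioi_iff_Ici.1 h5
  have t1 : Tendsto G atTop (𝓝 0) := by
    have h2 : Tendsto (fun u => M (c * u) * B) atTop (𝓝 0) := by
      have h3 : Tendsto (fun u : ℝ => c * u) atTop atTop := tendsto_id.const_mul_atTop P.c_pos
      simpa using (hM1.comp h3).mul_const B
    refine squeeze_zero_norm' ?_ h2
    filter_upwards [eventually_gt_atTop (0:ℝ)] with u hu
    exact (bG u hu).trans (mul_le_mul_of_nonneg_left (P.near u) (hM' _ (mul_pos P.c_pos hu)))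
  have key := integral_Ioi_of_hasDerivAt_of_tendsto t0 dG (i1.sub i2) t1
  rw [hG0, sub_zero, integral_sub i1 i2] at key
  exact sub_eq_zero.1 key

end NUAct
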