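import Pool.Agent.NUAct.FE

/-!
# Majorants and measurability of the kernels on paths
-/

set_option autoImplicit false

open MeasureTheory Set Filter Topology Complex

namespace NUAct

open NUMF

noncomputable section

lemma gr_comp {c B x y : ℝ} (hc : 0 < c) (hx : 0 < x) (h1 : c * x ≤ y) (h2 : y ≤ x + B) :
    gr y ≤ (3 + 2 * |B| + |Real.log c|) * gr x := by
  have hy : 0 < y := lt_of_lt_of_le (by positivity) h1
  have hB := le_abs_self B
  have hB0 := abs_nonneg B
  have hL := abs_nonneg (Real.log c)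
  have hLx := abs_nonneg (Real.log x)
  have h3 : |Real.log y| ≤ y + (|Real.log c| + |Real.log x|) := by
    rw [abs_le]
    constructor
    · have h4 := Real.log_le_log (by positivity) h1
      rw [Real.log_mul hc.ne' hx.ne'] at h4
      have := neg_abs_le (Real.log c)
      have := neg_abs_le (Real.log x)
      linarith
    · have := Real.log_le_sub_one_of_pos hy
      linarith
  unfold gr
  nlinarith [mul_nonneg hB0 hx.le, mul_nonneg hB0 hLx, mul_nonneg hL hx.le, mul_nonneg hL hLx]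

variable {b c B : ℝ} {ζ ζ' : ℝ → ℂ}

lemma Path.re_le (P : Path b c B ζ ζ') (s t : ℝ) : (ζ t - ζ s).re ≤ (t - s) + 2 * B := by
  have h1 := abs_le.1 (P.re_near t)
  have h2 := abs_le.1 (P.re_near s)
  rw [Complex.sub_re]
  linarith

lemma Up_bd {K : ℝ} {Φ : ℂ → ℂ} (hΦ : Kern (2 * b) K Φ) (P : Path b c B ζ ζ') :
    ∀ t t', t ≠ t' → ‖Up Φ ζ t t'‖ ≤ K * (3 + 2 * |2 * B| + |Real.log c|) * gr |t - t'| := by
  have key : ∀ t t', t' < t → ‖Φ (ζ t - ζ t')‖ ≤ K * (3 + 2 * |2 * B| + |Real.log c|) * gr (t - t') := by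
    intro t t' h
    have hx : 0 < t - t' := by linarith
    have h1 := P.mono t' t h.le
    have h2 := P.re_le t' t
    have h3 : 0 < (ζ t - ζ t').re := lt_of_lt_of_le (mul_pos P.c_pos hx) h1
    have h4 := hΦ.bd (ζ t - ζ t') h3 (by
      rw [Complex.sub_im]
      exact (abs_sub _ _).trans (by linarith [P.im_le t, P.im_le t']))
    have h5 := gr_comp P.c_pos hx h1 h2
    calc ‖Φ (ζ t - ζ t')‖ ≤ K * gr (ζ t - ζ t').re := h4
      _ ≤ K * ((3 + 2 * |2 * B| + |Real.log c|) * gr (t - t')) := mul_le_mul_of_nonneg_left h5 hΦ.K0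
      _ = _ := by ring
  intro t t' hne
  rcases lt_or_gt_of_ne hne with h | h
  · have e : |t - t'| = t' - t := by rw [abs_sub_comm, abs_of_pos (by linarith : 0 < t' - t)]
    rw [Up_of_le h.le, e]
    exact key t' t h
  · have e : |t - t'| = t - t' := abs_of_pos (by linarith : 0 < t - t')
    rw [Up_of_lt h, e]
    exact key t t' h

lemma Ly_meas (y : ℝ) : Measurable (Ly y) := by
  unfold Ly
  fun_prop

lemma Us_meas : Measurable Us := by
  unfold Us
  exact ((Ly_meas _).sub (Ly_meas _)).sub (by fun_prop)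

lemma Ux_meas : Measurable Ux := by
  unfold Ux
  exact (((Ly_meas _).const_mul _).sub (Ly_meas _)).sub_const _

lemma Up_meas {Φ : ℂ → ℂ} (hΦ : Measurable Φ) (hζ : Continuous ζ) :
    Measurable fun p : ℝ × ℝ => Up Φ ζ p.1 p.2 := by
  unfold Up
  refine Measurable.ite ?_ ?_ ?_
  · exact measurableSet_lt measurable_snd measurable_fst
  · have := hζ.measurable
    fun_prop
  · have := hζ.measurable
    fun_prop

/-- integrability of kernels against decaying densities -/
lemma ker_int {k : ℝ → ℂ} {f : ℝ → ℂ} {K C κ t : ℝ} (hk : Measurable k) (hf : Measurable f) (hκ : 0 < κ)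
    (hK : ∀ t', t ≠ t' → ‖k t'‖ ≤ K * gr |t - t'|) (hf' : ∀ t', ‖f t'‖ ≤ C * Real.exp (-κ * |t'|)) :
    Integrable fun t' => k t' * f t' := by
  have hC : 0 ≤ C := by
    have := (norm_nonneg _).trans (hf' 0)
    simpa using this
  have hg : Integrable fun t' => Real.exp (-κ * |t - t'|) * gr |t - t'| :=
    (gr_int hκ).comp_sub_left t
  refine (hg.const_mul (K * C * Real.exp (κ * |t|))).mono' (hk.mul hf).aestronglyMeasurable ?_
  have hae : ∀ᵐ t' : ℝ, t' ≠ t := by
    have : {t' : ℝ | ¬ t' ≠ t} = {t} := by ext s; simp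
    rw [ae_iff, this]
    simp
  filter_upwards [hae] with t' ht'
  rw [norm_mul]
  have h1 := hK t' ht'.symm
  have h2 := hf' t'
  have h3 : Real.exp (-κ * |t'|) ≤ Real.exp (κ * |t|) * Real.exp (-κ * |t - t'|) := by
    have := exp_shift hκ.le t (t - t')
    have e : t - (t - t') = t' := by ring
    rwa [e] at this
  have h4 := (norm_nonneg _).trans h1
  calc ‖k t'‖ * ‖f t'‖ ≤ (K * gr |t - t'|) * (C * (Real.exp (κ * |t|) * Real.exp (-κ * |t - t'|))) :=
        mul_le_mul h1 (h2.trans (mul_le_mul_of_nonneg_left h3 hC)) (norm_nonneg _) h4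
    _ = _ := by ring

/-- integrability on the product -/
lemma ker_int2 {k : ℝ × ℝ → ℂ} {f1 f2 : ℝ → ℂ} {K C1 C2 κ : ℝ} (hk : Measurable k)
    (hf1 : Measurable f1) (hf2 : Measurable f2) (hκ : 0 < κ)
    (hK : ∀ t t', t ≠ t' → ‖k (t, t')‖ ≤ K * gr |t - t'|)
    (h1 : ∀ t, ‖f1 t‖ ≤ C1 * Real.exp (-(2 * κ) * |t|))
    (h2 : ∀ t, ‖f2 t‖ ≤ C2 * Real.exp (-(2 * κ) * |t|)) :
    Integrable fun p : ℝ × ℝ => f1 p.1 * k p * f2 p.2 := by
  have hC1 : 0 ≤ C1 := by
    have := (norm_nonneg _).trans (h1 0)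
    simpa using this
  have hC2 : 0 ≤ C2 := by
    have := (norm_nonneg _).trans (h2 0)
    simpa using this
  have hg : Integrable fun p : ℝ × ℝ =>
      Real.exp (-κ * |p.2|) * (Real.exp (-κ * |p.1 - p.2|) * gr |p.1 - p.2|) := by
    have := Integrable.convolution_integrand (ContinuousLinearMap.mul ℝ ℝ) (int_exp_abs' hκ) (gr_int hκ)
    rw [Measure.volume_eq_prod]
    simpa using this
  refine (hg.const_mul (K * C1 * C2)).mono'
    (((hf1.comp measurable_fst).mul hk).mul (hf2.comp measurable_snd)).aestronglyMeasurable ?_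
  have hae : ∀ᵐ p : ℝ × ℝ, p.1 ≠ p.2 := by
    have hm : MeasurableSet {p : ℝ × ℝ | p.1 = p.2} := measurableSet_eq_fun measurable_fst measurable_snd
    rw [ae_iff]
    have e : {p : ℝ × ℝ | ¬ p.1 ≠ p.2} = {p : ℝ × ℝ | p.1 = p.2} := by ext p; simp
    rw [e, Measure.volume_eq_prod, Measure.measure_prod_null hm]
    refine Eventually.of_forall fun t => ?_
    have e2 : Prod.mk t ⁻¹' {p : ℝ × ℝ | p.1 = p.2} = {t} := by
      ext s
      simp [eq_comm]
    show volume (Prod.mk t ⁻¹' {p : ℝ × ℝ | p.1 = p.2}) = 0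
    rw [e2]
    simp
  filter_upwards [hae] with p hp
  rw [norm_mul, norm_mul]
  have a1 := hK p.1 p.2 hp
  have a2 := h1 p.1
  have a3 := h2 p.2
  have a4 := (norm_nonneg _).trans a1
  have a5 : Real.exp (-(2 * κ) * |p.1|) * Real.exp (-(2 * κ) * |p.2|) ≤
      Real.exp (-κ * |p.2|) * Real.exp (-κ * |p.1 - p.2|) := by
    rw [← Real.exp_add, ← Real.exp_add]
    refine Real.exp_le_exp.2 ?_
    have := abs_sub p.1 p.2
    have := abs_nonneg p.1
    nlinarith [mul_nonneg hκ.le (abs_nonneg p.1)]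
  calc ‖f1 p.1‖ * ‖k p‖ * ‖f2 p.2‖ ≤ (C1 * Real.exp (-(2 * κ) * |p.1|)) * (K * gr |p.1 - p.2|) *
        (C2 * Real.exp (-(2 * κ) * |p.2|)) :=
        mul_le_mul (mul_le_mul a2 a1 (norm_nonneg _) (by positivity)) a3 (norm_nonneg _)
          (mul_nonneg (by positivity) a4)
    _ = (C1 * C2 * (K * gr |p.1 - p.2|)) *
        (Real.exp (-(2 * κ) * |p.1|) * Real.exp (-(2 * κ) * |p.2|)) := by ring
    _ ≤ (C1 * C2 * (K * gr |p.1 - p.2|)) * (Real.exp (-κ * |p.2|) * Real.exp (-κ * |p.1 - p.2|)) :=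
        mul_le_mul_of_nonneg_left a5 (mul_nonneg (by positivity) a4)
    _ = _ := by ring

end

end NUAct
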