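import Pool.Agent.NUAct.Half

/-!
# Paths in a strip and deformation of the line; the pair kernel on a path
-/

set_option autoImplicit false

open MeasureTheory Set Filter Topology Complex

namespace NUAct

/-- admissible paths `ζ(t) = t + bounded`, `Re ζ` strictly increasing -/
structure Path (b c B : ℝ) (ζ ζ' : ℝ → ℂ) : Prop where
  der : ∀ t, HasDerivAt ζ (ζ' t) t
  cont : Continuous ζ'
  im_le : ∀ t, |(ζ t).im| ≤ b
  dle : ∀ t, ‖ζ' t‖ ≤ B
  c_pos : 0 < c
  c_le : c ≤ 1
  mono : ∀ s t, s ≤ t → c * (t - s) ≤ (ζ t - ζ s).re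
  near : ∀ t, ‖ζ t - t‖ ≤ B

/-- `∫ f(ζ) dζ` -/
def Dec (b C κ : ℝ) (f : ℂ → ℂ) : Prop :=
  (∀ z, |z.im| ≤ b → DifferentiableAt ℂ f z) ∧ ∀ z, |z.im| ≤ b → ‖f z‖ ≤ C * Real.exp (-κ * |z.re|)

variable {b c B C κ : ℝ} {ζ ζ' : ℝ → ℂ} {f : ℂ → ℂ}

lemma Path.B0 (P : Path b c B ζ ζ') : 0 ≤ B := (norm_nonneg _).trans (P.dle 0)

lemma Path.b0 (P : Path b c B ζ ζ') : 0 ≤ b := (abs_nonneg _).trans (P.im_le 0)

lemma Path.continuous (P : Path b c B ζ ζ') : Continuous ζ :=
  continuous_iff_continuousAt.2 fun t => (P.der t).continuousAt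

lemma Path.re_near (P : Path b c B ζ ζ') (t : ℝ) : |(ζ t).re - t| ≤ B := by
  have h1 := Complex.abs_re_le_norm (ζ t - t)
  simp only [Complex.sub_re, Complex.ofReal_re] at h1
  exact h1.trans (P.near t)

lemma Path.re_ge (P : Path b c B ζ ζ') (t : ℝ) : |t| - B ≤ |(ζ t).re| := by
  have h1 := P.re_near t
  have h2 : |t| ≤ |(ζ t).re - t| + |(ζ t).re| := by
    have := abs_add_le (t - (ζ t).re) (ζ t).re
    rw [abs_sub_comm t _] at this
    simpa using this
  linarith

lemma convex_strip (b : ℝ) : Convex ℝ {z : ℂ | |z.im| ≤ b} := by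
  have : {z : ℂ | |z.im| ≤ b} = Complex.imLm ⁻¹' (Icc (-b) b) := by
    ext z
    simp [abs_le]
  rw [this]
  exact (convex_Icc _ _).linear_preimage _

lemma Dec.C0 (hf : Dec b C κ f) (hb : 0 ≤ b) : 0 ≤ C := by
  have h1 := (norm_nonneg _).trans (hf.2 0 (by simpa using hb))
  simp at h1
  exact h1

lemma int_exp_abs' {κ : ℝ} (hκ : 0 < κ) : Integrable fun y : ℝ => Real.exp (-κ * |y|) := by
  have h1 : IntegrableOn (fun y : ℝ => Real.exp (-κ * |y|)) (Ioi 0) := by
    refine (integrableOn_exp_mul_Ioi (by linarith : -κ < 0) 0).congr_fun (fun y hy => ?_)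
      measurableSet_Ioi
    simp only
    rw [abs_of_pos hy]
  have h2 : IntegrableOn (fun y : ℝ => Real.exp (-κ * |y|)) (Iic 0) := by
    refine (integrableOn_exp_mul_Iic hκ 0).congr_fun (fun y hy => ?_) measurableSet_Iic
    simp only
    rw [abs_of_nonpos hy]
    ring_nf
  have h3 := h2.union h1
  rwa [Iic_union_Ioi, integrableOn_univ] at h3

theorem path_shift (hκ : 0 < κ) (hf : Dec b C κ f) (P : Path b c B ζ ζ') :
    Integrable (fun t : ℝ => f (ζ t) * ζ' t) ∧ Integrable (fun t : ℝ => f (t : ℂ)) ∧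
      ∫ t, f (ζ t) * ζ' t = ∫ t : ℝ, f (t : ℂ) := by
  have hb0 := P.b0
  have hB0 := P.B0
  have hC0 := hf.C0 hb0
  have hdo : DifferentiableOn ℂ f {z : ℂ | |z.im| ≤ b} := fun z hz => (hf.1 z hz).differentiableWithinAt
  have hr : ∀ t : ℝ, |((t : ℂ)).im| ≤ b := fun t => by simpa using hb0
  have c1 : Continuous fun t => f (ζ t) * ζ' t :=
    (hdo.continuousOn.comp_continuous P.continuous fun t => P.im_le t).mul P.cont
  have c2 : Continuous fun t : ℝ => f (t : ℂ) :=
    hdo.continuousOn.comp_continuous Complex.continuous_ofReal hr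
  have bz : ∀ t, ‖f (ζ t)‖ ≤ C * (Real.exp (κ * B) * Real.exp (-κ * |t|)) := by
    intro t
    refine (hf.2 _ (P.im_le t)).trans (mul_le_mul_of_nonneg_left ?_ hC0)
    rw [← Real.exp_add]
    refine Real.exp_le_exp.2 ?_
    have := P.re_ge t
    nlinarith
  have i1 : Integrable fun t : ℝ => f (ζ t) * ζ' t := by
    refine ((int_exp_abs' hκ).const_mul (C * Real.exp (κ * B) * B)).mono' c1.aestronglyMeasurable
      (Eventually.of_forall fun t => ?_)
    rw [norm_mul]
    calc ‖f (ζ t)‖ * ‖ζ' t‖ ≤ (C * (Real.exp (κ * B) * Real.exp (-κ * |t|))) * B :=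
          mul_le_mul (bz t) (P.dle t) (norm_nonneg _) (by positivity)
      _ = _ := by ring
  have i2 : Integrable fun t : ℝ => f (t : ℂ) := by
    refine ((int_exp_abs' hκ).const_mul C).mono' c2.aestronglyMeasurable
      (Eventually.of_forall fun t => ?_)
    simpa using hf.2 (t : ℂ) (hr t)
  refine ⟨i1, i2, ?_⟩
  obtain ⟨g, hg⟩ := (convex_strip b).exists_forall_hasDerivWithinAt hdo
  set G : ℝ → ℂ := fun u => g (ζ u) - g (u : ℂ) with hG
  have dG : ∀ u, HasDerivAt G (f (ζ u) * ζ' u - f (u : ℂ)) u := by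
    intro u
    have h1 := (hg (ζ u) (P.im_le u)).scomp_hasDerivAt u (P.der u) P.im_le
    have h3 : HasDerivAt (fun t : ℝ => (t : ℂ)) 1 u := Complex.ofRealCLM.hasDerivAt
    have h2 := (hg (u : ℂ) (hr u)).scomp_hasDerivAt u h3 hr
    have h4 := h1.sub h2
    rw [smul_eq_mul, smul_eq_mul, one_mul, mul_comm] at h4
    exact h4
  have bG : ∀ u, B ≤ |u| → ‖G u‖ ≤ C * Real.exp (-κ * (|u| - B)) * B := by
    intro u hu
    have key : ∀ K : Set ℂ, Convex ℝ K → (∀ z ∈ K, |z.im| ≤ b ∧ |u| - B ≤ |z.re|) → (u : ℂ) ∈ K →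
        ζ u ∈ K → ‖G u‖ ≤ C * Real.exp (-κ * (|u| - B)) * B := by
      intro K cK hK h1 h2
      have h3 := Convex.norm_image_sub_le_of_norm_hasDerivWithin_le (f := g) (f' := f)
        (C := C * Real.exp (-κ * (|u| - B))) (s := K) (x := (u : ℂ)) (y := ζ u)
        (fun x hx => (hg x (hK x hx).1).mono fun w hw => (hK w hw).1)
        (fun x hx => by
          refine (hf.2 x (hK x hx).1).trans (mul_le_mul_of_nonneg_left ?_ hC0)
          refine Real.exp_le_exp.2 ?_
          have := (hK x hx).2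
          nlinarith) cK h1 h2
      refine h3.trans (mul_le_mul_of_nonneg_left (P.near u) (by positivity))
    have hn := abs_le.1 (P.re_near u)
    rcases le_total 0 u with h0 | h0
    · rw [abs_of_nonneg h0] at hu key ⊢
      refine key {z | u - B ≤ z.re ∧ |z.im| ≤ b} (convex_HSt' b (u - B)) ?_ ?_ ?_
      · intro z hz
        exact ⟨hz.2, hz.1.trans (le_abs_self _)⟩
      · exact ⟨by simp; linarith, hr u⟩
      · exact ⟨by linarith, P.im_le u⟩
    · rw [abs_of_nonpos h0] at hu key ⊢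
      have cK : Convex ℝ {z : ℂ | z.re ≤ u + B ∧ |z.im| ≤ b} := by
        have : {z : ℂ | z.re ≤ u + B ∧ |z.im| ≤ b} =
            Complex.reLm ⁻¹' (Iic (u + B)) ∩ Complex.imLm ⁻¹' (Icc (-b) b) := by
          ext z
          simp [abs_le]
        rw [this]
        exact ((convex_Iic _).linear_preimage _).inter ((convex_Icc _ _).linear_preimage _)
      refine key {z | z.re ≤ u + B ∧ |z.im| ≤ b} cK ?_ ?_ ?_
      · intro z hz
        refine ⟨hz.2, ?_⟩
        have h5 : -z.re ≤ |z.re| := neg_le_abs _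
        have h6 := hz.1
        linarith
      · exact ⟨by simp; linarith, hr u⟩
      · exact ⟨by linarith, P.im_le u⟩
  have hexp : Tendsto (fun x : ℝ => C * Real.exp (-κ * (x - B)) * B) atTop (𝓝 0) := by
    have h1 : Tendsto (fun x : ℝ => -κ * (x - B)) atTop atBot :=
      (tendsto_atTop_add_const_right atTop (-B) tendsto_id).const_mul_atTop_of_neg (by linarith)
    have h2 := ((Real.tendsto_exp_atBot.comp h1).const_mul C).mul_const B
    simpa using h2
  have tt : Tendsto G atTop (𝓝 0) := by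
    refine squeeze_zero_norm' ?_ (hexp.comp tendsto_abs_atTop_atTop)
    filter_upwards [eventually_ge_atTop B] with u hu
    exact bG u (hu.trans (le_abs_self _))
  have tb : Tendsto G atBot (𝓝 0) := by
    refine squeeze_zero_norm' ?_ (hexp.comp tendsto_abs_atBot_atTop)
    filter_upwards [eventually_le_atBot (-B)] with u hu
    exact bG u (by have := neg_le_abs u; linarith)
  have key := integral_of_hasDerivAt_of_tendsto dG (i1.sub i2) tb tt
  rw [sub_zero, integral_sub i1 i2] at key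
  exact sub_eq_zero.1 key

/-! ### the pair kernel on a path -/

/-- the pair kernel -/
noncomputable def Up (Φ : ℂ → ℂ) (ζ : ℝ → ℂ) (t t' : ℝ) : ℂ :=
  if t' < t then Φ (ζ t - ζ t') else Φ (ζ t' - ζ t)

lemma Up_of_lt {Φ : ℂ → ℂ} {t t' : ℝ} (h : t' < t) : Up Φ ζ t t' = Φ (ζ t - ζ t') := if_pos h

lemma Up_of_le {Φ : ℂ → ℂ} {t t' : ℝ} (h : t ≤ t') : Up Φ ζ t t' = Φ (ζ t' - ζ t) :=
  if_neg (not_lt.2 h)

lemma Up_symm (Φ : ℂ → ℂ) (t t' : ℝ) : Up Φ ζ t t' = Up Φ ζ t' t := by
  rcases lt_trichotomy t t' with h | h | h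
  · rw [Up_of_le h.le, Up_of_lt h]
  · rw [h]
  · rw [Up_of_lt h, Up_of_le h.le]

/-- the path seen from `ζ t`, to the right -/
lemma Path.right (P : Path b c B ζ ζ') (t : ℝ) :
    HPath (2 * b) (2 * B) c (fun u => ζ (t + u) - ζ t) (fun u => ζ' (t + u)) where
  der u := by
    have h1 := (P.der (t + u)).scomp u ((hasDerivAt_id u).const_add t)
    rw [one_smul] at h1
    exact h1.sub_const _
  cont := P.cont.comp (continuous_const.add continuous_id)
  zero := by simp
  im_le u := by
    rw [Complex.sub_im]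
    refine (abs_sub _ _).trans ?_
    linarith [P.im_le (t + u), P.im_le t]
  dle u := (P.dle _).trans (by linarith [P.B0])
  c_pos := P.c_pos
  c_le := P.c_le
  re_ge u hu := by
    have := P.mono t (t + u) (by linarith)
    simpa using this
  near u := by
    have e : ζ (t + u) - ζ t - u = (ζ (t + u) - ((t + u : ℝ) : ℂ)) - (ζ t - t) := by
      push_cast; ring
    rw [e]
    refine (norm_sub_le _ _).trans ?_
    linarith [P.near (t + u), P.near t]

/-- the path seen from `ζ t`, to the left -/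
lemma Path.left (P : Path b c B ζ ζ') (t : ℝ) :
    HPath (2 * b) (2 * B) c (fun u => ζ t - ζ (t - u)) (fun u => ζ' (t - u)) where
  der u := by
    have h1 := (P.der (t - u)).scomp u ((hasDerivAt_id u).const_sub t)
    have h2 := h1.const_sub (ζ t)
    simp only [neg_smul, one_smul, neg_neg] at h2
    exact h2
  cont := P.cont.comp (continuous_const.sub continuous_id)
  zero := by simp
  im_le u := by
    rw [Complex.sub_im]
    refine (abs_sub _ _).trans ?_
    linarith [P.im_le (t - u), P.im_le t]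
  dle u := (P.dle _).trans (by linarith [P.B0])
  c_pos := P.c_pos
  c_le := P.c_le
  re_ge u hu := by
    have := P.mono (t - u) t (by linarith)
    simpa using this
  near u := by
    have e : ζ t - ζ (t - u) - u = (ζ t - t) - (ζ (t - u) - ((t - u : ℝ) : ℂ)) := by
      push_cast; ring
    rw [e]
    refine (norm_sub_le _ _).trans ?_
    linarith [P.near (t - u), P.near t]

end NUAct
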