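import Pool.Agent.NUAct.PhiQ

/-!
# Size of the quadratic part of the one body potential on the whole line

`exists_phiQ`: for equal curves `Q = Re ∑ KB` is `C¹` on the line, `|Q|, |Q'| ≤ K M ε W b`,
`∫ (Q² + Q'²) ≤ K b (M ε)²`.
-/

set_option autoImplicit false

open MeasureTheory Set Filter Topology Complex

namespace NUAct

open NUMF NUKer

noncomputable section

lemma V_cosh (x : ℝ) : V x = -Real.log ((Real.cosh (2 * x) - 1) * Real.cosh (2 * x) *
    (Real.cosh (2 * x) + 1) / ((Real.cosh (2 * x) - r) * (Real.cosh (2 * x) + r) ^ 2)) := by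
  have hc : 1 ≤ Real.cosh (2 * x) := Real.one_le_cosh _
  have hr := NUMF.r_pos
  have hr1 := r_lt_one
  have h1 : Real.sinh x ^ 2 = (Real.cosh (2 * x) - 1) / 2 := by
    rw [cosh_two]
    ring
  have h2 : Real.cosh x ^ 2 = (Real.cosh (2 * x) + 1) / 2 := by
    rw [Real.cosh_two_mul, Real.sinh_sq]
    ring
  unfold V w g
  rw [h1, h2]
  set c := Real.cosh (2 * x) with hcd
  have h3 : 0 < c - r := by linarith
  have h4 : 0 < c + r := by linarith
  congr 2
  field_simp
  ring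

/-- exponential decay of `V` -/
lemma V_dec {x : ℝ} (hx : 1 ≤ |x|) : |V x| ≤ 6 * Real.exp (-2 * |x|) := by
  have hr := NUMF.r_pos
  have hr1 := r_lt_one
  have hr2 : r ^ 2 = 1 / 2 := by
    unfold r
    rw [div_pow, Real.sq_sqrt (by norm_num)]
    norm_num
  have hr3 : r ^ 3 = r / 2 := by
    rw [pow_succ, hr2]
    ring
  rw [V_cosh]
  obtain ⟨c, hc⟩ : ∃ c, c = Real.cosh (2 * x) := ⟨_, rfl⟩
  rw [← hc]
  have h1 : Real.exp (2 * |x|) / 2 ≤ c := by
    rw [hc, ← Real.cosh_abs, abs_mul, abs_of_pos (by norm_num : (0:ℝ) < 2), Real.cosh_eq]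
    have := Real.exp_pos (-(2 * |x|))
    linarith
  have h2 : (7 : ℝ) ≤ Real.exp (2 * |x|) := by
    have h3 : Real.exp 2 ≤ Real.exp (2 * |x|) := Real.exp_le_exp.2 (by linarith)
    have h4 : Real.exp 2 = Real.exp 1 * Real.exp 1 := by rw [← Real.exp_add]; norm_num
    have h5 := Real.exp_one_gt_d9
    rw [h4] at h3
    nlinarith
  have hc3 : 3.5 ≤ c := by linarith
  have h3 : 0 < c - r := by linarith
  have h4 : 0 < c + r := by linarith
  have h5 : 0 < c - 1 := by linarith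
  obtain ⟨q, hq⟩ : ∃ q, q = (c - 1) * c * (c + 1) / ((c - r) * (c + r) ^ 2) := ⟨_, rfl⟩
  rw [← hq]
  have hq0 : 0 < q := by rw [hq]; positivity
  have hq1 : q ≤ 1 := by
    rw [hq, div_le_one (by positivity)]
    have h6 : (c - r) * (c + r) ^ 2 - (c - 1) * c * (c + 1) = r * c ^ 2 - r ^ 2 * c - r ^ 3 + c := by
      ring
    have h8 : 0 ≤ r * c ^ 2 - r ^ 2 * c - r ^ 3 + c := by
      rw [hr2, hr3]
      nlinarith
    linarith
  have hlog := Real.log_nonpos hq0.le hq1
  rw [abs_of_nonneg (by linarith)]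
  have h6 : -Real.log q ≤ q⁻¹ - 1 := by
    have := Real.log_le_sub_one_of_pos (inv_pos.2 hq0)
    rwa [Real.log_inv] at this
  have h7 : q⁻¹ - 1 = (r * c ^ 2 - r ^ 2 * c - r ^ 3 + c) / ((c - 1) * c * (c + 1)) := by
    rw [hq]
    have := h3.ne'
    have := h4.ne'
    have := h5.ne'
    have : c ≠ 0 := by linarith
    have : c + 1 ≠ 0 := by linarith
    field_simp
    ring
  have h8 : (r * c ^ 2 - r ^ 2 * c - r ^ 3 + c) / ((c - 1) * c * (c + 1)) ≤ 3 / c := by
    rw [div_le_div_iff₀ (by positivity) (by linarith), hr2, hr3]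
    nlinarith [mul_pos hr (by positivity : 0 < c ^ 2), mul_nonneg (by linarith : 0 ≤ 1 - r)
      (by positivity : 0 ≤ c ^ 3)]
  have h9 : 3 / c ≤ 6 * Real.exp (-2 * |x|) := by
    rw [div_le_iff₀ (by linarith)]
    have e : Real.exp (-2 * |x|) * Real.exp (2 * |x|) = 1 := by
      rw [← Real.exp_add]
      have : -2 * |x| + 2 * |x| = 0 := by ring
      rw [this, Real.exp_zero]
    have hp := Real.exp_pos (-2 * |x|)
    calc (3:ℝ) = 6 * (Real.exp (-2 * |x|) * Real.exp (2 * |x|)) / 2 := by rw [e]; norm_num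
      _ = 6 * Real.exp (-2 * |x|) * (Real.exp (2 * |x|) / 2) := by ring
      _ ≤ _ := by gcongr
  linarith

/-- the weight -/
def Wt (x : ℝ) : ℝ := |V x| + Real.exp (-|x|)

lemma Wt_nonneg (x : ℝ) : 0 ≤ Wt x := by
  unfold Wt
  positivity

lemma Wt_int : Integrable Wt := by
  refine V_integral.1.abs.add ?_
  refine (int_exp_abs' (κ := 1) one_pos).congr (Eventually.of_forall fun x => ?_)
  simp only
  congr 1
  ring

/-- `∫_{|y| ≤ b} Wt (t - y) dy` -/
def Wb (b t : ℝ) : ℝ := ∫ y in Icc (-b) b, Wt (t - y)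

/-- total mass of the weight -/
def Wm : ℝ := ∫ x, Wt x

lemma Wm_nonneg : 0 ≤ Wm := integral_nonneg Wt_nonneg

lemma Wb_nonneg (b t : ℝ) : 0 ≤ Wb b t := integral_nonneg fun _ => Wt_nonneg _

lemma Wb_le (b t : ℝ) : Wb b t ≤ Wm := by
  have h1 : Integrable fun y => Wt (t - y) := Wt_int.comp_sub_left t
  refine (setIntegral_le_integral h1 (Eventually.of_forall fun _ => Wt_nonneg _)).trans ?_
  rw [integral_sub_left_eq_self Wt volume t]
  rfl

lemma Wb_eq (b : ℝ) : Wb b = convolution Wt (indicator (Icc (-b) b) fun _ => (1:ℝ))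
    (ContinuousLinearMap.mul ℝ ℝ) volume := by
  funext t
  rw [convolution_def, ← integral_sub_left_eq_self (fun y => ContinuousLinearMap.mul ℝ ℝ (Wt y)
    (indicator (Icc (-b) b) (fun _ => (1:ℝ)) (t - y))) volume t]
  unfold Wb
  rw [← integral_indicator measurableSet_Icc]
  congr 1
  funext y
  rw [ContinuousLinearMap.mul_apply', sub_sub_cancel]
  by_cases hy : y ∈ Icc (-b) b
  · rw [indicator_of_mem hy, indicator_of_mem hy, mul_one]
  · rw [indicator_of_notMem hy, indicator_of_notMem hy, mul_zero]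

lemma ind_int (b : ℝ) : Integrable (indicator (Icc (-b) b) fun _ => (1:ℝ)) := by
  rw [integrable_indicator_iff measurableSet_Icc]
  simp

lemma Wb_int {b : ℝ} (hb : 0 ≤ b) : Integrable (Wb b) ∧ ∫ t, Wb b t = Wm * (2 * b) := by
  rw [Wb_eq]
  refine ⟨Wt_int.integrable_convolution _ (ind_int b), ?_⟩
  rw [integral_convolution (ContinuousLinearMap.mul ℝ ℝ) Wt_int (ind_int b),
    ContinuousLinearMap.mul_apply', integral_indicator measurableSet_Icc, setIntegral_const,
    Measure.real, Real.volume_Icc, ENNReal.toReal_ofReal (by linarith)]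
  unfold Wm
  rw [smul_eq_mul]
  ring

/-- decay beyond the support -/
lemma Wb_dec {b t : ℝ} (hb : 0 ≤ b) (ht : b + 1 ≤ |t|) :
    Wb b t ≤ 14 * b * Real.exp (-(|t| - b)) := by
  have h1 : ∀ y ∈ Icc (-b) b, Wt (t - y) ≤ 7 * Real.exp (-(|t| - b)) := by
    intro y hy
    have hy' := abs_le.2 hy
    have h2 : |t| - b ≤ |t - y| := by
      have := abs_sub_abs_le_abs_sub t y
      linarith
    have h3 := V_dec (x := t - y) (by linarith)
    have h4 : Real.exp (-2 * |t - y|) ≤ Real.exp (-(|t| - b)) := Real.exp_le_exp.2 (by linarith)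
    have h5 : Real.exp (-|t - y|) ≤ Real.exp (-(|t| - b)) := Real.exp_le_exp.2 (by linarith)
    unfold Wt
    linarith
  have h2 : Wb b t ≤ ∫ y in Icc (-b) b, 7 * Real.exp (-(|t| - b)) := by
    refine setIntegral_mono_on ((Wt_int.comp_sub_left t).integrableOn)
      (integrableOn_const (by simp)) measurableSet_Icc h1
  refine h2.trans (le_of_eq ?_)
  rw [setIntegral_const, Measure.real, Real.volume_Icc, ENNReal.toReal_ofReal (by linarith),
    smul_eq_mul]
  ring

/-- integrals of functions supported in `|y| ≤ b` against the weight -/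
lemma wt_bd {b t A : ℝ} {f : ℝ → ℂ} (hs : ∀ y, b < |y| → f y = 0)
    (hf : ∀ y, y ≠ t → ‖f y‖ ≤ A * Wt (t - y)) : ‖∫ y, f y‖ ≤ A * Wb b t := by
  have e1 : ∫ y, f y = ∫ y in Icc (-b) b, f y := by
    refine (setIntegral_eq_integral_of_forall_compl_eq_zero fun y hy => ?_).symm
    exact hs y (by
      by_contra h3
      exact hy (abs_le.1 (not_lt.1 h3)))
  rw [e1]
  have h1 : ‖∫ y in Icc (-b) b, f y‖ ≤ ∫ y in Icc (-b) b, A * Wt (t - y) := by
    refine norm_integral_le_of_norm_le (((Wt_int.comp_sub_left t).integrableOn).const_mul A) ?_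
    filter_upwards [ae_restrict_of_ae (ae_ne' t)] with y hne
    exact hf y hne
  refine h1.trans (le_of_eq ?_)
  rw [integral_const_mul]
  rfl

lemma wt_re {b t A : ℝ} {f : ℝ → ℂ} (hA : 0 ≤ A) (hs : ∀ y, b < |y| → f y = 0)
    (hf : ∀ y, y ≠ t → |(f y).re| ≤ A * Wt (t - y)) : |(∫ y, f y).re| ≤ A * Wb b t := by
  by_cases hi : Integrable f
  · have e : (∫ y, f y).re = ∫ y, (f y).re := (integral_re hi).symm
    rw [e]
    have h := wt_bd (b := b) (t := t) (A := A) (f := fun y => (((f y).re : ℝ) : ℂ))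
      (fun y hy => by simp [hs y hy])
      (fun y hy => by
        rw [Complex.norm_real, Real.norm_eq_abs]
        exact hf y hy)
    rwa [integral_complex_ofReal, Complex.norm_real, Real.norm_eq_abs] at h
  · rw [integral_undef hi, Complex.zero_re, abs_zero]
    exact mul_nonneg hA (Wb_nonneg _ _)

variable {s ε M b : ℝ} {e η η1 : ℝ → ℝ}

lemma sum_KB_same (s : ℝ) (η η1 : ℝ → ℝ) (Fe : Bool → ℂ → ℂ) (a : Bool) (t : ℝ)
    (hok : (gas s (fun _ => η) (fun _ => η1) Fe).Ok) :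
    ∑ d, (gas s (fun _ => η) (fun _ => η1) Fe).KB a d t =
      ∫ y, Up Uc (zt (iD η)) t y * Bf s (iD η) (iD η1) y := by
  have i1 := hok.iB a a t
  have i2 := hok.iB a (!a) t
  have e0 : ∑ d, (gas s (fun _ => η) (fun _ => η1) Fe).KB a d t =
      (gas s (fun _ => η) (fun _ => η1) Fe).KB a a t +
      (gas s (fun _ => η) (fun _ => η1) Fe).KB a (!a) t := by
    rw [Fintype.sum_bool]
    cases a
    · rw [add_comm]; rfl
    · rfl
  rw [e0]
  unfold Gas.KB
  rw [← integral_add i1 i2]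
  refine integral_congr_ae (Eventually.of_forall fun y => ?_)
  have k1 : (gas s (fun _ => η) (fun _ => η1) Fe).K a a t y = Up Us (zt (iD η)) t y := by
    unfold gas
    rw [two_K, if_pos rfl]
  have k2 : (gas s (fun _ => η) (fun _ => η1) Fe).K a (!a) t y =
      Ux (zt (iD η) t - zt (iD η) y) := by
    unfold gas
    rw [two_K, if_neg (by cases a <;> simp)]
  simp only
  rw [k1, k2, gas_B, gas_B, Up_Uc]
  ring

/-- **the quadratic part of the one body potential on the whole line** -/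
theorem exists_phiQ : ∃ K : ℝ, 1 ≤ K ∧ ∀ {s ε M b : ℝ} {e η η1 : ℝ → ℝ}, 0 ≤ s → 0 ≤ b →
    ε ≤ 1 / 20 → Cur s ε M b e η → (∀ t, HasDerivAt η (η1 t) t) →
    ∀ (Fe : Bool → ℂ → ℂ), (∀ a, Ext (l / 4) (Fe a)) →
    ∃ Q' : ℝ → ℝ, (∀ a t, HasDerivAt (fun t =>
      (∑ d, (gas s (fun _ => η) (fun _ => η1) Fe).KB a d t).re) (Q' t) t) ∧
    (∀ a t, |(∑ d, (gas s (fun _ => η) (fun _ => η1) Fe).KB a d t).re| ≤
      K * (M * ε) * Wb b t) ∧ (∀ t, |Q' t| ≤ K * (M * ε) * Wb b t) := by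
  obtain ⟨C, hC, HB⟩ := exists_BB
  obtain ⟨K, hK, HK⟩ := exists_ker
  obtain ⟨C2, hC2, HD⟩ := dens_bd
  refine ⟨C + K * C + 2 * (K * C2), by
    have h1 : 0 < K * C2 := by positivity
    have h2 : 0 < K * C := by positivity
    linarith, ?_⟩
  intro s ε M b e η η1 hs hb hε hc hη Fe hF
  have BB := HB hs hε hc hη
  obtain ⟨η2, D, o2⟩ := hc.disp' hs hη
  have hM := hc.M0 hs
  have hε0 := hc.ε0
  have hMε : 0 ≤ M * ε := mul_nonneg hM hε0
  have hKC : 0 < K * C := by positivity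
  have hKC2 : 0 < K * C2 := by positivity
  have hok := gas_ok (Fe := Fe) hs hε (fun _ : Bool => hc) (fun _ t => hη t) hF
  have hok' : (gas s (fun _ => η) (fun _ => η1) Fe).Ok := hok
  have hB := hasDerivAt_Bf D hε
  -- the real part of the derivative of `B`
  have r1 : ∀ t, |(Bf1 s (iD η) (iD η1) (iD η2) t).re| ≤ C * (M * ε) := by
    intro t
    obtain ⟨_, f', h1, h2⟩ := BB.re
    have h3 : HasDerivAt (fun t => (Bf s (iD η) (iD η1) t).re)
        (Bf1 s (iD η) (iD η1) (iD η2) t).re t :=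
      Complex.reCLM.hasFDerivAt.comp_hasDerivAt t (hB t)
    rw [← (h1 t).unique h3]
    exact h2.le t
  have n1 : ∀ t, ‖Bf1 s (iD η) (iD η1) (iD η2) t‖ ≤ 2 * (C2 * M) := by
    intro t
    obtain ⟨d1, d2, d3, d4, _⟩ := HD s ε M (b + 1) (iD η) (iD η1) (iD η2) hs hM D hε t
    have e1 : Bf1 s (iD η) (iD η1) (iD η2) t = af1 s (iD η) (iD η1) (iD η2) t +
        (Bf1 s (iD η) (iD η1) (iD η2) t - af1 s (iD η) (iD η1) (iD η2) t) := by ring
    rw [e1]
    refine (norm_add_le _ _).trans ?_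
    have h1 : C2 * M * ε ≤ C2 * M := by
      have : 0 ≤ C2 * M := by positivity
      nlinarith
    linarith
  have z1 : ∀ y, b < |y| → Bf1 s (iD η) (iD η1) (iD η2) y = 0 := by
    intro y hy
    have h1 : Bf s (iD η) (iD η1) =ᶠ[𝓝 y] fun _ => 0 := by
      filter_upwards [(continuous_abs.tendsto y).eventually (lt_mem_nhds hy)] with x hx
      exact BB.supp x hx
    exact (hB y).unique ((hasDerivAt_const y (0:ℂ)).congr_of_eventuallyEq h1)
  -- one product
  have key : ∀ (t y : ℝ) (β : ℂ) (A1 A2 : ℝ), y ≠ t → |β.re| ≤ A1 * (M * ε) → ‖β‖ ≤ A2 * M →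
      0 ≤ A1 → 0 ≤ A2 → |(Up Uc (zt (iD η)) t y * β).re| ≤
        (A1 * (M * ε)) * |V (t - y)| + (K * A2) * (M * ε) * Real.exp (-|t - y|) := by
    intro t y β A1 A2 hne h1 h2 hA1 hA2
    have h3 := (HK D hε t y (Ne.symm hne)).1
    have e1 : (Up Uc (zt (iD η)) t y * β).re = V (t - y) * β.re +
        ((Up Uc (zt (iD η)) t y - (V (t - y) : ℂ)) * β).re := by
      rw [sub_mul, Complex.sub_re, Complex.re_ofReal_mul]
      ring
    rw [e1]
    refine (abs_add_le _ _).trans (add_le_add ?_ ?_)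
    · rw [abs_mul, mul_comm]
      exact mul_le_mul_of_nonneg_right h1 (abs_nonneg _)
    · refine (Complex.abs_re_le_norm _).trans ?_
      rw [norm_mul]
      calc _ ≤ (K * ε * Real.exp (-|t - y|)) * (A2 * M) :=
            mul_le_mul h3 h2 (norm_nonneg _) (by positivity)
        _ = _ := by ring
  refine ⟨fun t => (∫ y, (Q1 (iD η) (iD η1) t y * Bf s (iD η) (iD η1) y +
    Up Uc (zt (iD η)) t y * Bf1 s (iD η) (iD η1) (iD η2) y)).re, fun a t => ?_, fun a t => ?_,
    fun t => ?_⟩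
  · have e1 : (fun t => (∑ d, (gas s (fun _ => η) (fun _ => η1) Fe).KB a d t).re) =
        fun t => (∫ y, Up Uc (zt (iD η)) t y * Bf s (iD η) (iD η1) y).re := by
      funext t
      rw [sum_KB_same s η η1 Fe a t hok']
    rw [e1]
    exact Complex.reCLM.hasFDerivAt.comp_hasDerivAt t (hasDerivAt_KB D hε t)
  · rw [sum_KB_same s η η1 Fe a t hok']
    refine wt_re (by positivity) (fun y hy => by rw [BB.supp y hy, mul_zero]) fun y hy => ?_
    have h1 := key t y (Bf s (iD η) (iD η1) y) C C hy (BB.re.le y) (BB.le y) (by linarith)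
      (by linarith)
    refine h1.trans ?_
    have hV := abs_nonneg (V (t - y))
    have hE := Real.exp_pos (-|t - y|)
    have p1 : 0 ≤ (K * C + 2 * (K * C2)) * (M * ε) * |V (t - y)| := by positivity
    have p2 : 0 ≤ (C + 2 * (K * C2)) * (M * ε) * Real.exp (-|t - y|) := by positivity
    unfold Wt
    nlinarith
  · refine wt_re (by positivity) (fun y hy => by rw [BB.supp y hy, z1 y hy]; simp)
      fun y hy => ?_
    have h1 := key t y (Bf1 s (iD η) (iD η1) (iD η2) y) C (2 * C2) hy (r1 y)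
      ((n1 y).trans (le_of_eq (by ring))) (by linarith) (by positivity)
    have h2 : |(Q1 (iD η) (iD η1) t y * Bf s (iD η) (iD η1) y).re| ≤
        (K * C) * (M * ε) * Real.exp (-|t - y|) := by
      refine (Complex.abs_re_le_norm _).trans ?_
      rw [norm_mul]
      calc _ ≤ (K * ε * Real.exp (-|t - y|)) * (C * M) :=
            mul_le_mul (HK D hε t y (Ne.symm hy)).2 (BB.le y) (norm_nonneg _) (by positivity)
        _ = _ := by ring
    rw [Complex.add_re]
    refine (abs_add_le _ _).trans ((add_le_add h2 h1).trans ?_)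
    have hV := abs_nonneg (V (t - y))
    have hE := Real.exp_pos (-|t - y|)
    have p1 : 0 ≤ (K * C + 2 * (K * C2)) * (M * ε) * |V (t - y)| := by positivity
    have p2 : 0 ≤ C * (M * ε) * Real.exp (-|t - y|) := by positivity
    unfold Wt
    nlinarith

/-- square integrability from the weight bound -/
theorem sq_int {b A : ℝ} (hb : 0 ≤ b) (hA : 0 ≤ A) {f : ℝ → ℝ} (hf : Measurable f)
    (h : ∀ t, |f t| ≤ A * Wb b t) : Integrable (fun t => f t ^ 2) ∧
    ∫ t, f t ^ 2 ≤ 2 * Wm ^ 2 * b * A ^ 2 := by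
  obtain ⟨i1, e1⟩ := Wb_int hb
  have h1 : ∀ t, f t ^ 2 ≤ A ^ 2 * Wm * Wb b t := by
    intro t
    have h2 := h t
    have h3 := Wb_le b t
    have h4 := Wb_nonneg b t
    rw [← sq_abs]
    calc |f t| ^ 2 ≤ (A * Wb b t) ^ 2 := by gcongr
      _ = A ^ 2 * Wb b t * Wb b t := by ring
      _ ≤ A ^ 2 * Wm * Wb b t := by gcongr
  have i2 : Integrable fun t => A ^ 2 * Wm * Wb b t := i1.const_mul _
  have i3 : Integrable fun t => f t ^ 2 := by
    refine i2.mono' (hf.pow_const 2).aestronglyMeasurable (Eventually.of_forall fun t => ?_)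
    rw [Real.norm_eq_abs, abs_of_nonneg (sq_nonneg _)]
    exact h1 t
  refine ⟨i3, ?_⟩
  calc ∫ t, f t ^ 2 ≤ ∫ t, A ^ 2 * Wm * Wb b t := integral_mono i3 i2 h1
    _ = A ^ 2 * Wm * (Wm * (2 * b)) := by rw [integral_const_mul, e1]
    _ = _ := by ring

end

end NUAct
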