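import Pool.Agent.NUAct.Bfin
import Pool.Agent.NUAct.Expo
import Pool.Agent.NUKer.Q

/-!
# The quadratic part of the one body potential

For the two species gas `X = two s ζ ζ' Fe` on the curves `ζ a = id + i η a`:

* `two_field`: `s Re vc (ζ_a t) - ∑ ∫ Re K ρ = Re ∑ KB`
* `exists_Qd`: `Re ∑ KB_ab` and its increments under `id + ξ_a` are small in the class `KC1`.
-/

set_option autoImplicit false

open MeasureTheory Set Filter Topology Complex

namespace NUAct

open NUMF NUKer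

noncomputable section

/-- **the field equation on the curves** (full line) -/
theorem Gas.Ok.field {ι : Type*} [Fintype ι] {X : Gas ι} (h : X.Ok) (a : ι) (t : ℝ) :
    (X.vh a t).re - ∑ b, (∫ t', (X.K a b t t').re * X.ρ b t') = (∑ b, X.KB a b t).re := by
  rw [h.sum_KB a t, Complex.sub_re, Complex.re_sum]
  congr 1
  refine Finset.sum_congr rfl fun b _ => ?_
  have h2 : (∫ t', X.K a b t t' * X.ρ b t').re = ∫ t', (X.K a b t t' * X.ρ b t').re :=
    (integral_re (h.i1 a b t)).symm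
  rw [h2]
  refine integral_congr_ae (Eventually.of_forall fun t' => ?_)
  simp only
  rw [mul_comm (X.K a b t t') _, Complex.re_ofReal_mul]
  ring

theorem two_field {b c B s : ℝ} {ζ ζ' : Bool → ℝ → ℂ} {Fe : Bool → ℂ → ℂ} (hb : b ≤ l / 4)
    (P' : ∀ a, Path b c B (ζ a) (ζ' a)) (hF : ∀ a, Ext b (Fe a)) (a : Bool) (t : ℝ) :
    s * (vc (ζ a t)).re - ∑ d, (∫ y, (if a = d then (Up Us (ζ a) t y).re else
      (Ux (ζ a t - ζ d y)).re) * (s * P y)) = (∑ d, (two s ζ ζ' Fe).KB a d t).re := by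
  have h := (two_ok s hb P' hF).field a t
  rw [← h]
  congr 1
  · show s * (vc (ζ a t)).re = ((s : ℂ) * vc (ζ a t)).re
    rw [Complex.re_ofReal_mul]
  · refine Finset.sum_congr rfl fun d _ => ?_
    refine integral_congr_ae (Eventually.of_forall fun y => ?_)
    simp only [two_K, two_rho]
    split_ifs <;> rfl

/-- pair kernels of a family of displacements -/
def Kf (D : Bool → ℝ → ℂ) (a d : Bool) (t y : ℝ) : ℂ :=
  if a = d then Up Us (zt (D a)) t y else Ux (zt (D a) t - zt (D d) y)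

theorem exists_Qf : ∃ K : ℝ, 1 ≤ K ∧ ∀ R : ℝ, 1 ≤ R → ∀ (lam : ℝ) (D D1 : Bool → ℝ → ℂ),
    (∀ a, NUKer.Disp R lam (D a) (D1 a)) → K * R ^ 7 * lam ≤ 1 →
    ∀ (β : ℝ → ℂ) (N μ : ℝ), Continuous β → (∀ y, R < |y| → β y = 0) → ∫ y, ‖β y‖ ≤ N →
    NUOC.O 3 μ (fun y => (β y).re) → ∀ a d,
    KC1 R (K * R ^ 5 * μ + N * (K * R ^ 7 * lam))
      (fun t => (((∫ y, Kf D a d t y * β y).re : ℝ) : ℂ)) := by
  obtain ⟨K1, hK1, H1⟩ := exists_Q_own
  obtain ⟨K2, hK2, H2⟩ := exists_Q_cross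
  refine ⟨K1 + K2, by linarith, fun R hR lam D D1 hD hsm β N μ hβ hs hN hμ a d => ?_⟩
  have hR0 : (0:ℝ) ≤ R := by linarith
  have hl : 0 ≤ lam := (norm_nonneg _).trans ((Disp_b (hD true)).1 0 (by simp; linarith))
  have hX : 0 ≤ R ^ 7 * lam := by positivity
  have hμ0 := hμ.nonneg
  have hN0 : 0 ≤ N := (integral_nonneg fun _ => norm_nonneg _).trans hN
  have s1 : K1 * R ^ 7 * lam ≤ 1 := by nlinarith
  have s2 : K2 * R ^ 7 * lam ≤ 1 := by nlinarith
  have hmono : ∀ K : ℝ, 0 ≤ K → K ≤ K1 + K2 → K * R ^ 5 * μ + N * (K * R ^ 7 * lam) ≤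
      (K1 + K2) * R ^ 5 * μ + N * ((K1 + K2) * R ^ 7 * lam) := by
    intro K hK0 hK
    gcongr
  by_cases h : a = d
  · subst h
    have := (H1 R hR lam (D a) (D1 a) (hD a) s1 β N μ hβ hs hN hμ).mono
      (hmono K1 (by linarith) (by linarith))
    refine this.congr fun t _ => ?_
    simp only [Kf, if_true]
    rfl
  · have := (H2 R hR lam (D a) (D1 a) (D d) (D1 d) (hD a) (hD d) s2 β N μ hβ hs hN hμ).mono
      (hmono K2 (by linarith) (by linarith))
    refine this.congr fun t _ => ?_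
    simp only [Kf, if_neg h]
    rfl

lemma int_norm_bd {R A : ℝ} (hR : 0 ≤ R) {β : ℝ → ℂ} (hs : ∀ y, R < |y| → β y = 0)
    (hA : ∀ y, ‖β y‖ ≤ A) : ∫ y, ‖β y‖ ≤ 2 * R * A := by
  have h1 : ∫ y, ‖β y‖ = ∫ y in Icc (-R) R, ‖β y‖ := by
    refine (setIntegral_eq_integral_of_forall_compl_eq_zero fun y hy => ?_).symm
    rw [hs y (by
      by_contra h3
      exact hy (abs_le.1 (not_lt.1 h3))), norm_zero]
  have h2 : ‖∫ y in Icc (-R) R, ‖β y‖‖ ≤ A * volume.real (Icc (-R) R) := by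
    refine norm_setIntegral_le_of_norm_le_const (by simp) fun y _ => ?_
    rw [norm_norm]
    exact hA y
  have h3 : volume.real (Icc (-R) R) = 2 * R := by
    rw [Measure.real, Real.volume_Icc, ENNReal.toReal_ofReal (by linarith)]
    ring
  rw [h3] at h2
  rw [h1]
  have h4 := le_abs_self (∫ y in Icc (-R) R, ‖β y‖)
  rw [← Real.norm_eq_abs] at h4
  linarith

lemma Kf_comp {η ξ ξ1 : Bool → ℝ → ℝ} {lam b : ℝ} (hξ : ∀ a, Xi lam b (ξ a) (ξ1 a)) (a d : Bool)
    (t y : ℝ) : Kf (fun a => iD (η a)) a d (t + ξ a t) (y + ξ d y) =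
      Kf (fun a => cD (ξ a) (iD (η a))) a d t y := by
  have e : ∀ (a : Bool) (t : ℝ), zt (iD (η a)) (t + ξ a t) = zt (cD (ξ a) (iD (η a))) t := by
    intro a t
    unfold zt cD
    push_cast
    ring
  unfold Kf
  split_ifs with h
  · subst h
    rcases lt_or_ge y t with h1 | h1
    · have h2 : y + ξ a y < t + ξ a t := (hξ a).mono h1
      rw [Up_of_lt h2, Up_of_lt h1, e, e]
    · have h2 : t + ξ a t ≤ y + ξ a y := (hξ a).mono.monotone h1
      rw [Up_of_le h2, Up_of_le h1, e, e]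
  · rw [e, e]

/-- **smallness of the quadratic part of the one body potential and of its increments** -/
theorem exists_Qd : ∃ K : ℝ, 1 ≤ K ∧ ∀ {s ε M b lam : ℝ} {e η η1 ξ ξ1 : Bool → ℝ → ℝ} (R : ℝ),
    1 ≤ R → b ≤ R → 0 ≤ s → (∀ a, Cur s ε M b (e a) (η a)) →
    (∀ a t, HasDerivAt (η a) (η1 a t) t) → (∀ a, Xi lam b (ξ a) (ξ1 a)) →
    K * R ^ 7 * (ε + lam) ≤ 1 → ∀ (Fe : Bool → ℂ → ℂ) (a d : Bool),
    KC1 R (K * R ^ 8 * (M * ε)) (fun t => (((two s (fun a => zt (iD (η a)))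
      (fun a => zd (iD (η1 a))) Fe).KB a d t).re : ℂ)) ∧
    KC1 R (K * R ^ 8 * (M * (ε + lam))) (fun t => (((two s (fun a => zt (iD (η a)))
      (fun a => zd (iD (η1 a))) Fe).KB a d (t + ξ a t)).re : ℂ)) := by
  obtain ⟨K, hK, H⟩ := exists_Qf
  obtain ⟨C, hC, HB⟩ := exists_BB
  obtain ⟨K3, hK3, H3⟩ := NUR2.exists_disp_cD
  obtain ⟨C4, hC4, H4⟩ := NUOC.O.comp 3
  refine ⟨20 * (K * K3 * C * C4), ?_, ?_⟩
  · have h1 : 1 ≤ K * K3 := by nlinarith
    have h2 : 1 ≤ K * K3 * C := by nlinarith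
    have h3 : 1 ≤ K * K3 * C * C4 := by nlinarith
    linarith
  intro s ε M b lam e η η1 ξ ξ1 R hR hbR hs hc hη hξ hsm Fe a d
  have hR0 : (0:ℝ) ≤ R := by linarith
  have hε := (hc true).ε0
  have hM := (hc true).M0 hs
  have hlam := (hξ true).lam0
  have hlam1 := (hξ true).lam1
  have hR7 : 1 ≤ R ^ 7 := one_le_pow₀ hR
  have hKp : 0 < K := by linarith
  have hK3p : 0 < K3 := by linarith
  have hCp : 0 < C := by linarith
  have hC4p : 0 < C4 := by linarith
  have hCC4 : 1 ≤ C * C4 := by nlinarith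
  have hKK3 : 1 ≤ K * K3 := by nlinarith
  have hsm1 : 20 * (K * K3) * (R ^ 7 * (ε + lam)) ≤ 1 := by
    refine le_trans ?_ hsm
    calc 20 * (K * K3) * (R ^ 7 * (ε + lam)) ≤ 20 * (K * K3) * (R ^ 7 * (ε + lam)) * (C * C4) :=
          le_mul_of_one_le_right (by positivity) hCC4
      _ = _ := by ring
  have hε20 : ε ≤ 1 / 20 := by
    have h1 : ε ≤ R ^ 7 * (ε + lam) := by nlinarith
    have h2 : 0 ≤ R ^ 7 * (ε + lam) := by positivity
    nlinarith
  have hBB : ∀ a, BB s (C * (M * ε)) (C * M) b (η a) (η1 a) := fun a =>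
    HB hs hε20 (hc a) (hη a)
  have hMε : 0 ≤ M * ε := mul_nonneg hM hε
  have hMl : 0 ≤ M * lam := mul_nonneg hM hlam
  constructor
  · have h1 : K * R ^ 7 * ε ≤ 1 := by
      have : 0 ≤ R ^ 7 * lam := by positivity
      have h2 : 0 ≤ R ^ 7 * ε := by positivity
      nlinarith
    have h2 := H R hR ε (fun a => iD (η a)) (fun a => iD (η1 a)) (fun a => (hc a).disp (hη a) R) h1
      (Bf s (iD (η d)) (iD (η1 d))) (2 * R * (C * M)) (C * (M * ε)) (hBB d).cont
      (fun y hy => (hBB d).supp y (lt_of_le_of_lt hbR hy))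
      (int_norm_bd hR0 (fun y hy => (hBB d).supp y (lt_of_le_of_lt hbR hy)) (hBB d).le)
      (hBB d).re a d
    refine (h2.mono ?_).congr fun t _ => rfl
    have h5 : R ^ 5 ≤ R ^ 8 := pow_le_pow_right₀ hR (by norm_num)
    calc K * R ^ 5 * (C * (M * ε)) + 2 * R * (C * M) * (K * R ^ 7 * ε) =
          K * C * (M * ε) * R ^ 5 + 2 * (K * C) * (M * ε) * R ^ 8 := by ring
      _ ≤ K * C * (M * ε) * R ^ 8 + 2 * (K * C) * (M * ε) * R ^ 8 := by gcongr
      _ = 3 * (K * 1 * C * 1) * (R ^ 8 * (M * ε)) := by ring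
      _ ≤ 20 * (K * K3 * C * C4) * (R ^ 8 * (M * ε)) := by gcongr; norm_num
      _ = _ := by ring
  · -- the displacement of the composite path
    have hlam' : lam ≤ 1 := by linarith
    have hD : ∀ a, NUKer.Disp R (lam + K3 * ε) (cD (ξ a) (iD (η a)))
        (cD1 (ξ a) (ξ1 a) (iD (η1 a))) := fun a =>
      H3 (hξ a).o hlam' (hc a).O4 (hξ a).d (hη a) R
    have h0 : lam + K3 * ε ≤ K3 * (ε + lam) := by nlinarith
    have h1 : K * R ^ 7 * (lam + K3 * ε) ≤ 1 := by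
      calc K * R ^ 7 * (lam + K3 * ε) ≤ K * R ^ 7 * (K3 * (ε + lam)) := by gcongr
        _ = K * K3 * (R ^ 7 * (ε + lam)) := by ring
        _ ≤ 1 := by
            have : 0 ≤ K * K3 * (R ^ 7 * (ε + lam)) := by positivity
            linarith
    have h2 := hBB d
    have hβc : Continuous fun y => Bf s (iD (η d)) (iD (η1 d)) (y + ξ d y) *
        ((1 + ξ1 d y : ℝ) : ℂ) :=
      (h2.cont.comp (hξ d).cont).mul (Complex.continuous_ofReal.comp
        (continuous_const.add (hξ d).o1.cont))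
    have hβs : ∀ y, R < |y| → Bf s (iD (η d)) (iD (η1 d)) (y + ξ d y) *
        ((1 + ξ1 d y : ℝ) : ℂ) = 0 := by
      intro y hy
      rw [h2.supp _ ((hξ d).out (lt_of_le_of_lt hbR hy)), zero_mul]
    have hβb : ∀ y, ‖Bf s (iD (η d)) (iD (η1 d)) (y + ξ d y) * ((1 + ξ1 d y : ℝ) : ℂ)‖ ≤
        2 * (C * M) := by
      intro y
      rw [norm_mul, Complex.norm_real, Real.norm_eq_abs, abs_of_pos ((hξ d).pos y)]
      have h3 := h2.le (y + ξ d y)
      have h4 := (abs_le.1 ((hξ d).o1.le y)).2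
      calc ‖Bf s (iD (η d)) (iD (η1 d)) (y + ξ d y)‖ * (1 + ξ1 d y) ≤ (C * M) * 2 :=
            mul_le_mul h3 (by linarith) ((hξ d).pos y).le (by positivity)
        _ = _ := by ring
    have hβr : NUOC.O 3 (16 * (C4 * (C * (M * ε)))) fun y =>
        (Bf s (iD (η d)) (iD (η1 d)) (y + ξ d y) * ((1 + ξ1 d y : ℝ) : ℂ)).re := by
      have a1 := H4 h2.re (((hξ d).o.lower).mono hlam')
      have a2 : NUOC.O 3 2 fun y => 1 + ξ1 d y :=
        ((NUOC.O.const 3 (a := 1) (c := 1) (by simp)).add (hξ d).o1).mono (by linarith)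
      refine ((a1.mul a2).mono (le_of_eq (by ring))).congr fun y => ?_
      rw [mul_comm (Bf s (iD (η d)) (iD (η1 d)) (y + ξ d y)) _, Complex.re_ofReal_mul, mul_comm]
    have h3 := H R hR (lam + K3 * ε) (fun a => cD (ξ a) (iD (η a)))
      (fun a => cD1 (ξ a) (ξ1 a) (iD (η1 a))) hD h1 _ (2 * R * (2 * (C * M)))
      (16 * (C4 * (C * (M * ε)))) hβc hβs (int_norm_bd hR0 hβs hβb) hβr a d
    refine (h3.mono ?_).congr fun t _ => ?_
    · have h5 : R ^ 5 ≤ R ^ 8 := pow_le_pow_right₀ hR (by norm_num)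
      have q1 : 0 ≤ M * (ε + lam) := by nlinarith
      have q2 : M * ε ≤ M * (ε + lam) := by nlinarith
      calc K * R ^ 5 * (16 * (C4 * (C * (M * ε)))) +
            2 * R * (2 * (C * M)) * (K * R ^ 7 * (lam + K3 * ε)) ≤
            K * R ^ 5 * (16 * (C4 * (C * (M * (ε + lam))))) +
            2 * R * (2 * (C * M)) * (K * R ^ 7 * (K3 * (ε + lam))) := by gcongr
        _ = 16 * (K * C * C4) * (M * (ε + lam)) * R ^ 5 +
            4 * (K * K3 * C) * (M * (ε + lam)) * R ^ 8 := by ring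
        _ ≤ 16 * (K * C * C4) * (M * (ε + lam)) * R ^ 8 +
            4 * (K * K3 * C) * (M * (ε + lam)) * R ^ 8 := by gcongr
        _ = (16 * (K * 1 * C * C4) + 4 * (K * K3 * C * 1)) * (R ^ 8 * (M * (ε + lam))) := by ring
        _ ≤ (16 * (K * K3 * C * C4) + 4 * (K * K3 * C * C4)) * (R ^ 8 * (M * (ε + lam))) := by
            gcongr
        _ = _ := by ring
    · have e1 : (two s (fun a => zt (iD (η a))) (fun a => zd (iD (η1 a))) Fe).KB a d (t + ξ a t) =
          ∫ y, Kf (fun a => iD (η a)) a d (t + ξ a t) y * Bf s (iD (η d)) (iD (η1 d)) y := rfl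
      rw [e1, (hξ d).subst fun y => Kf (fun a => iD (η a)) a d (t + ξ a t) y *
        Bf s (iD (η d)) (iD (η1 d)) y]
      congr 2
      refine integral_congr_ae (Eventually.of_forall fun y => ?_)
      simp only
      rw [← Kf_comp hξ a d t y]
      ring

end

end NUAct
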