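import Pool.Agent.NUAct.Path

/-!
# Deformation of the line for a kernel which is singular on the diagonal
-/

set_option autoImplicit false

open MeasureTheory Set Filter Topology Complex

namespace NUAct

/-- the majorant -/
noncomputable def Mj (C κ x : ℝ) : ℝ := C * ((1 + x ^ (-(1 / 2) : ℝ)) * Real.exp (-κ * x))

variable {C κ : ℝ}

lemma Mj_anti (hC : 0 ≤ C) (hκ : 0 ≤ κ) : AntitoneOn (Mj C κ) (Ioi 0) := by
  intro x hx y hy hxy
  have hx' : (0:ℝ) < x := hx
  have hy' : (0:ℝ) < y := hy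
  unfold Mj
  refine mul_le_mul_of_nonneg_left ?_ hC
  refine mul_le_mul ?_ ?_ (Real.exp_pos _).le (by positivity)
  · have := Real.rpow_le_rpow_of_nonpos hx' hxy (by norm_num : (-(1 / 2) : ℝ) ≤ 0)
    linarith
  · refine Real.exp_le_exp.2 ?_
    nlinarith

lemma Mj_int (hκ : 0 < κ) : IntegrableOn (Mj C κ) (Ioi 0) := by
  have h1 := integrableOn_exp_mul_Ioi (by linarith : -κ < 0) 0
  have h2 := integrableOn_rpow_mul_exp_neg_mul_rpow (s := -(1 / 2)) (p := 1) (b := κ) (by norm_num)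
    one_pos hκ
  have h3 := (h1.add h2).const_mul C
  refine Integrable.congr h3 (Eventually.of_forall fun x => ?_)
  simp only [Pi.add_apply, Real.rpow_one, Mj]
  ring

lemma Mj_zero : Tendsto (fun u => Mj C κ u * u) (𝓝[>] 0) (𝓝 0) := by
  have e : ∀ u ∈ Ioi (0:ℝ), C * ((u + u ^ (1 / 2 : ℝ)) * Real.exp (-κ * u)) = Mj C κ u * u := by
    intro u hu
    have hu' : (0:ℝ) < u := hu
    unfold Mj
    have : u ^ (1 / 2 : ℝ) = u ^ (-(1 / 2) : ℝ) * u := by
      conv_rhs => rw [← Real.rpow_add_one hu'.ne']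
      norm_num
    rw [this]
    ring
  have hc : Continuous fun u : ℝ => C * ((u + u ^ (1 / 2 : ℝ)) * Real.exp (-κ * u)) := by
    refine continuous_const.mul ((continuous_id.add ?_).mul (by fun_prop))
    exact Real.continuous_rpow_const (by norm_num)
  have h1 := hc.tendsto 0
  have h0 : C * (((0:ℝ) + (0:ℝ) ^ (1 / 2 : ℝ)) * Real.exp (-κ * 0)) = 0 := by
    rw [Real.zero_rpow (by norm_num)]
    ring
  rw [h0] at h1
  refine (h1.mono_left nhdsWithin_le_nhds).congr' ?_
  filter_upwards [self_mem_nhdsWithin] with u hu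
  exact e u hu

lemma Mj_top (hκ : 0 < κ) : Tendsto (Mj C κ) atTop (𝓝 0) := by
  have h1 : Tendsto (fun x : ℝ => Real.exp (-κ * x)) atTop (𝓝 0) :=
    Real.tendsto_exp_atBot.comp (tendsto_id.const_mul_atTop_of_neg (by linarith))
  have h2 : Tendsto (fun x : ℝ => x ^ (-(1 / 2) : ℝ)) atTop (𝓝 0) :=
    tendsto_rpow_neg_atTop (by norm_num)
  have h3 := ((h2.const_add 1).mul h1).const_mul C
  rw [mul_zero, mul_zero] at h3
  exact h3

/-- growth of the kernels -/
noncomputable def gr (x : ℝ) : ℝ := 1 + x + |Real.log x|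

lemma gr_nonneg {x : ℝ} (hx : 0 < x) : 0 ≤ gr x := by
  unfold gr
  positivity

lemma gr_le {x : ℝ} (hx : 0 < x) (hκ : 0 < κ) :
    gr x * Real.exp (-κ * x) ≤ Mj (2 + 4 / κ) (κ / 2) x := by
  have hr : 0 < x ^ (-(1 / 2) : ℝ) := Real.rpow_pos_of_pos hx _
  have h1 : |Real.log x| ≤ 2 * x ^ (-(1 / 2) : ℝ) + x := by
    have a1 : Real.log x ≤ x - 1 := Real.log_le_sub_one_of_pos hx
    have a2 : -Real.log x ≤ 2 * x ^ (-(1 / 2) : ℝ) := by
      have a3 : Real.log (x ^ (-(1 / 2) : ℝ)) ≤ x ^ (-(1 / 2) : ℝ) - 1 :=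
        Real.log_le_sub_one_of_pos hr
      rw [Real.log_rpow hx] at a3
      linarith
    rw [abs_le]
    constructor <;> linarith
  have h2 : x ≤ 2 / κ * Real.exp (κ / 2 * x) := by
    have h3 := Real.add_one_le_exp (κ / 2 * x)
    calc x = 2 / κ * (κ / 2 * x) := by field_simp
      _ ≤ _ := by gcongr; linarith
  have h4 : Real.exp (-κ * x) = Real.exp (-(κ / 2) * x) * Real.exp (-(κ / 2) * x) := by
    rw [← Real.exp_add]; congr 1; ring
  have h5 : Real.exp (-(κ / 2) * x) ≤ 1 := by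
    rw [Real.exp_le_one_iff]
    nlinarith
  have h6 : 0 < Real.exp (-(κ / 2) * x) := Real.exp_pos _
  have h7 : x * Real.exp (-(κ / 2) * x) ≤ 2 / κ := by
    calc x * Real.exp (-(κ / 2) * x) ≤ (2 / κ * Real.exp (κ / 2 * x)) * Real.exp (-(κ / 2) * x) := by
          gcongr
      _ = 2 / κ := by rw [mul_assoc, ← Real.exp_add]; simp
  unfold gr Mj
  rw [h4]
  have hg : 1 + x + |Real.log x| ≤ 1 + 2 * x + 2 * x ^ (-(1 / 2) : ℝ) := by linarith
  have h8 : 0 < 4 / κ := by positivity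
  calc (1 + x + |Real.log x|) * (Real.exp (-(κ / 2) * x) * Real.exp (-(κ / 2) * x))
      ≤ (1 + 2 * x + 2 * x ^ (-(1 / 2) : ℝ)) *
        (Real.exp (-(κ / 2) * x) * Real.exp (-(κ / 2) * x)) := by gcongr
    _ = ((1 + 2 * x ^ (-(1 / 2) : ℝ)) * Real.exp (-(κ / 2) * x) +
          2 * (x * Real.exp (-(κ / 2) * x))) * Real.exp (-(κ / 2) * x) := by ring
    _ ≤ ((1 + 2 * x ^ (-(1 / 2) : ℝ)) * 1 + 2 * (2 / κ)) * Real.exp (-(κ / 2) * x) := by gcongr
    _ ≤ ((2 + 4 / κ) * (1 + x ^ (-(1 / 2) : ℝ))) * Real.exp (-(κ / 2) * x) := by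
        refine mul_le_mul_of_nonneg_right ?_ h6.le
        have : 0 < 4 / κ * x ^ (-(1 / 2) : ℝ) := by positivity
        have e : 2 * (2 / κ) = 4 / κ := by ring
        rw [e]
        nlinarith
    _ = _ := by ring

variable {b c B K : ℝ} {ζ ζ' : ℝ → ℂ} {f Φ : ℂ → ℂ}

/-- kernels: analytic in the half strip, of growth `gr` -/
structure Kern (b K : ℝ) (Φ : ℂ → ℂ) : Prop where
  diff : ∀ z, 0 < z.re → |z.im| ≤ b → DifferentiableAt ℂ Φ z
  bd : ∀ z, 0 < z.re → |z.im| ≤ b → ‖Φ z‖ ≤ K * gr z.re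
  K0 : 0 ≤ K

lemma right_bound (hκ : 0 < κ) (hC : 0 ≤ C) (hf : ∀ z : ℂ, |z.im| ≤ 3 * b → ‖f z‖ ≤ C * Real.exp (-κ * |z.re|))
    (hΦ : Kern (2 * b) K Φ) {z0 : ℂ} {z : ℂ} (h1 : 0 < z.re) (h2 : |z.im| ≤ 2 * b)
    {w : ℂ} (hw : |w.im| ≤ 3 * b) (hwr : z.re - |z0.re| ≤ |w.re|) :
    ‖f w * Φ z‖ ≤ Mj (C * Real.exp (κ * |z0.re|) * K * (2 + 4 / κ)) (κ / 2) z.re := by
  rw [norm_mul]
  have a1 := hf w hw
  have a2 : Real.exp (-κ * |w.re|) ≤ Real.exp (κ * |z0.re|) * Real.exp (-κ * z.re) := by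
    rw [← Real.exp_add]
    refine Real.exp_le_exp.2 ?_
    nlinarith
  have a3 := hΦ.bd z h1 h2
  have a4 := gr_le h1 hκ
  have hK := hΦ.K0
  have hg := gr_nonneg h1
  calc ‖f w‖ * ‖Φ z‖ ≤ (C * (Real.exp (κ * |z0.re|) * Real.exp (-κ * z.re))) * (K * gr z.re) := by
        refine mul_le_mul (a1.trans (mul_le_mul_of_nonneg_left a2 hC)) a3 (norm_nonneg _) (by positivity)
    _ = (C * Real.exp (κ * |z0.re|) * K) * (gr z.re * Real.exp (-κ * z.re)) := by ring
    _ ≤ (C * Real.exp (κ * |z0.re|) * K) * Mj (2 + 4 / κ) (κ / 2) z.re := by gcongr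
    _ = _ := by unfold Mj; ring

lemma mp_sub (t : ℝ) : MeasurePreserving (fun u : ℝ => t - u) := by
  have h := (measurePreserving_add_left volume t).comp (Measure.measurePreserving_neg (volume : Measure ℝ))
  have e : (fun u : ℝ => t - u) = (fun x => t + x) ∘ Neg.neg := by
    funext u
    simp [sub_eq_add_neg]
  rw [e]
  exact h

/-- **deformation with a singular kernel** -/
theorem sing_shift (hκ : 0 < κ) (hC : 0 ≤ C)
    (hfd : ∀ z : ℂ, |z.im| ≤ 3 * b → DifferentiableAt ℂ f z)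
    (hf : ∀ z : ℂ, |z.im| ≤ 3 * b → ‖f z‖ ≤ C * Real.exp (-κ * |z.re|))
    (hΦ : Kern (2 * b) K Φ) (P : Path b c B ζ ζ') (t : ℝ) :
    Integrable (fun t' => f (ζ t') * ζ' t' * Up Φ ζ t t') ∧
    IntegrableOn (fun u : ℝ => f (ζ t + u) * Φ u) (Ioi 0) ∧
    IntegrableOn (fun u : ℝ => f (ζ t - u) * Φ u) (Ioi 0) ∧
    ∫ t', f (ζ t') * ζ' t' * Up Φ ζ t t' =
      (∫ u in Ioi (0:ℝ), f (ζ t + u) * Φ u) + ∫ u in Ioi (0:ℝ), f (ζ t - u) * Φ u := by
  have hb0 := P.b0
  set z0 := ζ t with hz0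
  have h0 : |z0.im| ≤ b := P.im_le t
  set C' := C * Real.exp (κ * |z0.re|) * K * (2 + 4 / κ) with hC'
  have hK := hΦ.K0
  have hC'0 : 0 ≤ C' := by positivity
  have hκ2 : 0 < κ / 2 := by positivity
  -- the right half
  have R := half_shift (φ := fun z => f (z0 + z) * Φ z) (M := Mj C' (κ / 2)) (by linarith : 0 ≤ 2 * b)
    (fun z h1 h2 => by
      refine DifferentiableAt.mul ?_ (hΦ.diff z h1 h2)
      have e : |(z0 + z).im| ≤ 3 * b := by
        rw [Complex.add_im]
        exact (abs_add_le _ _).trans (by linarith)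
      exact (hfd _ e).comp z ((differentiableAt_const _).add differentiableAt_id))
    (fun z h1 h2 => by
      refine right_bound hκ hC hf hΦ h1 h2 ?_ ?_
      · rw [Complex.add_im]
        exact (abs_add_le _ _).trans (by linarith)
      · rw [Complex.add_re]
        have a1 : z.re ≤ |z.re| := le_abs_self _
        have a2 : |z.re| ≤ |z0.re + z.re| + |z0.re| := by
          have := abs_sub (z0.re + z.re) z0.re
          simpa using this
        linarith)
    (Mj_anti hC'0 hκ2.le) (Mj_int hκ2) Mj_zero (Mj_top hκ2) (P.right t)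
  have L := half_shift (φ := fun z => f (z0 - z) * Φ z) (M := Mj C' (κ / 2)) (by linarith : 0 ≤ 2 * b)
    (fun z h1 h2 => by
      refine DifferentiableAt.mul ?_ (hΦ.diff z h1 h2)
      have e : |(z0 - z).im| ≤ 3 * b := by
        rw [Complex.sub_im]
        exact (abs_sub _ _).trans (by linarith)
      exact (hfd _ e).comp z ((differentiableAt_const _).sub differentiableAt_id))
    (fun z h1 h2 => by
      refine right_bound hκ hC hf hΦ h1 h2 ?_ ?_
      · rw [Complex.sub_im]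
        exact (abs_sub _ _).trans (by linarith)
      · rw [Complex.sub_re]
        have a1 : z.re ≤ |z.re| := le_abs_self _
        have a2 : |z.re| ≤ |z0.re - z.re| + |z0.re| := by
          have := abs_sub z0.re (z0.re - z.re)
          have e : z0.re - (z0.re - z.re) = z.re := by ring
          rw [e] at this
          linarith
        linarith)
    (Mj_anti hC'0 hκ2.le) (Mj_int hκ2) Mj_zero (Mj_top hκ2) (P.left t)
  beta_reduce at R L
  obtain ⟨r1, r2, r3⟩ := R
  obtain ⟨l1, l2, l3⟩ := L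
  -- the two halves of the integral
  set g : ℝ → ℂ := fun t' => f (ζ t') * ζ' t' * Up Φ ζ t t' with hg
  have er : ∀ u ∈ Ioi (0:ℝ), g (t + u) =
      f (z0 + (ζ (t + u) - z0)) * Φ (ζ (t + u) - z0) * ζ' (t + u) := by
    intro u hu
    have hu' : (0:ℝ) < u := hu
    rw [hg]
    simp only
    rw [Up_of_le (by linarith)]
    rw [show z0 + (ζ (t + u) - z0) = ζ (t + u) by ring]
    ring
  have el : ∀ u ∈ Ioi (0:ℝ), g (t - u) =
      f (z0 - (z0 - ζ (t - u))) * Φ (z0 - ζ (t - u)) * ζ' (t - u) := by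
    intro u hu
    have hu' : (0:ℝ) < u := hu
    rw [hg]
    simp only
    rw [Up_of_lt (by linarith)]
    rw [show z0 - (z0 - ζ (t - u)) = ζ (t - u) by ring]
    ring
  have ir : IntegrableOn (fun u => g (t + u)) (Ioi 0) := r1.congr_fun (fun u hu => (er u hu).symm) measurableSet_Ioi
  have il : IntegrableOn (fun u => g (t - u)) (Ioi 0) := l1.congr_fun (fun u hu => (el u hu).symm) measurableSet_Ioi
  have ir' : IntegrableOn g (Ioi t) := by
    have e1 : MeasurePreserving (fun u : ℝ => t + u) := measurePreserving_add_left volume t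
    have e2 : MeasurableEmbedding (fun u : ℝ => t + u) := (Homeomorph.addLeft t).measurableEmbedding
    have h1 := e1.integrableOn_comp_preimage e2 (f := g) (s := Ioi t)
    have h2 : (fun u : ℝ => t + u) ⁻¹' Ioi t = Ioi 0 := by
      ext u
      simp
    rw [h2] at h1
    exact h1.1 ir
  have il' : IntegrableOn g (Iio t) := by
    have e1 : MeasurePreserving (fun u : ℝ => t - u) := mp_sub t
    have e2 : MeasurableEmbedding (fun u : ℝ => t - u) := (Homeomorph.subLeft t).measurableEmbedding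
    have h1 := e1.integrableOn_comp_preimage e2 (f := g) (s := Iio t)
    have h2 : (fun u : ℝ => t - u) ⁻¹' Iio t = Ioi 0 := by
      ext u
      simp
    rw [h2] at h1
    exact h1.1 il
  have vr : ∫ t' in Ioi t, g t' = ∫ u in Ioi (0:ℝ), f (z0 + u) * Φ u := by
    rw [← r3]
    have e1 : MeasurePreserving (fun u : ℝ => t + u) := measurePreserving_add_left volume t
    have e2 : MeasurableEmbedding (fun u : ℝ => t + u) := (Homeomorph.addLeft t).measurableEmbedding
    have h1 := e1.setIntegral_preimage_emb e2 g (Ioi t)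
    have h2 : (fun u : ℝ => t + u) ⁻¹' Ioi t = Ioi 0 := by
      ext u
      simp
    rw [h2] at h1
    rw [← h1]
    exact setIntegral_congr_fun measurableSet_Ioi er
  have vl : ∫ t' in Iio t, g t' = ∫ u in Ioi (0:ℝ), f (z0 - u) * Φ u := by
    rw [← l3]
    have e1 : MeasurePreserving (fun u : ℝ => t - u) := mp_sub t
    have e2 : MeasurableEmbedding (fun u : ℝ => t - u) := (Homeomorph.subLeft t).measurableEmbedding
    have h1 := e1.setIntegral_preimage_emb e2 g (Iio t)
    have h2 : (fun u : ℝ => t - u) ⁻¹' Iio t = Ioi 0 := by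
      ext u
      simp
    rw [h2] at h1
    rw [← h1]
    exact setIntegral_congr_fun measurableSet_Ioi el
  have il'' : IntegrableOn g (Iic t) := by
    rw [integrableOn_Iic_iff_integrableOn_Iio]
    exact il'
  have ig : Integrable g := by
    have := il''.union ir'
    rwa [Iic_union_Ioi, integrableOn_univ] at this
  refine ⟨ig, r2, l2, ?_⟩
  rw [← intervalIntegral.integral_Iic_add_Ioi il'' ir', integral_Iic_eq_integral_Iio, vl, vr, add_comm]

end NUAct
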