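import Pool.Agent.NUP.MF.Const

/-!
# The complex pair potential `Uc` (branch `Re z > 0`) and the complex field `vc`

`Uc z = - log ω(z)`, `ω = w g`, analytic for `0 < Re z`, `|Im z| < l`; `Uc t = V t` for `t > 0`.
-/

set_option autoImplicit false

open MeasureTheory Set Filter Topology Complex

namespace NUAct

open NUMF

noncomputable section

/-- `log (cosh 2z + cos 2y)` -/
def Ly (y : ℝ) (z : ℂ) : ℂ :=
  Complex.log (Complex.cosh (z + y * I)) + Complex.log (Complex.cosh (z - y * I)) + Real.log 2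

/-- the pair potential, `Re z > 0` -/
def Uc (z : ℂ) : ℂ :=
  Ly (3 * l) z - Ly (2 * l) z + 2 * Ly l z - Ly 0 z - 2 * Complex.log (Complex.sinh z) - Real.log 2

/-- the field -/
def vc (z : ℂ) : ℂ := Ly 0 z - Ly (3 * l) z

/-- `ω` -/
def om (z : ℂ) : ℂ := Complex.sinh z ^ 2 * Complex.cosh (2 * z) / (Complex.cosh (2 * z) - r) *
  (4 * Complex.cosh z ^ 2 / (Complex.cosh (2 * z) + r) ^ 2)

lemma re_sinh (w : ℂ) : (Complex.sinh w).re = Real.sinh w.re * Real.cos w.im := by
  conv_lhs => rw [← Complex.re_add_im w]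
  rw [Complex.sinh_add, Complex.cosh_mul_I, Complex.sinh_mul_I]
  simp [← Complex.ofReal_cosh, ← Complex.ofReal_sinh, ← Complex.ofReal_cos, ← Complex.ofReal_sin]

lemma sinh_slit {w : ℂ} (h0 : 0 < w.re) (hw : |w.im| < Real.pi / 2) :
    Complex.sinh w ∈ slitPlane := by
  left
  rw [re_sinh]
  have h2 : 0 < Real.cos w.im := Real.cos_pos_of_mem_Ioo (by
    rw [abs_lt] at hw
    exact ⟨hw.1, hw.2⟩)
  have h3 : 0 < Real.sinh w.re := Real.sinh_pos_iff.2 h0
  positivity

lemma im_add (z : ℂ) (y : ℝ) : (z + y * I).im = z.im + y := by simp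

lemma im_sub (z : ℂ) (y : ℝ) : (z - y * I).im = z.im - y := by simp

lemma im_add_lt {z : ℂ} {y : ℝ} (h : |z.im| + |y| < Real.pi / 2) :
    |(z + y * I).im| < Real.pi / 2 := by
  rw [im_add]
  exact lt_of_le_of_lt (abs_add_le _ _) h

lemma im_sub_lt {z : ℂ} {y : ℝ} (h : |z.im| + |y| < Real.pi / 2) :
    |(z - y * I).im| < Real.pi / 2 := by
  rw [im_sub]
  exact lt_of_le_of_lt (abs_sub _ _) h

lemma hasDerivAt_logcosh {w : ℂ} (hw : |w.im| < Real.pi / 2) :
    HasDerivAt (fun z => Complex.log (Complex.cosh z)) (Complex.sinh w / Complex.cosh w) w :=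
  (Complex.hasDerivAt_cosh w).clog (cosh_slit hw)

/-- the derivative of `Ly` -/
def Ty (y : ℝ) (z : ℂ) : ℂ :=
  Complex.sinh (z + y * I) / Complex.cosh (z + y * I) +
    Complex.sinh (z - y * I) / Complex.cosh (z - y * I)

lemma hasDerivAt_Ly {y : ℝ} {z : ℂ} (h : |z.im| + |y| < Real.pi / 2) :
    HasDerivAt (Ly y) (Ty y z) z := by
  have h1 := (hasDerivAt_logcosh (im_add_lt h)).comp z ((hasDerivAt_id z).add_const ((y:ℂ) * I))
  have h2 := (hasDerivAt_logcosh (im_sub_lt h)).comp z ((hasDerivAt_id z).sub_const ((y:ℂ) * I))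
  have h3 := (h1.add h2).add_const (Real.log 2 : ℂ)
  simp only [mul_one] at h3
  exact h3

/-- the derivative of `Uc` -/
def Ud (z : ℂ) : ℂ :=
  Ty (3 * l) z - Ty (2 * l) z + 2 * Ty l z - Ty 0 z - 2 * (Complex.cosh z / Complex.sinh z)

lemma l8 : 8 * l = Real.pi := by unfold l; ring

lemma a3 {x : ℝ} (h : |x| < l) : |x| + |3 * l| < Real.pi / 2 := by
  have hl := l_pos
  have h8 := l8
  rw [abs_of_pos (by linarith : 0 < 3 * l)]; linarith

lemma a2 {x : ℝ} (h : |x| < l) : |x| + |2 * l| < Real.pi / 2 := by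
  have hl := l_pos
  have h8 := l8
  rw [abs_of_pos (by linarith : 0 < 2 * l)]; linarith

lemma a1 {x : ℝ} (h : |x| < l) : |x| + |l| < Real.pi / 2 := by
  have hl := l_pos
  have h8 := l8
  rw [abs_of_pos hl]; linarith

lemma a0 {x : ℝ} (h : |x| < l) : |x| + |(0:ℝ)| < Real.pi / 2 := by
  have hl := l_pos
  have h8 := l8
  rw [abs_zero]; linarith

lemma hasDerivAt_Uc {z : ℂ} (h0 : 0 < z.re) (h : |z.im| < l) : HasDerivAt Uc (Ud z) z := by
  have hl := l_pos
  have h8 := l8
  have a3 := a3 h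
  have a2 := a2 h
  have a1 := a1 h
  have a0 := a0 h
  have d3 := hasDerivAt_Ly a3
  have d2 := hasDerivAt_Ly a2
  have d1 := (hasDerivAt_Ly a1).const_mul (2:ℂ)
  have d0 := hasDerivAt_Ly a0
  have ds : HasDerivAt (fun z => 2 * Complex.log (Complex.sinh z)) (2 * (Complex.cosh z / Complex.sinh z)) z :=
    ((Complex.hasDerivAt_sinh z).clog (sinh_slit h0 (by linarith))).const_mul 2
  exact ((((d3.sub d2).add d1).sub d0).sub ds).sub_const _

lemma hasDerivAt_vc {z : ℂ} (h : |z.im| < l) : HasDerivAt vc (Ty 0 z - Ty (3 * l) z) z := by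
  have hl := l_pos
  have h8 := l8
  have a3 := a3 h
  have a0 := a0 h
  exact (hasDerivAt_Ly a0).sub (hasDerivAt_Ly a3)

/-! ### real values -/

lemma log_cosh_conj {w : ℂ} (hw : |w.im| < Real.pi / 2) :
    Complex.log (Complex.cosh ((starRingEnd ℂ) w)) = (starRingEnd ℂ) (Complex.log (Complex.cosh w)) := by
  rw [Complex.cosh_conj, Complex.log_conj]
  have h := cosh_slit hw
  exact Complex.slitPlane_arg_ne_pi h

lemma Ly_ofReal {y : ℝ} (hy : |y| < Real.pi / 2) (t : ℝ) : Ly y t = (h t y : ℂ) := by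
  have e1 : (t : ℂ) - y * I = (starRingEnd ℂ) ((t : ℂ) + y * I) := by
    simp [sub_eq_add_neg]
  have hw : |((t : ℂ) + y * I).im| < Real.pi / 2 := by simpa using hy
  have hn : 0 < ‖Complex.cosh ((t : ℂ) + y * I)‖ := norm_pos_iff.2 (cosh_ne hw)
  unfold Ly
  rw [e1, log_cosh_conj hw, Complex.add_conj, Complex.log_re]
  unfold h
  have e2 := two_norm_cosh_sq ((t : ℂ) + y * I)
  simp only [Complex.add_re, Complex.ofReal_re, Complex.mul_re, Complex.I_re, mul_zero,
    Complex.ofReal_im, Complex.I_im, mul_one, sub_self, add_zero, Complex.add_im, Complex.mul_im,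
    zero_add] at e2
  rw [← e2, Real.log_mul two_ne_zero (by positivity), Real.log_pow]
  push_cast
  ring

lemma vc_ofReal (t : ℝ) : vc t = (v t : ℂ) := by
  have hl := l_pos
  have h8 := l8
  unfold vc
  rw [Ly_ofReal (by rw [abs_zero]; linarith), Ly_ofReal (by rw [abs_of_pos (by linarith)]; linarith),
    v_eq]
  push_cast
  ring

lemma V_eq' {t : ℝ} (ht : t ≠ 0) :
    V t = h t (3 * l) - h t (2 * l) + 2 * h t l - h t 0 - h t (4 * l) := by
  rw [V_eq ht, log_w ht, log_g, zero_add, zero_sub, h_neg_right, show 3 * l + l = 4 * l by ring,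
    show 3 * l - l = 2 * l by ring]
  ring

lemma h4_eq {t : ℝ} (ht : 0 < t) : h t (4 * l) = Real.log 2 + 2 * Real.log (Real.sinh t) := by
  have hs : 0 < Real.sinh t := Real.sinh_pos_iff.2 ht
  rw [h4, show Real.cosh (2 * t) - 1 = 2 * Real.sinh t ^ 2 by rw [cosh_two]; ring,
    Real.log_mul two_ne_zero (by positivity), Real.log_pow]
  push_cast
  ring

lemma Uc_ofReal {t : ℝ} (ht : 0 < t) : Uc t = (V t : ℂ) := by
  have hl := l_pos
  have h8 := l8
  have hs : 0 < Real.sinh t := Real.sinh_pos_iff.2 ht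
  have b3 : |3 * l| < Real.pi / 2 := by rw [abs_of_pos (by linarith : 0 < 3 * l)]; linarith
  have b2 : |2 * l| < Real.pi / 2 := by rw [abs_of_pos (by linarith : 0 < 2 * l)]; linarith
  have b1 : |l| < Real.pi / 2 := by rw [abs_of_pos hl]; linarith
  have b0 : |(0:ℝ)| < Real.pi / 2 := by rw [abs_zero]; linarith
  unfold Uc
  rw [Ly_ofReal b3, Ly_ofReal b2, Ly_ofReal b1, Ly_ofReal b0, V_eq' ht.ne', h4_eq ht,
    ← Complex.ofReal_sinh, ← Complex.ofReal_log hs.le]
  push_cast
  ring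

/-! ### the exponential of `Uc` -/

lemma exp_Ly {y : ℝ} {z : ℂ} (h : |z.im| + |y| < Real.pi / 2) :
    Complex.exp (Ly y z) = Complex.cosh (2 * z) + Real.cos (2 * y) := by
  have n1 := cosh_ne (im_add_lt h)
  have n2 := cosh_ne (im_sub_lt h)
  unfold Ly
  rw [Complex.exp_add, Complex.exp_add, Complex.exp_log n1, Complex.exp_log n2, ← Complex.ofReal_exp,
    Real.exp_log two_pos, Complex.cosh_add, Complex.cosh_sub, Complex.cosh_mul_I, Complex.sinh_mul_I]
  rw [Complex.cosh_two_mul]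
  have e1 := Complex.cos_sq_add_sin_sq (y : ℂ)
  have e2 := Complex.cosh_sq z
  push_cast
  rw [Complex.cos_two_mul]
  have e3 : I * I = -1 := Complex.I_mul_I
  linear_combination (-2 * Complex.sinh z ^ 2 * Complex.sin y ^ 2) * e3 +
    (2 * Complex.sinh z ^ 2) * e1 + (2 * Complex.cos (y:ℂ) ^ 2 - 1) * e2

lemma exp_Uc {z : ℂ} (h0 : 0 < z.re) (h : |z.im| < l) : Complex.exp (-Uc z) = om z := by
  have hl := l_pos
  have h8 := l8
  have a3 := a3 h
  have a2 := a2 h
  have a1 := a1 h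
  have a0 := a0 h
  have hs : Complex.sinh z ≠ 0 := Complex.slitPlane_ne_zero (sinh_slit h0 (by linarith))
  have c0 : Real.cos (2 * 0) = 1 := by simp
  have c1 : Real.cos (2 * l) = r := by
    unfold l; rw [show 2 * (Real.pi / 8) = Real.pi / 4 by ring, r_eq]
  have c2 : Real.cos (2 * (2 * l)) = 0 := by
    unfold l; rw [show 2 * (2 * (Real.pi / 8)) = Real.pi / 2 by ring, Real.cos_pi_div_two]
  have c3 : Real.cos (2 * (3 * l)) = -r := by
    unfold l
    rw [show 2 * (3 * (Real.pi / 8)) = Real.pi - Real.pi / 4 by ring, Real.cos_pi_sub, r_eq]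
  have e0 := exp_Ly a0
  have e1 := exp_Ly a1
  have e2 := exp_Ly a2
  have e3 := exp_Ly a3
  rw [c0] at e0
  rw [c1] at e1
  rw [c2] at e2
  rw [c3] at e3
  have n0 : Complex.exp (Ly 0 z) ≠ 0 := Complex.exp_ne_zero _
  have n1 : Complex.exp (Ly l z) ≠ 0 := Complex.exp_ne_zero _
  have n3 : Complex.exp (Ly (3 * l) z) ≠ 0 := Complex.exp_ne_zero _
  have key : Complex.exp (-Uc z) = Complex.exp (Ly (2 * l) z) * Complex.exp (Ly 0 z) *
      Complex.exp (Complex.log (Complex.sinh z)) ^ 2 * Complex.exp (Real.log 2) /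
      (Complex.exp (Ly (3 * l) z) * Complex.exp (Ly l z) ^ 2) := by
    rw [eq_div_iff (by positivity), ← Complex.exp_nat_mul, ← Complex.exp_nat_mul, ← Complex.exp_add,
      ← Complex.exp_add, ← Complex.exp_add, ← Complex.exp_add, ← Complex.exp_add]
    congr 1
    unfold Uc
    push_cast
    ring
  rw [key, Complex.exp_log hs, ← Complex.ofReal_exp, Real.exp_log two_pos]
  unfold om
  have g0 : 2 * Complex.cosh z ^ 2 = Complex.exp (Ly 0 z) := by
    rw [e0, Complex.cosh_two_mul]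
    have := Complex.cosh_sq z
    push_cast
    linear_combination this
  have g1 : Complex.cosh (2 * z) + r = Complex.exp (Ly l z) := by rw [e1]
  have g2 : Complex.cosh (2 * z) = Complex.exp (Ly (2 * l) z) := by rw [e2]; simp
  have g3 : Complex.cosh (2 * z) - r = Complex.exp (Ly (3 * l) z) := by
    rw [e3]; push_cast; ring
  rw [g1, g3, show 4 * Complex.cosh z ^ 2 = 2 * (2 * Complex.cosh z ^ 2) by ring, g0, g2]
  field_simp
  push_cast
  ring

end

end NUAct
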