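import Pool.Agent.NUAct.PhiQ2

/-!
# Versions for external potentials on a narrow strip

The quantities `B`, `K B` do not depend on the external potentials: all estimates hold for arbitrary
`Fe`; the hypotheses of the action identity only need `Ext w (Fe a)` with `ε ≤ w ≤ l / 4`.
-/

set_option autoImplicit false

open MeasureTheory Set Filter Topology Complex

namespace NUAct

open NUMF NUKer

noncomputable section

/-- the contour in a strip of width `w` -/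
lemma Disp.path_w {s ε M R w : ℝ} {δ δ1 δ2 : ℝ → ℂ} (D : Disp s ε M R δ δ1 δ2) (hε : ε ≤ 1 / 20)
    (hw : ε ≤ w) : Path w (1 / 2) 2 (zt δ) (zd δ1) :=
  { D.path hε with
    im_le := fun t => by
      have h1 := Complex.abs_im_le_norm (δ t)
      have h2 := D.e0 t
      have e : (zt δ t).im = (δ t).im := by simp [zt]
      rw [e]
      linarith }

lemma path_of_cur_w {s ε M b w : ℝ} {e η η1 : ℝ → ℝ} (hs : 0 ≤ s) (hε : ε ≤ 1 / 20) (hw : ε ≤ w)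
    (hc : Cur s ε M b e η) (hη : ∀ t, HasDerivAt η (η1 t) t) :
    Path w (1 / 2) 2 (zt (iD η)) (zd (iD η1)) := by
  obtain ⟨η2, h, _⟩ := hc.disp' hs hη
  exact h.path_w hε hw

/-- the action identity for external potentials on a strip of width `w` -/
theorem gas_ok_w {s ε M b w : ℝ} {e η η1 : Bool → ℝ → ℝ} {Fe : Bool → ℂ → ℂ} (hs : 0 ≤ s)
    (hε : ε ≤ 1 / 20) (hw : ε ≤ w) (hw2 : w ≤ l / 4) (hc : ∀ a, Cur s ε M b (e a) (η a))
    (hη : ∀ a t, HasDerivAt (η a) (η1 a t) t) (hF : ∀ a, Ext w (Fe a)) :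
    (gas s η η1 Fe).Ok :=
  two_ok s hw2 (fun a => path_of_cur_w hs hε hw (hc a) (hη a)) hF

lemma ext_zero (w : ℝ) : Ext w fun _ => 0 :=
  ⟨fun _ _ => differentiableAt_const _, 0, fun z _ => by simp⟩

/-- first order term of `K B`, arbitrary potentials -/
theorem exists_KB1' : ∃ K : ℝ, 1 ≤ K ∧ ∀ {s ε M b : ℝ} {e η η1 : Bool → ℝ → ℝ}
    (R : ℝ), 1 ≤ R → b ≤ R → 0 ≤ s → (∀ a, Cur s ε M b (e a) (η a)) →
    (∀ a t, HasDerivAt (η a) (η1 a t) t) → K * R ^ 7 * ε ≤ 1 → ∀ (Fe : Bool → ℂ → ℂ)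
    (a d : Bool) (t : ℝ), |t| ≤ R →
    ‖(gas s η η1 Fe).KB a d t - I * (NUKer.cv (kR a d) (hd s (η d) (η1 d)) t : ℂ)‖ ≤
      K * R ^ 8 * (M * ε) ∧ |NUKer.cv (kR a d) (hd s (η d) (η1 d)) t| ≤ K * R ^ 2 * M ∧
      ‖Bf s (iD (η a)) (iD (η1 a)) t‖ ≤ K * M ∧ ‖Br s (iD (η a)) (iD (η1 a)) t‖ ≤ K * (M * ε) := by
  obtain ⟨K, hK, H⟩ := exists_KB1
  exact ⟨K, hK, fun R hR hbR hs hc hη hsm Fe a d t ht =>
    H R hR hbR hs hc hη hsm (fun _ _ => 0) (fun _ => ext_zero _) a d t ht⟩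

/-- **the constant term of the action**, arbitrary potentials -/
theorem exists_S' : ∃ K : ℝ, 1 ≤ K ∧ ∀ {s ε M b : ℝ} {e η η1 : Bool → ℝ → ℝ}
    (R : ℝ), 1 ≤ R → b ≤ R → 0 ≤ s → (∀ a, Cur s ε M b (e a) (η a)) →
    (∀ a t, HasDerivAt (η a) (η1 a t) t) → K * R ^ 7 * ε ≤ 1 → ∀ (Fe : Bool → ℂ → ℂ),
    |(gas s η η1 Fe).S - ((∑ a, (∫ t : ℝ, ((s * P t : ℝ) : ℂ) * Fe a t) -
      ∑ a, (∫ t, Bf s (iD (η a)) (iD (η1 a)) t * Fe a (zt (iD (η a)) t))).re + Ecur s η η1)| ≤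
      K * R ^ 9 * (M ^ 2 * ε) := by
  obtain ⟨K, hK, H⟩ := exists_S
  refine ⟨K, hK, ?_⟩
  intro s ε M b e η η1 R hR hbR hs hc hη hsm Fe
  have h := H R hR hbR hs hc hη hsm (fun _ _ => 0) (fun _ => ext_zero _)
  have e1 : (gas s η η1 Fe).S = (∑ a, (∫ t : ℝ, ((s * P t : ℝ) : ℂ) * Fe a t) -
      ∑ a, (∫ t, Bf s (iD (η a)) (iD (η1 a)) t * Fe a (zt (iD (η a)) t)) -
      (1 / 2) * ∑ a, ∑ d, (∫ t, (gas s η η1 Fe).B a t * (gas s η η1 Fe).KB a d t)).re := rfl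
  have e2 : (gas s η η1 (fun _ _ => 0)).S = (∑ a : Bool, (∫ t : ℝ, ((s * P t : ℝ) : ℂ) * 0) -
      ∑ a, (∫ t, Bf s (iD (η a)) (iD (η1 a)) t * 0) -
      (1 / 2) * ∑ a, ∑ d, (∫ t, (gas s η η1 Fe).B a t * (gas s η η1 Fe).KB a d t)).re := rfl
  simp only [mul_zero, integral_zero, Finset.sum_const_zero, sub_zero, zero_sub, Complex.neg_re,
    Complex.zero_re, zero_add] at e2 h
  rw [e2] at h
  rw [e1, Complex.sub_re]
  convert h using 2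
  ring

/-- **the quadratic part of the one body potential on the whole line**, arbitrary potentials -/
theorem exists_phiQ' : ∃ K : ℝ, 1 ≤ K ∧ ∀ {s ε M b : ℝ} {e η η1 : ℝ → ℝ}, 0 ≤ s → 0 ≤ b →
    ε ≤ 1 / 20 → Cur s ε M b e η → (∀ t, HasDerivAt η (η1 t) t) →
    ∀ (Fe : Bool → ℂ → ℂ),
    ∃ Q' : ℝ → ℝ, (∀ a t, HasDerivAt (fun t =>
      (∑ d, (gas s (fun _ => η) (fun _ => η1) Fe).KB a d t).re) (Q' t) t) ∧
    (∀ a t, |(∑ d, (gas s (fun _ => η) (fun _ => η1) Fe).KB a d t).re| ≤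
      K * (M * ε) * Wb b t) ∧ (∀ t, |Q' t| ≤ K * (M * ε) * Wb b t) := by
  obtain ⟨K, hK, H⟩ := exists_phiQ
  exact ⟨K, hK, fun hs hb hε hc hη Fe => H hs hb hε hc hη (fun _ _ => 0) fun _ => ext_zero _⟩

end

end NUAct
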